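import Pool.Agent.Work.MP_3035da_co.K.Chn

/-!
Module NOBRIDGE.

no_bridge: `a`, `b` adjacent, `d` a third vertex of `U G`.  `a` and `d` are joined in `av G {b}`
(`TwoConn`), and `a ≠ d`, so `a` has a neighbour `c ≠ b` (first step of a walk).  `c` and `b` are joined in
`av G {a}`; let `k` be the chain of `chain_of_reachable`, supported off `a`.  Then
`z = k + sing s(a,b) + sing s(a,c)` is in `cyc G` and `z s(a,b) = 1`.  `z = ∑ i ∈ S, f i`, so some
`f i s(a,b) ≠ 0`.

third: a nonzero face has an edge `s(a,b)`; since `bd (f i) a = 0` there is `c ≠ b` with `f i s(a,c) = 1`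
(and `c ≠ a` because `s(a,a)` is not an edge); so `a`, `b`, `c` are three different vertices of `U G`, and
one of them differs from both `p` and `q`.
-/

set_option autoImplicit false

namespace Pool.Agent.Work.MP_3035da_co.K

open Finset

theorem no_bridge {V ι : Type} [Fintype V] [Fintype ι] {G : SimpleGraph V} {f : ι → Chain V}
    (hG : TwoConn G) (hf : FaceSys G f) {a b d : V} (hab : G.Adj a b) (hd : d ∈ U G) (hda : d ≠ a)
    (hdb : d ≠ b) : ∃ i, f i s(a, b) = 1 := by
  classical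
  have hr : (av G {b}).Reachable a d := hG b a d ⟨b, hab⟩ hd hab.ne hdb
  obtain ⟨p⟩ := hr
  obtain ⟨c, hac⟩ : ∃ c, (av G {b}).Adj a c := by
    cases p with
    | nil => exact absurd rfl hda
    | cons h q => exact ⟨_, h⟩
  have hcb : c ≠ b := fun h => hac.2.2 h
  have hac' : G.Adj a c := hac.1
  have hr2 : (av G {a}).Reachable c b :=
    hG a c b ⟨a, hac'.symm⟩ ⟨a, hab.symm⟩ hac'.ne' hab.ne'
  obtain ⟨k, hk, hb⟩ := chain_of_reachable hr2
  have hka : ∀ e, k s(a, e) = 0 := by
    intro e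
    by_contra h
    have h' : (av G {a}).Adj a e := hk _ h
    exact h'.2.1 rfl
  have hle : av G {a} ≤ G := fun _ _ h => h.1
  have hzc : k + sing s(a, b) + sing s(a, c) ∈ cyc G := by
    refine ⟨fun e he => ?_, fun v => ?_⟩
    · by_cases h1 : e = s(a, b)
      · rw [h1]; exact hab
      by_cases h2 : e = s(a, c)
      · rw [h2]; exact hac'
      have h3 : k e ≠ 0 := by
        intro h
        apply he
        rw [Pi.add_apply, Pi.add_apply, h, sing_ne h1, sing_ne h2]
        rfl
      exact SimpleGraph.edgeSet_mono hle (hk e h3)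
    · rw [bd_add, bd_add, bd_sing hab.ne, bd_sing hac'.ne, hb]
      have : ∀ p q r : ZMod 2, p + q + (r + q) + (r + p) = 0 := by decide
      exact this _ _ _
  obtain ⟨S, hS⟩ := hf.span _ hzc
  have h1 : (k + sing s(a, b) + sing s(a, c)) s(a, b) = 1 := by
    rw [Pi.add_apply, Pi.add_apply, hka, sing_self, sing_ne]
    · rfl
    · intro h
      rcases Sym2.eq_iff.1 h with h | h
      · exact hcb h.2.symm
      · exact hac'.ne h.1
  rw [hS, Finset.sum_apply] at h1
  have : ∃ i ∈ S, f i s(a, b) ≠ 0 := by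
    apply exists_ne_zero_of_sum_ne_zero
    rw [h1]; decide
  obtain ⟨i, _, hi⟩ := this
  exact ⟨i, (ne_zero_iff _).mp hi⟩

theorem third {V ι : Type} [Fintype V] [Fintype ι] {G : SimpleGraph V} {f : ι → Chain V}
    (hf : FaceSys G f) {i : ι} (hi : f i ≠ 0) (p q : V) : ∃ d ∈ U G, d ≠ p ∧ d ≠ q := by
  classical
  obtain ⟨e, he⟩ := Function.ne_iff.mp hi
  induction e with
  | _ a b =>
  have he1 : f i s(a, b) = 1 := (ne_zero_iff _).mp he
  have hab : G.Adj a b := hf.edge (i := i) (e := s(a, b)) (by rw [he1]; decide)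
  have hbd : bd (f i) a = 0 := (hf.mem i).2 a
  obtain ⟨c, hcb, hc⟩ : ∃ c, c ≠ b ∧ f i s(a, c) = 1 := by
    by_contra hcon
    push Not at hcon
    unfold bd at hbd
    rw [sum_eq_single_of_mem b (mem_univ b)] at hbd
    · rw [he1] at hbd; exact absurd hbd (by decide)
    · intro c _ hc
      rcases zo (f i s(a, c)) with h | h
      · exact h
      · exact absurd h (hcon c hc)
  have hac : G.Adj a c := hf.edge (i := i) (e := s(a, c)) (by rw [hc]; decide)
  have ha : a ∈ U G := ⟨b, hab⟩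
  have hb : b ∈ U G := ⟨a, hab.symm⟩
  have hc' : c ∈ U G := ⟨a, hac.symm⟩
  by_cases h1 : a ≠ p ∧ a ≠ q
  · exact ⟨a, ha, h1⟩
  by_cases h2 : b ≠ p ∧ b ≠ q
  · exact ⟨b, hb, h2⟩
  by_cases h3 : c ≠ p ∧ c ≠ q
  · exact ⟨c, hc', h3⟩
  exfalso
  have e1 : a = p ∨ a = q := by tauto
  have e2 : b = p ∨ b = q := by tauto
  have e3 : c = p ∨ c = q := by tauto
  have n1 := hab.ne
  have n2 := hac.ne
  rcases e1 with rfl | rfl <;> rcases e2 with rfl | rfl <;> rcases e3 with rfl | rfl <;>
    first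
    | exact n1 rfl
    | exact n2 rfl
    | exact hcb rfl

end Pool.Agent.Work.MP_3035da_co.K
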