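import Pool.Agent.Work.MP_3035da_co.K.Link
import Pool.Agent.Work.MP_3035da_co.K.NoBridge

/-!
Module UNIQREL.

Suppose `i ∈ T`, `f i ≠ 0` and `j ∉ T`, `f j ≠ 0`.  Take `f i s(w,c) = 1`, `f j s(w',c') = 1`.  By
`same_class` (the sum over `T` is `0`) at every vertex `v` either all faces at `v` are in `T` or no face at
`v` is in `T`.  Say `v` is good if all faces at `v` (`f k s(v,d) = 1`) are in `T`.  `w` is good: the second
alternative fails for `i`.  If `v` is good and `v'` is a neighbour of `v` then, by `third` and `no_bridge`,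
some face `k` contains `s(v,v')`; `k ∈ T` as `v` is good, so the second alternative fails at `v'` and `v'` is
good.  `w` and `w'` are joined in `G`: if `w = w'` clear; otherwise let `d` be a vertex of `U G` different
from `w`, `w'` (`third`); `w` and `w'` are reachable from each other in `av G {d}`, so in `G`.  By induction
on the walk `w'` is good, so `j ∈ T`; contradiction.
-/

set_option autoImplicit false

namespace Pool.Agent.Work.MP_3035da_co.K

open Finset

theorem uniq_rel {V ι : Type} [Fintype V] [Fintype ι] {G : SimpleGraph V} {f : ι → Chain V}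
    (hG : TwoConn G) (hf : FaceSys G f) (T : Finset ι) (hT : ∑ i ∈ T, f i = 0) :
    (∀ i ∈ T, f i = 0) ∨ (∀ i ∉ T, f i = 0) := by
  by_contra hcon
  push Not at hcon
  obtain ⟨⟨i, hiT, hi⟩, ⟨j, hjT, hj⟩⟩ := hcon
  have hex : ∀ k : ι, f k ≠ 0 → ∃ w c : V, f k s(w, c) = 1 := by
    intro k hk
    obtain ⟨e, he⟩ : ∃ e, f k e ≠ 0 := by
      by_contra h
      push Not at h
      exact hk (funext h)
    induction e using Sym2.ind with
    | _ a b => exact ⟨a, b, (ne_zero_iff _).1 he⟩
  obtain ⟨w, c, hwc⟩ := hex i hi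
  obtain ⟨w', c', hwc'⟩ := hex j hj
  have hcl : ∀ v : V, (∀ k d, f k s(v, d) = 1 → k ∈ T) ∨ (∀ k d, f k s(v, d) = 1 → k ∉ T) := by
    intro v
    exact same_class hG hf T v (fun d => by rw [hT]; rfl)
  have hgw : ∀ k d, f k s(w, d) = 1 → k ∈ T := by
    rcases hcl w with h | h
    · exact h
    · exact absurd hiT (h i c hwc)
  have hstep : ∀ v v' : V, G.Adj v v' → (∀ k d, f k s(v, d) = 1 → k ∈ T) →
      (∀ k d, f k s(v', d) = 1 → k ∈ T) := by
    intro v v' hvv hv
    obtain ⟨d, hdU, hd1, hd2⟩ := third hf hi v v'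
    obtain ⟨k, hk⟩ := no_bridge hG hf hvv hdU hd1 hd2
    have hkT : k ∈ T := hv k v' hk
    rcases hcl v' with h | h
    · exact h
    · rw [Sym2.eq_swap] at hk
      exact absurd hkT (h k v hk)
  have hadj : ∀ (k : ι) (a b : V), f k s(a, b) = 1 → G.Adj a b := by
    intro k a b hab
    have := hf.edge (i := k) (e := s(a, b)) (by rw [hab]; decide)
    exact this
  obtain ⟨d, hdU, hd1, hd2⟩ := third hf hi w w'
  have hreach : (av G {d}).Reachable w w' :=
    hG d w w' ⟨c, hadj i w c hwc⟩ ⟨c', hadj j w' c' hwc'⟩ hd1.symm hd2.symm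
  obtain ⟨p⟩ := hreach
  have hall : ∀ (a b : V) (p : (av G {d}).Walk a b), (∀ k e, f k s(a, e) = 1 → k ∈ T) →
      (∀ k e, f k s(b, e) = 1 → k ∈ T) := by
    intro a b p
    induction p with
    | nil => exact fun h => h
    | cons h _ ih => exact fun h' => ih (hstep _ _ h.1 h')
  exact hjT (hall w w' p hgw j c' hwc')

end Pool.Agent.Work.MP_3035da_co.K
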