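import Pool.Agent.Work.MP_3035da_co.K.Chn

/-!
Module CIRCUITS.

circ_arc: let `H` be the graph of the edges of `z` (`SimpleGraph.fromEdgeSet {e | z e ≠ 0}`; the pairs in
the support of `z` are no loops).  If `c'` is not reachable from `c` in `H`, let `K` be the component of
`c` and `z' e = z e` if some end of `e` is in `K` and `0` otherwise.  For `v ∈ K`, `bd z' v = bd z v = 0`;
for `v ∉ K` every edge of `z` at `v` has no end in `K`, so `bd z' v = 0`.  So `z' ∈ cyc H`, the support is
inside that of `z`, `z'` is not `0` (edge at `c`) and not `z` (edge at `c'`): contradiction to `Circ z`.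
So `c'` is reachable; take `chain_of_reachable`.

exists_circ: among the elements `z'` of `cyc G` with support inside the support of `z` and `z' e = 1` take
one with the least number of edges (`Finset.exists_min_image`, or `Nat.find`, or well-founded
induction).  It is a circuit: if `z''` is in some `cyc G''` with support inside that of `z'`, then
`z'' ∈ cyc G`; if `z'' ≠ 0`, `z'' ≠ z'` then both `z''` and `z' + z''` have smaller support than `z'` (their
supports are disjoint, nonempty and have union the support of `z'`), and one of them has value 1 at `e`.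

circ_deg: let `w ∈ VC z`, `z s(w,d₁) ≠ 0`, `H` the graph of the edges of `z` that avoid `w`, and `K` the
component of `d₁` in `H`.  The chain `z` restricted to the edges with an end in `K` has boundary `0` at all
vertices different from `w` (a vertex of `K` has all its edges there; a vertex outside `K`, not `w`, none),
so also at `w` (`bd_parity`); so an even number of vertices of `K` are neighbours of `w` in `z`, and there
is `d₂ ∈ K`, `d₂ ≠ d₁`, `z s(w,d₂) ≠ 0`.  With the chain `c` of `H` from `d₁` to `d₂` (`chain_of_reachable`) the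
chain `z' = c + sing s(w,d₁) + sing s(w,d₂)` is in the cycle space, nonzero, with support inside that of
`z`; so `z' = z`, and `z'` has exactly the two edges `s(w,d₁)`, `s(w,d₂)` at `w`.

circ_fill: fix `c₀ ∈ VC z`; for each `c` with `b c = 1` let `A c` be the chain of `circ_arc` from `c` to `c₀`
(for `c = c₀` take `0`; note `1 + 1 = 0`).  The sum of the `A c` has boundary `b + n [c₀]` with
`n` = the number of `c` with `b c = 1`, which is even as the sum of `b` is `0`.
-/

set_option autoImplicit false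

namespace Pool.Agent.Work.MP_3035da_co.K

open Finset

section
variable {V : Type} [Fintype V]

/-- restriction of a chain to the pairs that meet `K` -/
private noncomputable def rst (K : Set V) (z : Chain V) : Chain V :=
  open Classical in fun e => if ∃ v ∈ e, v ∈ K then z e else 0

private theorem rst_pos {K : Set V} {z : Chain V} {e : Sym2 V} (h : ∃ v ∈ e, v ∈ K) :
    rst K z e = z e := by simp only [rst]; rw [if_pos h]

private theorem rst_neg {K : Set V} {z : Chain V} {e : Sym2 V} (h : ¬ ∃ v ∈ e, v ∈ K) :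
    rst K z e = 0 := by simp only [rst]; rw [if_neg h]

private theorem rst_supp {K : Set V} {z : Chain V} {e : Sym2 V} (h : rst K z e ≠ 0) :
    z e ≠ 0 ∧ ∃ v ∈ e, v ∈ K := by
  by_cases h' : ∃ v ∈ e, v ∈ K
  · rw [rst_pos h'] at h; exact ⟨h, h'⟩
  · exact absurd (rst_neg h') h

private theorem bd_rst_in {K : Set V} {z : Chain V} {v : V} (hv : v ∈ K) :
    bd (rst K z) v = bd z v := by
  unfold bd
  exact sum_congr rfl fun w _ => rst_pos ⟨v, Sym2.mem_mk_left v w, hv⟩

private theorem bd_rst_out {K : Set V} {z : Chain V} {v : V} (hv : v ∉ K)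
    (h : ∀ w ∈ K, z s(v, w) = 0) : bd (rst K z) v = 0 := by
  unfold bd
  refine sum_eq_zero fun w _ => ?_
  by_contra hne
  obtain ⟨h1, u, hu, huK⟩ := rst_supp hne
  rcases Sym2.mem_iff.mp hu with rfl | rfl
  · exact hv huK
  · exact h1 (h _ huK)

/-- the graph of the edges of a chain -/
private def gr (z : Chain V) : SimpleGraph V := SimpleGraph.fromEdgeSet {e | z e ≠ 0}

private theorem gr_adj {G : SimpleGraph V} {z : Chain V} (hz : z ∈ cyc G) {a b : V} :
    (gr z).Adj a b ↔ z s(a, b) ≠ 0 := by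
  simp only [gr, SimpleGraph.fromEdgeSet_adj, Set.mem_ofPred_eq]
  refine ⟨fun h => h.1, fun h => ⟨h, ?_⟩⟩
  have := hz.1 _ h
  exact (SimpleGraph.mem_edgeSet G |>.mp this).ne

private theorem gr_edge {G : SimpleGraph V} {z : Chain V} (hz : z ∈ cyc G) (e : Sym2 V) :
    e ∈ (gr z).edgeSet ↔ z e ≠ 0 := by
  induction e with
  | _ a b => exact (SimpleGraph.mem_edgeSet _).trans (gr_adj hz)

private theorem cyc_gr {G : SimpleGraph V} {z : Chain V} (hz : z ∈ cyc G) : z ∈ cyc (gr z) :=
  cyc_of_supp hz fun e he => (gr_edge hz e).mpr he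

private theorem circ_reach {z : Chain V} {G : SimpleGraph V} (hG : z ∈ cyc G) (hz : Circ z)
    {c c' : V} (hc : ∃ d, z s(c, d) ≠ 0) (hc' : ∃ d, z s(c', d) ≠ 0) :
    (gr z).Reachable c c' := by
  by_contra hne
  set K : Set V := {v | (gr z).Reachable c v} with hK
  have hcK : c ∈ K := SimpleGraph.Reachable.refl _
  have hstep : ∀ v w, w ∈ K → z s(v, w) ≠ 0 → v ∈ K := fun v w hw h =>
    SimpleGraph.Reachable.trans hw (SimpleGraph.Adj.reachable ((gr_adj hG).mpr h).symm)
  have hmem : rst K z ∈ cyc (gr z) := by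
    refine ⟨fun e he => (gr_edge hG e).mpr (rst_supp he).1, fun v => ?_⟩
    by_cases hv : v ∈ K
    · rw [bd_rst_in hv]; exact hG.2 v
    · refine bd_rst_out hv fun w hw => ?_
      by_contra h
      exact hv (hstep v w hw h)
  rcases hz.2.2 _ _ hmem (fun e he => (rst_supp he).1) with h | h
  · obtain ⟨d, hd⟩ := hc
    apply hd
    rw [← rst_pos (K := K) (z := z) ⟨c, Sym2.mem_mk_left c d, hcK⟩, h]
    rfl
  · obtain ⟨d, hd⟩ := hc'
    rw [← h] at hd
    obtain ⟨h1, u, hu, huK⟩ := rst_supp hd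
    rcases Sym2.mem_iff.mp hu with rfl | rfl
    · exact hne huK
    · exact hne (hstep _ _ huK h1)

open Classical in
theorem circ_arc {V : Type} [Fintype V] {z : Chain V} (hz : Circ z) {c c' : V}
    (hc : ∃ d, z s(c, d) ≠ 0) (hc' : ∃ d, z s(c', d) ≠ 0) :
    ∃ A : Chain V, (∀ e, A e ≠ 0 → z e ≠ 0) ∧
      ∀ v, bd A v = (if v = c then 1 else 0) + (if v = c' then 1 else 0) := by
  obtain ⟨G, hG⟩ := hz.1
  obtain ⟨A, hA, hb⟩ := chain_of_reachable (circ_reach hG hz hc hc')
  exact ⟨A, fun e he => (gr_edge hG e).mp (hA e he), hb⟩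

theorem circ_deg {V : Type} [Fintype V] {z : Chain V} (hz : Circ z) {w : V} (hw : w ∈ VC z) :
    ∃ d₁ d₂, d₁ ≠ d₂ ∧ ∀ d, z s(w, d) ≠ 0 ↔ (d = d₁ ∨ d = d₂) := by
  classical
  obtain ⟨G, hG⟩ := hz.1
  obtain ⟨d₁, hd₁⟩ := hw
  have hwd : ∀ d, z s(w, d) ≠ 0 → w ≠ d := fun d hd =>
    (SimpleGraph.mem_edgeSet G |>.mp (hG.1 _ hd)).ne
  set H : SimpleGraph V := av (gr z) {w} with hH
  set K : Set V := {v | H.Reachable d₁ v} with hK
  have hd₁K : d₁ ∈ K := SimpleGraph.Reachable.refl _
  have hwiso : ∀ a, ¬ H.Adj a w := fun a h => h.2.2 rfl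
  have hwK : w ∉ K := by
    intro h
    have h' : H.Reachable d₁ w := h
    obtain ⟨p⟩ := h'.symm
    cases p with
    | nil => exact hwd _ hd₁ rfl
    | cons h p => exact h.2.1 rfl
  have hstep : ∀ v u, u ∈ K → v ≠ w → z s(v, u) ≠ 0 → v ∈ K := by
    intro v u hu hv h
    have huw : u ≠ w := fun h => hwK (h ▸ hu)
    have hadj : H.Adj u v := ⟨((gr_adj hG).mpr h).symm, huw, hv⟩
    exact SimpleGraph.Reachable.trans hu hadj.reachable
  have hbd : ∀ v, v ≠ w → bd (rst K z) v = 0 := by
    intro v hv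
    by_cases hvK : v ∈ K
    · rw [bd_rst_in hvK]; exact hG.2 v
    · refine bd_rst_out hvK fun u hu => ?_
      by_contra h
      exact hvK (hstep v u hu hv h)
  have hpar : ∑ v, bd (rst K z) v = 0 :=
    bd_parity (H := gr z) fun e he => (gr_edge hG e).mpr (rst_supp he).1
  have hbw : bd (rst K z) w = 0 := by
    rw [← hpar]
    exact (sum_eq_single w (fun v _ hv => hbd v hv) (fun h => absurd (mem_univ w) h)).symm
  have h1 : rst K z s(w, d₁) ≠ 0 := by
    rw [rst_pos ⟨d₁, Sym2.mem_mk_right w d₁, hd₁K⟩]; exact hd₁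
  obtain ⟨d₂, hd₂, h2⟩ : ∃ d₂, d₂ ≠ d₁ ∧ rst K z s(w, d₂) ≠ 0 := by
    by_contra hcon
    push Not at hcon
    apply h1
    rw [← hbw]
    exact (sum_eq_single d₁ (fun d _ hd => hcon d hd) (fun h => absurd (mem_univ d₁) h)).symm
  obtain ⟨hz2, u, hu, huK⟩ := rst_supp h2
  have hd₂K : d₂ ∈ K := by
    rcases Sym2.mem_iff.mp hu with rfl | rfl
    · exact absurd huK hwK
    · exact huK
  obtain ⟨c, hc, hcb⟩ := chain_of_reachable (show H.Reachable d₁ d₂ from hd₂K)
  have hcw : ∀ d, c s(w, d) = 0 := by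
    intro d
    by_contra h
    have := (SimpleGraph.mem_edgeSet H).mp (hc _ h)
    exact this.2.1 rfl
  set z' : Chain V := c + sing s(w, d₁) + sing s(w, d₂) with hz'
  have hne12 : s(w, d₁) ≠ s(w, d₂) := by
    intro h
    rcases Sym2.eq_iff.mp h with h | h
    · exact hd₂ h.2.symm
    · exact hwd _ hz2 h.1
  have hz'w : ∀ d, z' s(w, d) ≠ 0 ↔ (d = d₁ ∨ d = d₂) := by
    intro d
    have hval : z' s(w, d) = sing s(w, d₁) s(w, d) + sing s(w, d₂) s(w, d) := by
      rw [hz']; simp [hcw d]
    rw [hval]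
    constructor
    · intro h
      by_contra hcon
      push Not at hcon
      have e1 : s(w, d) ≠ s(w, d₁) := by
        intro h
        rcases Sym2.eq_iff.mp h with h | h
        · exact hcon.1 h.2
        · exact hwd _ hd₁ h.1
      have e2 : s(w, d) ≠ s(w, d₂) := by
        intro h
        rcases Sym2.eq_iff.mp h with h | h
        · exact hcon.2 h.2
        · exact hwd _ hz2 h.1
      rw [sing_ne e1, sing_ne e2] at h
      exact h (by decide)
    · rintro (rfl | rfl)
      · rw [sing_self, sing_ne hne12]; decide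
      · rw [sing_self, sing_ne hne12.symm]; decide
  have hsupp : ∀ e, z' e ≠ 0 → z e ≠ 0 := by
    intro e he
    by_cases e1 : e = s(w, d₁)
    · rw [e1]; exact hd₁
    by_cases e2 : e = s(w, d₂)
    · rw [e2]; exact hz2
    have : z' e = c e := by
      rw [hz']; simp [sing_ne e1, sing_ne e2]
    rw [this] at he
    have hE := hc e he
    induction e with
    | _ a b => exact (gr_adj hG).mp ((SimpleGraph.mem_edgeSet H).mp hE).1
  have hmem : z' ∈ cyc (gr z) := by
    refine ⟨fun e he => (gr_edge hG e).mpr (hsupp e he), fun v => ?_⟩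
    rw [hz', bd_add, bd_add, hcb, bd_sing (hwd _ hd₁), bd_sing (hwd _ hz2)]
    generalize (if v = d₁ then (1 : ZMod 2) else 0) = x
    generalize (if v = d₂ then (1 : ZMod 2) else 0) = y
    generalize (if v = w then (1 : ZMod 2) else 0) = t
    revert x y t
    decide
  have hne : z' ≠ 0 := by
    intro h
    exact (hz'w d₁).mpr (Or.inl rfl) (by rw [h]; rfl)
  have heq : z' = z := (hz.2.2 _ _ hmem hsupp).resolve_left hne
  refine ⟨d₁, d₂, hd₂.symm, ?_⟩
  rw [← heq]
  exact hz'w

theorem circ_fill {V : Type} [Fintype V] {z : Chain V} (hz : Circ z) {b : V → ZMod 2}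
    (hb : ∀ v, b v ≠ 0 → v ∈ VC z) (hs : ∑ v, b v = 0) :
    ∃ A : Chain V, (∀ e, A e ≠ 0 → z e ≠ 0) ∧ ∀ v, bd A v = b v := by
  classical
  obtain ⟨c₀, hc₀⟩ : ∃ c₀, c₀ ∈ VC z := by
    by_contra hcon
    push Not at hcon
    apply hz.2.1
    funext e
    induction e with
    | _ a b' =>
      by_contra h
      exact hcon a ⟨b', h⟩
  have hex : ∀ c : V, ∃ A : Chain V, (∀ e, A e ≠ 0 → z e ≠ 0) ∧
      (b c ≠ 0 → ∀ v, bd A v = (if v = c then 1 else 0) + (if v = c₀ then 1 else 0)) := by
    intro c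
    by_cases hc : b c = 0
    · exact ⟨0, fun e he => absurd rfl he, fun h => absurd hc h⟩
    · obtain ⟨A, h1, h2⟩ := circ_arc hz (hb c hc) hc₀
      exact ⟨A, h1, fun _ => h2⟩
  choose A hA1 hA2 using hex
  refine ⟨∑ c, b c • A c, ?_, ?_⟩
  · intro e he
    rw [Finset.sum_apply] at he
    obtain ⟨c, _, hc⟩ := exists_ne_zero_of_sum_ne_zero he
    refine hA1 c e ?_
    intro h
    apply hc
    rw [Pi.smul_apply, h, smul_zero]
  · intro v
    rw [bd_sum]
    have hsm : ∀ c, bd (b c • A c) v = b c * ((if v = c then 1 else 0) + (if v = c₀ then 1 else 0)) := by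
      intro c
      have : bd (b c • A c) v = b c * bd (A c) v := by
        simp only [bd, Pi.smul_apply, smul_eq_mul, ← mul_sum]
      rw [this]
      by_cases hc : b c = 0
      · rw [hc, zero_mul, zero_mul]
      · rw [hA2 c hc v]
    rw [sum_congr rfl fun c _ => hsm c]
    simp only [mul_add, sum_add_distrib, ← sum_mul, hs, zero_mul, add_zero]
    simp

theorem exists_circ {V : Type} [Fintype V] {G : SimpleGraph V} {z : Chain V} (hz : z ∈ cyc G)
    {e : Sym2 V} (he : z e ≠ 0) :
    ∃ C ∈ cyc G, Circ C ∧ (∀ e', C e' ≠ 0 → z e' ≠ 0) ∧ C e ≠ 0 := by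
  classical
  have hex : ∃ k : ℕ, ∃ C ∈ cyc G, (∀ e', C e' ≠ 0 → z e' ≠ 0) ∧ C e ≠ 0 ∧
      Set.ncard {e' | C e' ≠ 0} = k := ⟨_, z, hz, fun _ h => h, he, rfl⟩
  obtain ⟨C, hC, hCz, hCe, hk⟩ := Nat.find_spec hex
  have hmin : ∀ C' ∈ cyc G, (∀ e', C' e' ≠ 0 → z e' ≠ 0) → C' e ≠ 0 →
      Set.ncard {e' | C e' ≠ 0} ≤ Set.ncard {e' | C' e' ≠ 0} := by
    intro C' h1 h2 h3
    rw [hk]
    exact Nat.find_min' hex ⟨C', h1, h2, h3, rfl⟩
  refine ⟨C, hC, ⟨⟨G, hC⟩, fun h => hCe (by rw [h]; rfl), ?_⟩, hCz, hCe⟩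
  intro G' z' hz' hsub
  by_contra hcon
  push Not at hcon
  obtain ⟨h0, hneC⟩ := hcon
  have hz'G : z' ∈ cyc G := cyc_of_supp hz' fun e' he' => hC.1 e' (hsub e' he')
  by_cases h : z' e = 0
  · -- the sum is smaller
    have hlt : Set.ncard {e' | (C + z') e' ≠ 0} < Set.ncard {e' | C e' ≠ 0} := by
      refine Set.ncard_lt_ncard ?_ (Set.toFinite _)
      refine ⟨?_, ?_⟩
      · intro e' he' h'
        apply he'
        have : z' e' = 0 := by
          by_contra hh
          exact hsub e' hh h'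
        simp [h', this]
      · intro hss
        obtain ⟨e', he'⟩ : ∃ e', z' e' ≠ 0 := by
          by_contra hh
          push Not at hh
          exact h0 (funext hh)
        have hCe' := hsub e' he'
        have := hss (show e' ∈ {e' | C e' ≠ 0} from hCe')
        apply this
        rw [Pi.add_apply, (ne_zero_iff _).mp he', (ne_zero_iff _).mp hCe']
        decide
    have hle := hmin (C + z') ((cyc G).add_mem hC hz'G) (by
      intro e' he'
      refine hCz e' fun h' => he' ?_
      have : z' e' = 0 := by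
        by_contra hh
        exact hsub e' hh h'
      simp [h', this]) (by simpa [h] using hCe)
    exact absurd hlt (not_lt.mpr hle)
  · have hle := hmin z' hz'G (fun e' he' => hCz e' (hsub e' he')) h
    have hset : {e' | z' e' ≠ 0} = {e' | C e' ≠ 0} :=
      Set.eq_of_subset_of_ncard_le (fun e' he' => hsub e' he') hle (Set.toFinite _)
    apply hneC
    funext e'
    have hiff : z' e' ≠ 0 ↔ C e' ≠ 0 := by
      have := congrArg (fun s => e' ∈ s) hset
      simpa using this
    rcases zo (z' e') with h1 | h1 <;> rcases zo (C e') with h2 | h2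
    · rw [h1, h2]
    · exact absurd h1 (hiff.mpr (by rw [h2]; decide))
    · exact absurd h2 (hiff.mp (by rw [h1]; decide))
    · rw [h1, h2]

end

theorem Circ.eq_of_sub {V : Type} [Fintype V] {z z' : Chain V} (hz : Circ z) {G : SimpleGraph V}
    (hz' : z' ∈ cyc G) (h0 : z' ≠ 0) (h : ∀ e, z' e ≠ 0 → z e ≠ 0) : z' = z :=
  (hz.2.2 G z' hz' h).resolve_left h0

theorem Circ.bd {V : Type} [Fintype V] {z : Chain V} (hz : Circ z) (v : V) : K.bd z v = 0 :=
  hz.1.elim fun _ h => h.2 v

end Pool.Agent.Work.MP_3035da_co.K
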