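import Pool.Agent.Work.MP_3035da_co.K.Link
import Pool.Agent.Work.MP_3035da_co.K.UniqRel
import Pool.Agent.Work.MP_3035da_co.K.Circuits

/-!
Module FACECIRC: in a 2-connected graph every nonzero face is a circuit.

Take an edge `e` with `f i e = 1` and, by `exists_circ`, a circuit `z'` of `G` with support inside that of
`f i` through `e`.  We show `z' = f i`.  Suppose not, put `z'' = f i + z'`, nonzero.  The supports of `z'`
and `z''` are disjoint with union the support of `f i`.  Write `z' = ∑ j ∈ R, f j` with `i ∉ R`
(`FaceSys.compl`), and let `Q` be the complement of `insert i R`; then `∑ j ∈ Q, f j = z''` (the total sum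
is `0`).  Claim: no edge `e'` lies in a face of `R` and a face of `Q`: the two faces through `e'` would be
one in `R` and one in `Q`, so `z' e' = 1 = z'' e'`.  Claim: for every vertex `w`, with
`A = {a : some face of R contains s(w,a)}`, every face has even sum over `A`: a face of `R`: its whole
boundary; a face of `Q`: no term; the face `i`: its edges at `w` in `A` are the edges of `z'` at `w`
(an edge of `f i` is in one other face, which is in `R` iff `z'` contains the edge), so the sum is
`bd z' w = 0`.  By `link`: at every vertex all edges are in a face of `R`, or none.  By connectivity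
(as in `UNIQREL`: `third`, `no_bridge`, walk induction) this is the same alternative at all vertices of
`U G`.  But an edge of `z'` is in a face of `R`, and an edge `e''` of `z''` is in `f i` and a face of `Q`,
so not in a face of `R`: contradiction.
-/

set_option autoImplicit false

namespace Pool.Agent.Work.MP_3035da_co.K

open Finset

theorem face_circ {V ι : Type} [Fintype V] [Fintype ι] {G : SimpleGraph V} {f : ι → Chain V}
    (hG : TwoConn G) (hf : FaceSys G f) {i : ι} (hi : f i ≠ 0) : Circ (f i) := by
  classical
  obtain ⟨e, he⟩ := Function.ne_iff.mp hi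
  obtain ⟨C, hC, hcirc, hsub, hCe⟩ := exists_circ (hf.mem i) he
  suffices h : C = f i by rw [← h]; exact hcirc
  by_contra hne
  obtain ⟨R, hiR, hR⟩ : ∃ R : Finset ι, i ∉ R ∧ C = ∑ j ∈ R, f j := by
    obtain ⟨R, hR⟩ := hf.span C hC
    by_cases h : i ∈ R
    · exact ⟨Rᶜ, by simpa using h, by rw [hf.compl R, hR]⟩
    · exact ⟨R, h, hR⟩
  -- an edge in a face of `R` and in another face outside `R`: value 1 of `C`, and the other is `i`
  have key : ∀ e' j k, j ∈ R → f j e' = 1 → k ∉ R → f k e' = 1 → C e' = 1 ∧ k = i := by
    intro e' j k hj hje hk hke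
    have h1 : C e' = 1 := by
      rcases zo (C e') with h0 | h1
      · exfalso
        rw [hR] at h0
        exact hk (link_full hf h0 hj hje hke)
      · exact h1
    refine ⟨h1, ?_⟩
    have hie : f i e' = 1 := (ne_zero_iff _).mp (hsub e' (by rw [h1]; decide))
    obtain ⟨k', _, _, hall⟩ := hf.pair hje
    have hk' := (hall k hke).resolve_left (fun h => hk (h ▸ hj))
    have hi' := (hall i hie).resolve_left (fun h => hiR (h ▸ hj))
    rw [hk', hi']
  have hA : ∀ w, (univ.filter (fun a => ∃ j ∈ R, f j s(w, a) = 1)) = ∅ ∨
      ∀ a, G.Adj w a → a ∈ univ.filter (fun a => ∃ j ∈ R, f j s(w, a) = 1) := by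
    intro w
    apply link hG hf w
    · intro a ha
      obtain ⟨j, _, hj⟩ := (mem_filter.mp ha).2
      have := hf.edge (i := j) (e := s(w, a)) (by rw [hj]; decide)
      exact this
    · intro l
      by_cases hl : l ∈ R
      · have : ∑ a ∈ univ.filter (fun a => ∃ j ∈ R, f j s(w, a) = 1), f l s(w, a) =
            bd (f l) w := by
          unfold bd
          apply sum_subset (subset_univ _)
          intro a _ ha
          rcases zo (f l s(w, a)) with h | h
          · exact h
          · exact absurd (mem_filter.mpr ⟨mem_univ _, l, hl, h⟩) ha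
        rw [this]
        exact (hf.mem l).2 w
      · by_cases hli : l = i
        · have : ∑ a ∈ univ.filter (fun a => ∃ j ∈ R, f j s(w, a) = 1), f l s(w, a) =
              bd C w := by
            unfold bd
            rw [← sum_subset (subset_univ (univ.filter (fun a => ∃ j ∈ R, f j s(w, a) = 1)))
              (f := fun a => C s(w, a))]
            · apply sum_congr rfl
              intro a ha
              obtain ⟨j, hj, hje⟩ := (mem_filter.mp ha).2
              rcases zo (f l s(w, a)) with h | h
              · rcases zo (C s(w, a)) with h' | h'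
                · rw [h, h']
                · exfalso
                  apply hsub s(w, a) (by rw [h']; decide)
                  rw [← hli, h]
              · rw [h, (key _ j l hj hje hl h).1]
            · intro a _ ha
              rcases zo (C s(w, a)) with h' | h'
              · exact h'
              · exfalso
                have h2 := h'
                rw [hR] at h2
                obtain ⟨j, _, hj, hje, _⟩ := link_half hf h2
                exact ha (mem_filter.mpr ⟨mem_univ _, j, hj, hje⟩)
          rw [this]
          exact hC.2 w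
        · apply sum_eq_zero
          intro a ha
          obtain ⟨j, hj, hje⟩ := (mem_filter.mp ha).2
          rcases zo (f l s(w, a)) with h | h
          · exact h
          · exact absurd (key _ j l hj hje hl h).2 hli
  -- the property passes along edges
  have hstep : ∀ v v', G.Adj v v' →
      (∀ a, G.Adj v a → a ∈ univ.filter (fun a => ∃ j ∈ R, f j s(v, a) = 1)) →
      (∀ a, G.Adj v' a → a ∈ univ.filter (fun a => ∃ j ∈ R, f j s(v', a) = 1)) := by
    intro v v' hvv' h
    obtain ⟨j, hj, hje⟩ := (mem_filter.mp (h v' hvv')).2
    rcases hA v' with h0 | h0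
    · exfalso
      have : v ∈ univ.filter (fun a => ∃ j ∈ R, f j s(v', a) = 1) :=
        mem_filter.mpr ⟨mem_univ _, j, hj, by rw [Sym2.eq_swap]; exact hje⟩
      rw [h0] at this
      exact absurd this (notMem_empty _)
    · exact h0
  have hwalk : ∀ v v', G.Reachable v v' →
      (∀ a, G.Adj v a → a ∈ univ.filter (fun a => ∃ j ∈ R, f j s(v, a) = 1)) →
      (∀ a, G.Adj v' a → a ∈ univ.filter (fun a => ∃ j ∈ R, f j s(v', a) = 1)) := by
    rintro v v' ⟨p⟩
    induction p with
    | nil => exact fun h => h
    | cons hadj _ ih => exact fun h => ih (hstep _ _ hadj h)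
  -- an edge of `C`
  obtain ⟨w, c, hwc⟩ : ∃ w c, e = s(w, c) := by
    induction e with
    | _ a b => exact ⟨a, b, rfl⟩
  have hC1 : (∑ j ∈ R, f j) s(w, c) = 1 := by
    rw [← hR, ← hwc]; exact (ne_zero_iff _).mp hCe
  obtain ⟨j, _, hj, hje, _⟩ := link_half hf hC1
  have hwG : G.Adj w c := hf.edge (i := j) (e := s(w, c)) (by rw [hje]; decide)
  have hgood : ∀ a, G.Adj w a → a ∈ univ.filter (fun a => ∃ j ∈ R, f j s(w, a) = 1) := by
    rcases hA w with h0 | h0
    · exfalso
      have : c ∈ univ.filter (fun a => ∃ j ∈ R, f j s(w, a) = 1) :=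
        mem_filter.mpr ⟨mem_univ _, j, hj, hje⟩
      rw [h0] at this
      exact absurd this (notMem_empty _)
    · exact h0
  -- an edge of `f i` outside `C`
  obtain ⟨e', he'⟩ := Function.ne_iff.mp hne
  have hfi : f i e' = 1 ∧ C e' = 0 := by
    rcases zo (C e') with h0 | h0
    · rcases zo (f i e') with h1 | h1
      · exact absurd (h0.trans h1.symm) he'
      · exact ⟨h1, h0⟩
    · have := (ne_zero_iff _).mp (hsub e' (by rw [h0]; decide))
      exact absurd (h0.trans this.symm) he'
  obtain ⟨w', c', hwc'⟩ : ∃ w c, e' = s(w, c) := by
    clear hfi he'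
    induction e' with
    | _ a b => exact ⟨a, b, rfl⟩
  rw [hwc'] at hfi
  have hwG' : G.Adj w' c' := hf.edge (i := i) (e := s(w', c')) (by rw [hfi.1]; decide)
  have hreach : G.Reachable w w' := by
    by_cases hww : w = w'
    · rw [hww]
    · obtain ⟨d, hd, hdw, hdw'⟩ := third hf hi w w'
      exact (hG d w w' ⟨c, hwG⟩ ⟨c', hwG'⟩ hdw.symm hdw'.symm).mono (link_av_le G {d})
  obtain ⟨j', hj', hje'⟩ := (mem_filter.mp (hwalk w w' hreach hgood c' hwG')).2
  have := (key _ j' i hj' hje' hiR hfi.1).1
  rw [hfi.2] at this
  exact absurd this (by decide)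

end Pool.Agent.Work.MP_3035da_co.K
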