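import Pool.Agent.Work.MP_3035da_co.K.Circuits

/-!
Module SEQCIRC: a closed sequence of distinct vertices is a circuit.

Put `z = sing s(p k, p 0) + ∑ i ∈ range k, sing s(p i, p (i+1))`.  The `k + 1` pairs are different
(injectivity, `2 ≤ k`), so `z e ≠ 0` iff `e` is one of them.  The boundary telescopes: `bd_sing`.
For `Circ z`: let `z'` be in some `cyc G'` with support inside that of `z`.  Every vertex `p i` lies on
exactly two edges of `z` (`s(p (i-1), p i)` and `s(p i, p (i+1))`, indices cyclic), so `bd z' (p i) = 0`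
says that `z'` has the same value on both.  So `z'` has the same value on all `k + 1` edges (induction
on `i`), hence `z' = 0` or `z' = z`.
-/

set_option autoImplicit false

namespace Pool.Agent.Work.MP_3035da_co.K

open Finset

theorem seq_circ {V : Type} [Fintype V] (H : SimpleGraph V) (k : ℕ) (hk : 2 ≤ k) (p : ℕ → V)
    (hinj : ∀ i j, i ≤ k → j ≤ k → p i = p j → i = j) (hadj : ∀ i < k, H.Adj (p i) (p (i + 1)))
    (hlast : H.Adj (p k) (p 0)) :
    ∃ z ∈ cyc H, Circ z ∧ ∀ e, z e ≠ 0 ↔ (e = s(p k, p 0) ∨ ∃ i < k, e = s(p i, p (i + 1))) := by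
  classical
  set P : Fin (k + 1) → V := fun i => p i with hP
  have hPinj : Function.Injective P := fun i j h =>
    Fin.ext (hinj i j (Nat.le_of_lt_succ i.2) (Nat.le_of_lt_succ j.2) h)
  have hPlast : P (Fin.last k + 1) = p 0 := by
    simp only [hP, Fin.val_add_one, if_true]
  have hPlt : ∀ i : Fin (k + 1), (i : ℕ) < k → P (i + 1) = p (i + 1) := by
    intro i hi
    have h1 : i ≠ Fin.last k := by
      rintro rfl
      simp at hi
    simp only [hP, Fin.val_add_one, if_neg h1]
  have hcase : ∀ i : Fin (k + 1), i = Fin.last k ∨ (i : ℕ) < k := by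
    intro i
    rcases Nat.lt_or_ge (i : ℕ) k with h | h
    · exact Or.inr h
    · left
      apply Fin.ext
      rw [Fin.val_last]
      exact le_antisymm (Nat.le_of_lt_succ i.2) h
  have hadj' : ∀ i : Fin (k + 1), H.Adj (P i) (P (i + 1)) := by
    intro i
    rcases hcase i with h | h
    · rw [h, hPlast]
      exact hlast
    · rw [hPlt i h]
      exact hadj i h
  set E : Fin (k + 1) → Sym2 V := fun i => s(P i, P (i + 1)) with hE
  have h11 : (1 : Fin (k + 1)) + 1 ≠ 0 := by
    obtain ⟨m, rfl⟩ : ∃ m, k = m + 2 := ⟨k - 2, by omega⟩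
    intro h
    have h1 := congrArg Fin.val h
    rw [Fin.val_add, Fin.val_one, Fin.val_zero, Nat.mod_eq_of_lt (by omega)] at h1
    omega
  have h2 : ∀ i : Fin (k + 1), i + 1 + 1 ≠ i := by
    intro i h
    rw [add_assoc] at h
    exact h11 (add_eq_left.1 h)
  have hEinj : Function.Injective E := by
    intro i j h
    rcases Sym2.eq_iff.1 h with ⟨h1, _⟩ | ⟨h1, h1'⟩
    · exact hPinj h1
    · exfalso
      have h3 := hPinj h1
      have h4 := hPinj h1'
      rw [h3] at h4
      exact h2 j h4
  set z : Chain V := ∑ i, sing (E i) with hz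
  have hz1 : ∀ i, z (E i) = 1 := by
    intro i
    rw [hz, Finset.sum_apply, Finset.sum_eq_single i]
    · exact sing_self _
    · intro j _ hj
      exact sing_ne fun h => hj (hEinj h).symm
    · intro h
      exact absurd (mem_univ i) h
  have hz0 : ∀ e, (∀ i, e ≠ E i) → z e = 0 := by
    intro e he
    rw [hz, Finset.sum_apply]
    exact sum_eq_zero fun i _ => sing_ne (he i)
  have hziff : ∀ e, z e ≠ 0 ↔ ∃ i, e = E i := by
    intro e
    constructor
    · intro h
      by_contra h'
      push Not at h'
      exact h (hz0 e h')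
    · rintro ⟨i, rfl⟩
      rw [hz1]
      decide
  have hbd : ∀ v, bd z v = 0 := by
    intro v
    rw [hz, bd_sum]
    have h3 : ∀ i ∈ (univ : Finset (Fin (k + 1))), bd (sing (E i)) v =
        (if v = P i then 1 else 0) + (if v = P (i + 1) then 1 else 0) :=
      fun i _ => bd_sing (hadj' i).ne v
    rw [sum_congr rfl h3, sum_add_distrib]
    have h4 : ∑ i : Fin (k + 1), (if v = P (i + 1) then (1 : ZMod 2) else 0) =
        ∑ i : Fin (k + 1), (if v = P i then (1 : ZMod 2) else 0) :=
      Equiv.sum_comp (Equiv.addRight (1 : Fin (k + 1))) (fun i => if v = P i then (1 : ZMod 2) else 0)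
    rw [h4]
    exact CharTwo.add_self_eq_zero _
  have hmem : z ∈ cyc H := by
    refine ⟨fun e he => ?_, hbd⟩
    obtain ⟨i, rfl⟩ := (hziff e).1 he
    exact hadj' i
  refine ⟨z, hmem, ⟨⟨H, hmem⟩, ?_, ?_⟩, ?_⟩
  · intro h
    have h3 := hz1 0
    rw [h, Pi.zero_apply] at h3
    exact zero_ne_one h3
  · intro G' z' hz' hsub
    have hstep : ∀ i : Fin (k + 1), z' (E (i + 1)) = z' (E i) := by
      intro i
      have h3 : bd z' (P (i + 1)) = 0 := hz'.2 _
      have h4 : bd z' (P (i + 1)) = z' s(P (i + 1), P (i + 1 + 1)) + z' s(P (i + 1), P i) := by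
        unfold bd
        rw [← Finset.sum_pair (f := fun w => z' s(P (i + 1), w)) (fun h => h2 i (hPinj h))]
        symm
        apply sum_subset (subset_univ _)
        intro w _ hw
        by_contra h5
        obtain ⟨j, hj⟩ := (hziff _).1 (hsub _ h5)
        rw [mem_insert, mem_singleton, not_or] at hw
        rcases Sym2.eq_iff.1 hj with ⟨h6, h7⟩ | ⟨h6, h7⟩
        · have h8 := hPinj h6
          rw [← h8] at h7
          exact hw.1 h7
        · have h8 := hPinj h6
          rw [← add_right_cancel h8] at h7
          exact hw.2 h7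
      rw [h3] at h4
      have h5 : z' (E (i + 1)) = z' s(P (i + 1), P (i + 1 + 1)) := rfl
      have h6 : z' (E i) = z' s(P (i + 1), P i) := by
        rw [Sym2.eq_swap]
      rw [h5, h6]
      exact CharTwo.add_eq_zero.1 h4.symm
    have hall : ∀ i : Fin (k + 1), z' (E i) = z' (E 0) := by
      intro i
      induction i using Fin.induction with
      | zero => rfl
      | succ i ih =>
        have h3 : i.succ = i.castSucc + 1 := Fin.coeSucc_eq_succ.symm
        rw [h3, hstep, ih]
    rcases zo (z' (E 0)) with h0 | h1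
    · left
      funext e
      by_contra h3
      obtain ⟨i, rfl⟩ := (hziff e).1 (hsub e h3)
      rw [hall i, h0] at h3
      exact h3 rfl
    · right
      funext e
      by_cases h3 : ∃ i, e = E i
      · obtain ⟨i, rfl⟩ := h3
        rw [hall i, h1, hz1]
      · push Not at h3
        rw [hz0 e h3]
        by_contra h4
        obtain ⟨i, hi⟩ := (hziff e).1 (hsub e h4)
        exact h3 i hi
  · intro e
    rw [hziff]
    constructor
    · rintro ⟨i, rfl⟩
      rcases hcase i with h | h
      · left
        simp only [hE]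
        rw [h, hPlast]
        simp only [hP, Fin.val_last]
      · right
        refine ⟨i, h, ?_⟩
        simp only [hE]
        rw [hPlt i h]
    · rintro (rfl | ⟨i, hi, rfl⟩)
      · refine ⟨Fin.last k, ?_⟩
        simp only [hE]
        rw [hPlast]
        simp only [hP, Fin.val_last]
      · refine ⟨⟨i, by omega⟩, ?_⟩
        simp only [hE]
        rw [hPlt ⟨i, by omega⟩ hi]

end Pool.Agent.Work.MP_3035da_co.K
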