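import Pool.Agent.Work.MP_3035da_co.K.Defs

set_option autoImplicit false

namespace Pool.Agent.Work.MP_3035da_co.K

open Finset

theorem zo (a : ZMod 2) : a = 0 ∨ a = 1 := by
  revert a; decide

theorem ne_zero_iff (a : ZMod 2) : a ≠ 0 ↔ a = 1 := by
  revert a; decide

theorem chain_add_self {V : Type} (z : Chain V) : z + z = 0 := by
  funext e; exact CharTwo.add_self_eq_zero (z e)

section
variable {V : Type} [Fintype V]

theorem mem_cyc {G : SimpleGraph V} {z : Chain V} :
    z ∈ cyc G ↔ (∀ e, z e ≠ 0 → e ∈ G.edgeSet) ∧ ∀ v, bd z v = 0 := Iff.rfl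

theorem bd_add (a b : Chain V) (v : V) : bd (a + b) v = bd a v + bd b v := by
  simp [bd, sum_add_distrib]

theorem bd_zero (v : V) : bd (0 : Chain V) v = 0 := by simp [bd]

theorem bd_sum {ι : Type} (S : Finset ι) (f : ι → Chain V) (v : V) :
    bd (∑ i ∈ S, f i) v = ∑ i ∈ S, bd (f i) v := by
  unfold bd
  rw [sum_comm]
  exact sum_congr rfl fun w _ => by rw [Finset.sum_apply]

theorem cyc_mono {G G' : SimpleGraph V} (h : G' ≤ G) : cyc G' ≤ cyc G := by
  rintro z ⟨h1, h2⟩
  exact ⟨fun e he => SimpleGraph.edgeSet_mono h (h1 e he), h2⟩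

theorem cyc_of_supp {G G' : SimpleGraph V} {z : Chain V} (hz : z ∈ cyc G)
    (h : ∀ e, z e ≠ 0 → e ∈ G'.edgeSet) : z ∈ cyc G' := ⟨h, hz.2⟩

variable {ι : Type} [Fintype ι] {G : SimpleGraph V} {f : ι → Chain V}

/-- the value of a sum of faces is the parity of the number of faces through the edge -/
theorem sum_apply_card (f : ι → Chain V) (S : Finset ι) (e : Sym2 V) :
    (∑ i ∈ S, f i) e = ((S.filter (fun i => f i e = 1)).card : ZMod 2) := by
  rw [Finset.sum_apply, card_eq_sum_ones, Nat.cast_sum, sum_filter]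
  refine sum_congr rfl fun i _ => ?_
  rcases zo (f i e) with h | h <;> simp [h]

theorem FaceSys.tot (hf : FaceSys G f) : ∑ i, f i = 0 := by
  funext e
  rw [sum_apply_card]
  rcases hf.two e with h | h
  · simp [h]
  · rw [h]; rfl

theorem FaceSys.compl (hf : FaceSys G f) [DecidableEq ι] (S : Finset ι) :
    ∑ i ∈ Sᶜ, f i = ∑ i ∈ S, f i := by
  have h := hf.tot
  rw [← sum_add_sum_compl S f] at h
  funext e
  have h' := congrFun h e
  simp only [Pi.add_apply, Pi.zero_apply] at h'
  exact (CharTwo.add_eq_zero.mp h').symm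

theorem FaceSys.edge (hf : FaceSys G f) {i : ι} {e : Sym2 V} (h : f i e ≠ 0) : e ∈ G.edgeSet :=
  (hf.mem i).1 e h

/-- the second face through an edge -/
theorem FaceSys.pair (hf : FaceSys G f) {i : ι} {e : Sym2 V} (h : f i e = 1) :
    ∃ j, j ≠ i ∧ f j e = 1 ∧ ∀ k, f k e = 1 → k = i ∨ k = j := by
  classical
  rcases hf.two e with h0 | h2
  · rw [h0 i] at h; exact absurd h (by decide)
  · obtain ⟨a, b, hab, hs⟩ := card_eq_two.mp h2
    have hm : ∀ k, f k e = 1 ↔ k = a ∨ k = b := by
      intro k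
      have := congrArg (fun s => k ∈ s) hs
      simpa using this
    rcases (hm i).mp h with rfl | rfl
    · exact ⟨b, hab.symm, (hm b).mpr (Or.inr rfl), fun k hk => (hm k).mp hk⟩
    · exact ⟨a, hab, (hm a).mpr (Or.inl rfl), fun k hk => ((hm k).mp hk).symm⟩

/-- the index type may be any finite type -/
theorem FaceSys.plane (hf : FaceSys G f) : Plane G := by
  classical
  obtain ⟨e⟩ : Nonempty (ι ≃ Fin (Fintype.card ι)) := ⟨Fintype.equivFin ι⟩
  refine ⟨Fintype.card ι, fun k => f (e.symm k), fun k => hf.mem _, fun s => ?_, fun z hz => ?_⟩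
  · rcases hf.two s with h | h
    · exact Or.inl fun k => h _
    · refine Or.inr (Eq.trans ?_ h)
      refine card_bij' (fun k _ => e.symm k) (fun i _ => e i) ?_ ?_ ?_ ?_ <;> simp
  · obtain ⟨S, hS⟩ := hf.span z hz
    refine ⟨S.map e.toEmbedding, ?_⟩
    rw [hS, sum_map]
    simp

/-- a zero face may be added -/
theorem FaceSys.addZero (hf : FaceSys G f) :
    FaceSys G (fun o : Option ι => o.elim (0 : Chain V) f) := by
  classical
  refine ⟨?_, ?_, ?_⟩
  · rintro (_ | i)
    · exact (cyc G).zero_mem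
    · exact hf.mem i
  · intro s
    rcases hf.two s with h | h
    · left
      rintro (_ | i)
      · rfl
      · exact h i
    · refine Or.inr (Eq.trans (Eq.symm ?_) h)
      refine card_bij (fun i _ => some i) ?_ ?_ ?_
      · intro i hi; simpa using hi
      · intro a _ b _ hab; simpa using hab
      · rintro (_ | i) hi
        · simp at hi
        · exact ⟨i, by simpa using hi, rfl⟩
  · intro z hz
    obtain ⟨S, hS⟩ := hf.span z hz
    refine ⟨S.map Function.Embedding.some, ?_⟩
    rw [hS, sum_map]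
    rfl

end

end Pool.Agent.Work.MP_3035da_co.K
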