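import Pool.Agent.Work.MP_3035da_co.K.Basic

/-!
Module GLUE.

Two face systems `f₁` of `G₁` and `f₂` of `G₂` are merged at the faces `i₁`, `i₂`: index type
`ι₁ ⊕ ι₂`, `g (inl i) = f₁ i` for `i ≠ i₁`, `g (inl i₁) = f₁ i₁ + f₂ i₂`, `g (inr j) = f₂ j` for
`j ≠ i₂`, `g (inr i₂) = 0`.

mem: `cyc_mono` and closure under addition.

two: let `e` be a pair.  Case all `f₁ i e = 0`: the members through `e` correspond to those of `f₂`
(with `inl i₁` in the place of `i₂`).  Case all `f₂ j e = 0`: the members through `e` are those of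
`f₁`.  Case `f₁ i₁ e = 1 = f₂ i₂ e`: `g (inl i₁) e = 0`, and exactly one `i ≠ i₁` and exactly one
`j ≠ i₂` contain `e` (`FaceSys.pair`), so the count is 2.

span: `z = z₁ + z₂`; `z₁ = ∑ i ∈ S₁, f₁ i` where we may take `i₁ ∉ S₁` (otherwise replace `S₁` by its
complement, `FaceSys.compl`), the same for `z₂`; then `z` is the sum of `g` over
`S₁.map inl ∪ S₂.map inr` (`Finset.disjSum`).

Finish with `FaceSys.plane`.
-/

set_option autoImplicit false

namespace Pool.Agent.Work.MP_3035da_co.K

open Finset

theorem glue {V ι₁ ι₂ : Type} [Fintype V] [Fintype ι₁] [Fintype ι₂] {G G₁ G₂ : SimpleGraph V}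
    {f₁ : ι₁ → Chain V} {f₂ : ι₂ → Chain V} (h₁ : FaceSys G₁ f₁) (h₂ : FaceSys G₂ f₂)
    (i₁ : ι₁) (i₂ : ι₂) (hG₁ : G₁ ≤ G) (hG₂ : G₂ ≤ G)
    (hspan : ∀ z ∈ cyc G, ∃ z₁ ∈ cyc G₁, ∃ z₂ ∈ cyc G₂, z = z₁ + z₂)
    (hsh : ∀ e, (∀ i, f₁ i e = 0) ∨ (∀ i, f₂ i e = 0) ∨ (f₁ i₁ e = 1 ∧ f₂ i₂ e = 1)) :
    Plane G := by
  classical
  set g : ι₁ ⊕ ι₂ → Chain V := fun o => Sum.elim
    (fun i => if i = i₁ then f₁ i₁ + f₂ i₂ else f₁ i) (fun j => if j = i₂ then 0 else f₂ j) o
    with hg
  have gl : ∀ i, g (Sum.inl i) = if i = i₁ then f₁ i₁ + f₂ i₂ else f₁ i := fun i => rfl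
  have gr : ∀ j, g (Sum.inr j) = if j = i₂ then 0 else f₂ j := fun j => rfl
  have key : FaceSys G g := by
    refine ⟨?_, ?_, ?_⟩
    · rintro (i | j)
      · rw [gl]
        split_ifs
        · exact (cyc G).add_mem (cyc_mono hG₁ (h₁.mem _)) (cyc_mono hG₂ (h₂.mem _))
        · exact cyc_mono hG₁ (h₁.mem _)
      · rw [gr]
        split_ifs
        · exact (cyc G).zero_mem
        · exact cyc_mono hG₂ (h₂.mem _)
    · intro e
      rcases hsh e with hA | hB | ⟨hC1, hC2⟩
      · have e1 : ∀ i, g (Sum.inl i) e = if i = i₁ then f₂ i₂ e else 0 := by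
          intro i
          rw [gl]
          split_ifs
          · simp [hA]
          · exact hA i
        have e2 : ∀ j, g (Sum.inr j) e = if j = i₂ then 0 else f₂ j e := by
          intro j
          rw [gr]
          split_ifs <;> rfl
        rcases h₂.two e with h0 | h2
        · left
          rintro (i | j)
          · rw [e1]; split_ifs
            · exact h0 _
            · rfl
          · rw [e2]; split_ifs
            · rfl
            · exact h0 _
        · right
          refine Eq.trans (Eq.symm ?_) h2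
          refine card_bij (fun j _ => if j = i₂ then Sum.inl i₁ else Sum.inr j) ?_ ?_ ?_
          · intro j hj
            simp only [mem_filter, mem_univ, true_and] at hj ⊢
            split_ifs with h
            · rw [e1, if_pos rfl, ← h]; exact hj
            · rw [e2, if_neg h]; exact hj
          · intro a _ b _ hab
            by_cases ha : a = i₂ <;> by_cases hb : b = i₂ <;> simp [ha, hb] at hab ⊢
            exact hab
          · rintro (i | j) hi
            · simp only [mem_filter, mem_univ, true_and] at hi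
              rw [e1] at hi
              split_ifs at hi with h
              · exact ⟨i₂, by simpa using hi, by simp [h]⟩
              · exact absurd hi (by decide)
            · simp only [mem_filter, mem_univ, true_and] at hi
              rw [e2] at hi
              split_ifs at hi with h
              · exact absurd hi (by decide)
              · exact ⟨j, by simpa using hi, by simp [h]⟩
      · have e1 : ∀ i, g (Sum.inl i) e = f₁ i e := by
          intro i
          rw [gl]
          split_ifs with h
          · simp [hB, h]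
          · rfl
        have e2 : ∀ j, g (Sum.inr j) e = 0 := by
          intro j
          rw [gr]
          split_ifs
          · rfl
          · exact hB j
        rcases h₁.two e with h0 | h2
        · left
          rintro (i | j)
          · rw [e1]; exact h0 i
          · exact e2 j
        · right
          refine Eq.trans (Eq.symm ?_) h2
          refine card_bij (fun i _ => Sum.inl i) ?_ ?_ ?_
          · intro i hi
            simp only [mem_filter, mem_univ, true_and] at hi ⊢
            rw [e1]; exact hi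
          · intro a _ b _ hab
            exact Sum.inl_injective hab
          · rintro (i | j) hi
            · simp only [mem_filter, mem_univ, true_and] at hi
              rw [e1] at hi
              exact ⟨i, by simpa using hi, rfl⟩
            · simp only [mem_filter, mem_univ, true_and] at hi
              rw [e2] at hi
              exact absurd hi (by decide)
      · right
        obtain ⟨i, hi, hie, hiu⟩ := h₁.pair hC1
        obtain ⟨j, hj, hje, hju⟩ := h₂.pair hC2
        have : univ.filter (fun o => g o e = 1) = {Sum.inl i, Sum.inr j} := by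
          ext o
          simp only [mem_filter, mem_univ, true_and, mem_insert, mem_singleton]
          constructor
          · rcases o with k | k
            · rw [gl]
              split_ifs with h
              · rw [Pi.add_apply, hC1, hC2]; intro h'; exact absurd h' (by decide)
              · intro h'
                rcases hiu k h' with h'' | h''
                · exact absurd h'' h
                · exact Or.inl (by rw [h''])
            · rw [gr]
              split_ifs with h
              · intro h'; exact absurd h' (by simp)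
              · intro h'
                rcases hju k h' with h'' | h''
                · exact absurd h'' h
                · exact Or.inr (by rw [h''])
          · rintro (rfl | rfl)
            · rw [gl, if_neg hi]; exact hie
            · rw [gr, if_neg hj]; exact hje
        rw [this]
        exact card_pair (by simp)
    · intro z hz
      obtain ⟨z₁, hz₁, z₂, hz₂, rfl⟩ := hspan z hz
      have aux : ∀ {ι : Type} [Fintype ι] {H : SimpleGraph V} {f : ι → Chain V}
          (_ : FaceSys H f) (i₀ : ι) (w : Chain V) (_ : w ∈ cyc H),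
          ∃ S : Finset ι, i₀ ∉ S ∧ w = ∑ i ∈ S, f i := by
        intro ι _ H f hf i₀ w hw
        obtain ⟨S, hS⟩ := hf.span w hw
        by_cases h : i₀ ∈ S
        · exact ⟨Sᶜ, by simpa using h, by rw [hf.compl S]; exact hS⟩
        · exact ⟨S, h, hS⟩
      obtain ⟨S₁, hn₁, e₁⟩ := aux h₁ i₁ z₁ hz₁
      obtain ⟨S₂, hn₂, e₂⟩ := aux h₂ i₂ z₂ hz₂
      refine ⟨S₁.disjSum S₂, ?_⟩
      rw [sum_disjSum, e₁, e₂]
      congr 1
      · refine sum_congr rfl fun i hi => ?_
        rw [gl, if_neg (fun h : i = i₁ => hn₁ (h ▸ hi))]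
      · refine sum_congr rfl fun j hj => ?_
        rw [gr, if_neg (fun h : j = i₂ => hn₂ (h ▸ hj))]
  exact key.plane

/-- version for graphs that share no edge -/
theorem glue_disj {V : Type} [Fintype V] {G G₁ G₂ : SimpleGraph V} (h₁ : Plane G₁) (h₂ : Plane G₂)
    (hG₁ : G₁ ≤ G) (hG₂ : G₂ ≤ G)
    (hspan : ∀ z ∈ cyc G, ∃ z₁ ∈ cyc G₁, ∃ z₂ ∈ cyc G₂, z = z₁ + z₂)
    (hsh : ∀ e, e ∈ G₁.edgeSet → e ∉ G₂.edgeSet) : Plane G := by
  obtain ⟨n₁, f₁, hf₁⟩ := h₁
  obtain ⟨n₂, f₂, hf₂⟩ := h₂
  refine glue hf₁.addZero hf₂.addZero none none hG₁ hG₂ hspan fun e => ?_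
  by_cases h : e ∈ G₁.edgeSet
  · refine Or.inr (Or.inl ?_)
    rintro (_ | i)
    · rfl
    · by_contra h0
      exact hsh e h ((hf₂.mem i).1 e h0)
  · refine Or.inl ?_
    rintro (_ | i)
    · rfl
    · by_contra h0
      exact h ((hf₁.mem i).1 e h0)

/-- version for graphs that share at most the edge `e₀` -/
theorem glue_edge {V : Type} [Fintype V] {G G₁ G₂ : SimpleGraph V} (h₁ : Plane G₁) (h₂ : Plane G₂)
    (hG₁ : G₁ ≤ G) (hG₂ : G₂ ≤ G)
    (hspan : ∀ z ∈ cyc G, ∃ z₁ ∈ cyc G₁, ∃ z₂ ∈ cyc G₂, z = z₁ + z₂) (e₀ : Sym2 V)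
    (hsh : ∀ e, e ∈ G₁.edgeSet → e ∈ G₂.edgeSet → e = e₀) : Plane G := by
  obtain ⟨n₁, f₁, hf₁⟩ := h₁
  obtain ⟨n₂, f₂, hf₂⟩ := h₂
  have key : ∀ {n : ℕ} {f : Fin n → Chain V},
      (∀ o : Option (Fin n), (o.elim (0 : Chain V) f) e₀ = 0) ∨
      ∃ o : Option (Fin n), (o.elim (0 : Chain V) f) e₀ = 1 := by
    intro n f
    by_cases h : ∃ o : Option (Fin n), (o.elim (0 : Chain V) f) e₀ = 1
    · exact Or.inr h
    · refine Or.inl fun o => ?_
      rcases zo ((o.elim (0 : Chain V) f) e₀) with h' | h'
      · exact h'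
      · exact absurd ⟨o, h'⟩ h
  have aux : ∀ (o₁ : Option (Fin n₁)) (o₂ : Option (Fin n₂)),
      ((∀ i : Option (Fin n₁), (i.elim (0 : Chain V) f₁) e₀ = 0) ∨
        (∀ i : Option (Fin n₂), (i.elim (0 : Chain V) f₂) e₀ = 0) ∨
        ((o₁.elim (0 : Chain V) f₁) e₀ = 1 ∧ (o₂.elim (0 : Chain V) f₂) e₀ = 1)) → Plane G := by
    intro o₁ o₂ h
    refine glue hf₁.addZero hf₂.addZero o₁ o₂ hG₁ hG₂ hspan fun e => ?_
    by_cases he : e = e₀
    · rw [he]; exact h
    · by_cases h1 : e ∈ G₁.edgeSet
      · have h2 : e ∉ G₂.edgeSet := fun h2 => he (hsh e h1 h2)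
        refine Or.inr (Or.inl fun i => ?_)
        by_contra h0
        exact h2 ((hf₂.addZero.mem i).1 e h0)
      · refine Or.inl fun i => ?_
        by_contra h0
        exact h1 ((hf₁.addZero.mem i).1 e h0)
  rcases key (f := f₁) with h | ⟨o₁, ho₁⟩
  · exact aux none none (Or.inl h)
  · rcases key (f := f₂) with h | ⟨o₂, ho₂⟩
    · exact aux none none (Or.inr (Or.inl h))
    · exact aux o₁ o₂ (Or.inr (Or.inr ⟨ho₁, ho₂⟩))

end Pool.Agent.Work.MP_3035da_co.K
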