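import Pool.Agent.Work.MP_3035da_co.K.Basic

/-!
Module KMONO (minors).

mono: the same branch sets (`SimpleGraph.Connected.mono`, `G'.induce B ≤ G.induce B`).

ctr: let `B` be a model of the pattern `R` in `ctr G x y`.  The vertex `y` is isolated in `ctr G x y`.
If `y ∈ B i` then, `(ctr G x y).induce (B i)` being connected, `B i = {y}`; but some `j` has `R i j` or
`R j i` (`hR`), which gives an edge of `ctr G x y` at a vertex of `B i`, so at `y`: impossible.  So
`y ∉ B i` for all `i`.  Put `B' i = B i` if `x ∉ B i`, `B' i = insert y (B i)` if `x ∈ B i`.  Disjoint: `x`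
lies in at most one `B i`.  Connected: if `x ∉ B i` all edges of `ctr G x y` inside `B i` are edges of
`G`.  If `x ∈ B i`: an edge of `ctr` inside `B i` is an edge of `G`, or it is `x b` with `G.Adj y b`, and
then `x` and `b` are joined through `y` in `B' i`; and `y` is joined to `x`.  Adjacency between `B' i` and
`B' j` for `R i j`: the edge `u w` of `ctr` is an edge of `G`, or `u = x` and `y w` is an edge of `G`
(`y ∈ B' i`), or `w = x` and `u y` is an edge of `G` (`y ∈ B' j`).

ctr_ncard: the map from the edges of `ctr G x y` to the edges of `G` that sends `s(a,b)` to itself if it is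
an edge of `G`, and to `s(y,b)` if `a = x` (to `s(y,a)` if `b = x`) otherwise, is injective and misses
`s(x,y)`.  (Alternatively: `(ctr G x y).edgeSet ⊆ (fun e => e.map (fun v => if v = y then x else v)) ''
(G.edgeSet \ {s(x,y)})`, and `Set.ncard_image_le`.)
-/

set_option autoImplicit false

namespace Pool.Agent.Work.MP_3035da_co.K

open Finset

theorem Mdl.mono {V ι : Type} {R : ι → ι → Prop} {G G' : SimpleGraph V} (h : G' ≤ G)
    (hM : Mdl R G') : Mdl R G := by
  obtain ⟨B, h1, h2, h3⟩ := hM
  refine ⟨B, fun i => (h1 i).mono (SimpleGraph.comap_monotone _ h), h2, fun i j hij => ?_⟩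
  obtain ⟨u, hu, w, hw, huw⟩ := h3 i j hij
  exact ⟨u, hu, w, hw, h huw⟩

private theorem reach_map {V W : Type} {H : SimpleGraph V} {G' : SimpleGraph W} (f : V → W)
    (h : ∀ a b, H.Adj a b → G'.Reachable (f a) (f b)) {a b : V} (hab : H.Reachable a b) :
    G'.Reachable (f a) (f b) := by
  obtain ⟨p⟩ := hab
  induction p with
  | nil => exact SimpleGraph.Reachable.refl _
  | cons h' p ih => exact (h _ _ h').trans ih

theorem KFree.mono {V : Type} {G G' : SimpleGraph V} (h : G' ≤ G) (hG : KFree G) : KFree G' :=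
  ⟨fun h' => hG.1 (h'.mono h), fun h' => hG.2 (h'.mono h)⟩

theorem Mdl.of_ctr {V ι : Type} {R : ι → ι → Prop} {G : SimpleGraph V} {x y : V}
    (hxy : G.Adj x y) (hR : ∀ i, ∃ j, R i j ∨ R j i) (hM : Mdl R (ctr G x y)) : Mdl R G := by
  classical
  obtain ⟨B, h1, h2, h3⟩ := hM
  -- `y` is in no branch set
  have hy : ∀ i, y ∉ B i := by
    intro i hyi
    have hall : ∀ b ∈ B i, b = y := by
      intro b hb
      by_contra hne
      have h4 := (h1 i).preconnected ⟨y, hyi⟩ ⟨b, hb⟩
      obtain ⟨p⟩ := h4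
      cases p with
      | nil => exact hne rfl
      | cons h' p => exact h'.2.1 rfl
    obtain ⟨j, hj | hj⟩ := hR i
    · obtain ⟨u, hu, w, hw, huw⟩ := h3 i j hj
      exact huw.2.1 (hall u hu)
    · obtain ⟨u, hu, w, hw, huw⟩ := h3 j i hj
      exact huw.2.2.1 (hall w hw)
  have hsub : ∀ i, B i ⊆ (if x ∈ B i then insert y (B i) else B i) := by
    intro i
    split_ifs
    · exact Set.subset_insert _ _
    · exact subset_rfl
  refine ⟨fun i => if x ∈ B i then insert y (B i) else B i, fun i => ?_, fun i j hij => ?_,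
    fun i j hij => ?_⟩
  · by_cases hx : x ∈ B i
    · have hm : ∀ v ∈ B i, v ∈ insert y (B i) := fun v hv => Set.mem_insert_of_mem _ hv
      have hyx : (G.induce (insert y (B i))).Adj ⟨x, hm x hx⟩ ⟨y, Set.mem_insert _ _⟩ := hxy
      have h4 : ∀ a b : B i, ((ctr G x y).induce (B i)).Adj a b →
          (G.induce (insert y (B i))).Reachable ⟨a.1, hm a.1 a.2⟩ ⟨b.1, hm b.1 b.2⟩ := by
        rintro ⟨a, ha⟩ ⟨b, hb⟩ hab
        obtain ⟨_, _, _, h5 | h5 | h5⟩ := hab
        · have h6 : (G.induce (insert y (B i))).Adj ⟨a, hm a ha⟩ ⟨b, hm b hb⟩ := h5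
          exact h6.reachable
        · obtain ⟨h5, h6⟩ := h5
          have h5' : a = x := h5
          subst h5'
          have h7 : (G.induce (insert y (B i))).Adj ⟨y, Set.mem_insert _ _⟩ ⟨b, hm b hb⟩ := h6
          exact hyx.reachable.trans h7.reachable
        · obtain ⟨h5, h6⟩ := h5
          have h5' : b = x := h5
          subst h5'
          have h7 : (G.induce (insert y (B i))).Adj ⟨a, hm a ha⟩ ⟨y, Set.mem_insert _ _⟩ := h6
          exact h7.reachable.trans hyx.symm.reachable
      have h5 : ∀ a : (insert y (B i) : Set V),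
          (G.induce (insert y (B i))).Reachable ⟨x, hm x hx⟩ a := by
        rintro ⟨a, ha⟩
        rcases Set.mem_insert_iff.1 ha with rfl | ha'
        · exact hyx.reachable
        · exact reach_map (fun v : B i => (⟨v.1, hm v.1 v.2⟩ : (insert y (B i) : Set V))) h4
            ((h1 i).preconnected ⟨x, hx⟩ ⟨a, ha'⟩)
      have h6 : (G.induce (insert y (B i))).Connected := by
        rw [SimpleGraph.connected_iff]
        exact ⟨fun a b => (h5 a).symm.trans (h5 b), ⟨⟨x, hm x hx⟩⟩⟩
      change (G.induce (if x ∈ B i then insert y (B i) else B i)).Connected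
      rw [if_pos hx]
      exact h6
    · have h4 : (G.induce (B i)).Connected := by
        refine (h1 i).mono ?_
        rintro ⟨a, ha⟩ ⟨b, hb⟩ hab
        obtain ⟨_, _, _, h5 | h5 | h5⟩ := hab
        · exact h5
        · exact absurd (show x ∈ B i from h5.1 ▸ ha) hx
        · exact absurd (show x ∈ B i from h5.1 ▸ hb) hx
      change (G.induce (if x ∈ B i then insert y (B i) else B i)).Connected
      rw [if_neg hx]
      exact h4
  · have h4 := h2 i j hij
    rw [Set.disjoint_left] at h4 ⊢
    intro v hvi hvj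
    simp only at hvi hvj
    by_cases hxi : x ∈ B i
    · have hxj : x ∉ B j := h4 hxi
      rw [if_pos hxi] at hvi
      rw [if_neg hxj] at hvj
      rcases Set.mem_insert_iff.1 hvi with rfl | h
      · exact hy j hvj
      · exact h4 h hvj
    · rw [if_neg hxi] at hvi
      by_cases hxj : x ∈ B j
      · rw [if_pos hxj] at hvj
        rcases Set.mem_insert_iff.1 hvj with rfl | h
        · exact hy i hvi
        · exact h4 hvi h
      · rw [if_neg hxj] at hvj
        exact h4 hvi hvj
  · obtain ⟨u, hu, w, hw, huw⟩ := h3 i j hij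
    obtain ⟨_, _, _, h5 | h5 | h5⟩ := huw
    · exact ⟨u, hsub i hu, w, hsub j hw, h5⟩
    · refine ⟨y, ?_, w, hsub j hw, h5.2⟩
      have hx : x ∈ B i := h5.1 ▸ hu
      simp only [if_pos hx]
      exact Set.mem_insert _ _
    · refine ⟨u, hsub i hu, y, ?_, h5.2⟩
      have hx : x ∈ B j := h5.1 ▸ hw
      simp only [if_pos hx]
      exact Set.mem_insert _ _

theorem KFree.ctr {V : Type} {G : SimpleGraph V} {x y : V} (hxy : G.Adj x y) (hG : KFree G) :
    KFree (ctr G x y) := by
  refine ⟨fun h => hG.1 (h.of_ctr hxy ?_), fun h => hG.2 (h.of_ctr hxy ?_)⟩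
  · intro i
    refine ⟨i + 1, Or.inl ?_⟩
    show i ≠ i + 1
    revert i; decide
  · rintro (i | i)
    · exact ⟨Sum.inr 0, Or.inl ⟨i, 0, rfl, rfl⟩⟩
    · exact ⟨Sum.inl 0, Or.inr ⟨0, i, rfl, rfl⟩⟩

theorem ctr_ncard {V : Type} [Fintype V] {G : SimpleGraph V} {x y : V} (hxy : G.Adj x y) :
    (K.ctr G x y).edgeSet.ncard < G.edgeSet.ncard := by
  classical
  have h1 : (K.ctr G x y).edgeSet ⊆
      (Sym2.map fun v => if v = y then x else v) '' (G.edgeSet \ {s(x, y)}) := by
    intro e
    induction e using Sym2.ind with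
    | _ a b =>
      intro hab
      obtain ⟨h2, h3, h4, h5 | h5 | h5⟩ := (show (K.ctr G x y).Adj a b from hab)
      · refine ⟨s(a, b), ⟨h5, ?_⟩, ?_⟩
        · intro h
          rcases Sym2.eq_iff.1 (Set.mem_singleton_iff.1 h) with h | h
          · exact h4 h.2
          · exact h3 h.1
        · simp [h3, h4]
      · obtain ⟨rfl, h6⟩ := h5
        refine ⟨s(y, b), ⟨h6, ?_⟩, ?_⟩
        · intro h
          rcases Sym2.eq_iff.1 (Set.mem_singleton_iff.1 h) with h | h
          · exact h4 h.2
          · exact h2 h.2.symm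
        · simp [h4]
      · obtain ⟨rfl, h6⟩ := h5
        refine ⟨s(a, y), ⟨h6, ?_⟩, ?_⟩
        · intro h
          rcases Sym2.eq_iff.1 (Set.mem_singleton_iff.1 h) with h | h
          · exact h2 h.1
          · exact h3 h.1
        · simp [h3]
  calc (K.ctr G x y).edgeSet.ncard
      ≤ ((Sym2.map fun v => if v = y then x else v) '' (G.edgeSet \ {s(x, y)})).ncard :=
        Set.ncard_le_ncard h1 (Set.toFinite _)
    _ ≤ (G.edgeSet \ {s(x, y)}).ncard := Set.ncard_image_le (Set.toFinite _)
    _ < G.edgeSet.ncard := Set.ncard_sdiff_singleton_lt_of_mem hxy (Set.toFinite _)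

theorem ncard_lt {V : Type} [Fintype V] {G G' : SimpleGraph V} (h : G' ≤ G) {e : Sym2 V}
    (he : e ∈ G.edgeSet) (he' : e ∉ G'.edgeSet) : G'.edgeSet.ncard < G.edgeSet.ncard :=
  Set.ncard_lt_ncard ⟨SimpleGraph.edgeSet_mono h, fun h' => he' (h' he)⟩ (Set.toFinite _)

/-- proper subgraphs of a minimal counterexample are plane -/
theorem MinCE.sub {V : Type} [Fintype V] {G G' : SimpleGraph V} (hG : MinCE G) (h : G' ≤ G)
    {e : Sym2 V} (he : e ∈ G.edgeSet) (he' : e ∉ G'.edgeSet) : Plane G' :=
  hG.min G' (ncard_lt h he he') (hG.free.mono h)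

theorem MinCE.ctr_plane {V : Type} [Fintype V] {G : SimpleGraph V} (hG : MinCE G) {x y : V}
    (hxy : G.Adj x y) : Plane (ctr G x y) :=
  hG.min _ (ctr_ncard hxy) (hG.free.ctr hxy)

end Pool.Agent.Work.MP_3035da_co.K
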