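import Pool.Agent.Work.MP_3035da_co.K.Chn
import Pool.Agent.Work.MP_3035da_co.K.Glue
import Pool.Agent.Work.MP_3035da_co.K.KMono

/-!
Module CUTPAIR: in a minimal counterexample two adjacent vertices do not separate.

Suppose `b` is not reachable from `a` in `av G {x, y}`; let `K` be the set of vertices reachable from `a`
there (`x, y ∉ K`, `b ∉ K`).  `G₁`: the edges of `G` with an end in `K`, and the edge `x y`.  `G₂`: the edges
of `G` with no end in `K` (this contains `x y`).  They share exactly `s(x,y)` and have union `G`.  At a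
vertex `v ≠ x, y` all edges of `G` are in `G₁` or all are in `G₂`.  Let `z ∈ cyc G`, `z₁` = `z` on the edges
with an end in `K`, `0` elsewhere.  `bd z₁ v = 0` for `v ≠ x, y`, and `bd z₁ x = bd z₁ y` by `bd_parity`.  If this
is `0` take `z₁`, otherwise replace `z₁` by `z₁ + sing s(x,y)` (`bd_sing`); so `z₁ ∈ cyc G₁` and
`z₂ = z + z₁ ∈ cyc G₂`.  `G₁` misses an edge at `b` that is not `x y` (an edge at `b` has other end not in
`K`: otherwise `b ∈ K`); `G₂` misses an edge at `a`.  Both are plane (`MinCE.sub`), and `glue_edge` with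
`e₀ = s(x,y)` gives `Plane G`; contradiction.
-/

set_option autoImplicit false

namespace Pool.Agent.Work.MP_3035da_co.K

open Finset

private theorem not_reach {V : Type} {H : SimpleGraph V} {a w : V} (haw : a ≠ w)
    (h : ∀ u, ¬ H.Adj w u) : ¬ H.Reachable a w := by
  intro h1
  obtain ⟨p⟩ := h1.symm
  cases p with
  | nil => exact haw rfl
  | cons h' p => exact h _ h'

theorem cut_pair {V : Type} [Fintype V] {G : SimpleGraph V} (hG : MinCE G) {x y : V}
    (hxy : G.Adj x y) {a b : V} (ha : a ∈ U G) (hb : b ∈ U G) (hax : a ≠ x) (hay : a ≠ y)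
    (hbx : b ≠ x) (hby : b ≠ y) : (av G {x, y}).Reachable a b := by
  classical
  by_contra hcon
  set K : Set V := {v | (av G {x, y}).Reachable a v} with hK
  have hxK : x ∉ K := not_reach hax fun u hu => hu.2.1 (by simp)
  have hyK : y ∉ K := not_reach hay fun u hu => hu.2.1 (by simp)
  have haK : a ∈ K := SimpleGraph.Reachable.refl a
  have hbK : b ∉ K := hcon
  have hprop : ∀ {u v : V}, u ∈ K → G.Adj u v → v ≠ x → v ≠ y → v ∈ K := by
    intro u v hu huv hv hv'
    have h1 : (av G {x, y}).Adj u v := by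
      refine ⟨huv, ?_, ?_⟩
      · rintro (h | h)
        · exact hxK (h ▸ hu)
        · exact hyK (h ▸ hu)
      · rintro (h | h)
        · exact hv h
        · exact hv' h
    exact SimpleGraph.Reachable.trans hu h1.reachable
  let GK : SimpleGraph V :=
    { Adj := fun p q => G.Adj p q ∧ (p ∈ K ∨ q ∈ K)
      symm := ⟨fun p q h => ⟨h.1.symm, h.2.symm⟩⟩
      loopless := ⟨fun p h => G.loopless.irrefl p h.1⟩ }
  let G₁ : SimpleGraph V :=
    { Adj := fun p q => G.Adj p q ∧ ((p ∈ K ∨ q ∈ K) ∨ s(p, q) = s(x, y))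
      symm := ⟨fun p q h => ⟨h.1.symm, by rw [Sym2.eq_swap]; exact h.2.imp Or.symm id⟩⟩
      loopless := ⟨fun p h => G.loopless.irrefl p h.1⟩ }
  have hGK₁ : GK ≤ G₁ := fun p q h => ⟨h.1, Or.inl h.2⟩
  have hG₁ : G₁ ≤ G := fun p q h => h.1
  have hG₂ : av G K ≤ G := fun p q h => h.1
  have hxy₁ : s(x, y) ∈ G₁.edgeSet := ⟨hxy, Or.inr rfl⟩
  have hxy₂ : s(x, y) ∈ (av G K).edgeSet := ⟨hxy, hxK, hyK⟩
  -- both parts are plane
  obtain ⟨b', hbb'⟩ := hb
  obtain ⟨a', haa'⟩ := ha
  have hP₁ : Plane G₁ := by
    refine hG.sub hG₁ (e := s(b, b')) hbb' ?_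
    rintro ⟨_, (h | h) | h⟩
    · exact hbK h
    · exact hbK (hprop h hbb'.symm hbx hby)
    · rcases Sym2.eq_iff.1 h with h | h
      · exact hbx h.1
      · exact hby h.1
  have hP₂ : Plane (av G K) := by
    refine hG.sub hG₂ (e := s(a, a')) haa' ?_
    rintro ⟨_, h, _⟩
    exact h haK
  refine hG.not_plane (glue_edge hP₁ hP₂ hG₁ hG₂ (fun z hz => ?_) s(x, y) (fun e => ?_))
  · set z₀ : Chain V := fun e => if e ∈ GK.edgeSet then z e else 0 with hz₀
    have hsup₀ : ∀ e, z₀ e ≠ 0 → e ∈ GK.edgeSet := by
      intro e he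
      by_contra h
      exact he (if_neg h)
    have hbd : ∀ v, v ≠ x → v ≠ y → bd z₀ v = 0 := by
      intro v hv hv'
      by_cases hvK : v ∈ K
      · rw [← hz.2 v]
        unfold bd
        refine sum_congr rfl fun u _ => ?_
        by_cases h : z s(v, u) = 0
        · rw [h]
          simp only [hz₀]
          split_ifs <;> simp [h]
        · have h2 : G.Adj v u := hz.1 _ h
          have h3 : s(v, u) ∈ GK.edgeSet := ⟨h2, Or.inl hvK⟩
          simp only [hz₀]
          rw [if_pos h3]
      · unfold bd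
        refine sum_eq_zero fun u _ => ?_
        by_contra h
        obtain ⟨h1, h2 | h2⟩ := (show GK.Adj v u from hsup₀ _ h)
        · exact hvK h2
        · exact hvK (hprop h2 h1.symm hv hv')
    have hpar : bd z₀ x + bd z₀ y = 0 := by
      have h1 := bd_parity hsup₀
      have h2 : ∑ v ∈ ({x, y} : Finset V), bd z₀ v = ∑ v, bd z₀ v := by
        apply sum_subset (subset_univ _)
        intro v _ hv
        apply hbd
        · rintro rfl
          exact hv (by simp)
        · rintro rfl
          exact hv (by simp)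
      rwa [← h2, sum_pair hxy.ne] at h1
    set z₁ : Chain V := z₀ + bd z₀ x • sing s(x, y) with hz₁
    have hbdsm : ∀ (c : ZMod 2) (v : V), bd (c • sing s(x, y)) v = c * bd (sing s(x, y)) v := by
      intro c v
      unfold bd
      rw [mul_sum]
      rfl
    have hbd₁ : ∀ v, bd z₁ v = 0 := by
      intro v
      rw [hz₁, bd_add, hbdsm, bd_sing hxy.ne]
      by_cases hv : v = x
      · subst hv
        rw [if_pos rfl, if_neg hxy.ne, add_zero, mul_one]
        exact CharTwo.add_self_eq_zero _
      · by_cases hv' : v = y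
        · subst hv'
          rw [if_neg hv, if_pos rfl, zero_add, mul_one, add_comm]
          exact hpar
        · rw [if_neg hv, if_neg hv', hbd v hv hv']
          simp
    have hsm : ∀ e, e ≠ s(x, y) → z₁ e = z₀ e := by
      intro e he
      rw [hz₁, Pi.add_apply, Pi.smul_apply, sing_ne he, smul_zero, add_zero]
    have hsup₁ : ∀ e, z₁ e ≠ 0 → e ∈ G₁.edgeSet := by
      intro e he
      by_cases h : e = s(x, y)
      · rw [h]
        exact hxy₁
      · rw [hsm e h] at he
        exact SimpleGraph.edgeSet_mono hGK₁ (hsup₀ e he)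
    refine ⟨z₁, ⟨hsup₁, hbd₁⟩, z + z₁, ⟨fun e he => ?_, fun v => ?_⟩, ?_⟩
    · by_cases h : e = s(x, y)
      · rw [h]
        exact hxy₂
      · rw [Pi.add_apply, hsm e h] at he
        by_cases h1 : e ∈ GK.edgeSet
        · exfalso
          apply he
          simp only [hz₀]
          rw [if_pos h1]
          exact CharTwo.add_self_eq_zero _
        · have h2 : z e ≠ 0 := by
            intro h2
            apply he
            simp only [hz₀]
            rw [if_neg h1, h2, add_zero]
          have h3 := hz.1 e h2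
          induction e using Sym2.ind with
          | _ p q =>
            exact ⟨h3, fun h => h1 ⟨h3, Or.inl h⟩, fun h => h1 ⟨h3, Or.inr h⟩⟩
    · rw [bd_add, hz.2, hbd₁, add_zero]
    · rw [add_comm z z₁, ← add_assoc, chain_add_self, zero_add]
  · induction e using Sym2.ind with
    | _ p q =>
      rintro ⟨_, (h | h) | h⟩ ⟨_, h1, h2⟩
      · exact absurd h h1
      · exact absurd h h2
      · exact h

end Pool.Agent.Work.MP_3035da_co.K
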