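import Pool.Agent.Work.MP_3035da_co.K.Chn
import Pool.Agent.Work.MP_3035da_co.K.Glue

/-!
Module TRIANG: a graph that is a triangle (and isolated vertices) has a face system, and it can be glued.

tri_graph: `G₂ = SimpleGraph.fromEdgeSet {s(a,b), s(b,c), s(a,c)}`, faces: `Fin 2`, both equal to
`t = sing s(a,b) + sing s(b,c) + sing s(a,c)`.  Span: an element `z` of `cyc G₂` has the same value on the
three edges (boundaries at `a`, `b`, `c`), so it is `0` or `t`.

add_tri: `G` has the triangle `a b c`, `f` is a face system of `G₁ = G.deleteEdges {s(a,b)}`, and the face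
`i₁` contains both `s(a,c)` and `s(b,c)`.  Use `glue` with the triangle (`i₂ = 0`): an element `z` of `cyc G`
with `z s(a,b) = 1` is `(z + t) + t`, otherwise `z + 0`.  The shared edges are `s(a,c)`, `s(b,c)`, at which
the third alternative of `hsh` holds.
-/

set_option autoImplicit false

namespace Pool.Agent.Work.MP_3035da_co.K

open Finset

private theorem bd_two {V : Type} [Fintype V] {z : Chain V} {v a b : V} (hab : a ≠ b)
    (h : ∀ w, z s(v, w) ≠ 0 → w = a ∨ w = b) : bd z v = z s(v, a) + z s(v, b) := by
  classical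
  unfold bd
  have h1 : ∑ w ∈ ({a, b} : Finset V), z s(v, w) = ∑ w, z s(v, w) := by
    apply sum_subset (subset_univ _)
    intro w _ hw
    by_contra hne
    apply hw
    rcases h w hne with rfl | rfl <;> simp
  rw [← h1, sum_pair hab]

private theorem tri_ne {V : Type} {a b c : V} {e : Sym2 V}
    (h : (sing s(a, b) + sing s(b, c) + sing s(a, c) : Chain V) e ≠ 0) :
    e = s(a, b) ∨ e = s(b, c) ∨ e = s(a, c) := by
  by_contra hcon
  push Not at hcon
  apply h
  rw [Pi.add_apply, Pi.add_apply, sing_ne hcon.1, sing_ne hcon.2.1, sing_ne hcon.2.2]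
  simp

private theorem edges_ne {V : Type} {a b c : V} (hab : a ≠ b) (hbc : b ≠ c) (hac : a ≠ c) :
    s(a, b) ≠ s(b, c) ∧ s(a, b) ≠ s(a, c) ∧ s(b, c) ≠ s(a, c) := by
  refine ⟨?_, ?_, ?_⟩
  · intro h
    rcases Sym2.eq_iff.1 h with h | h
    · exact hab h.1
    · exact hac h.1
  · intro h
    rcases Sym2.eq_iff.1 h with h | h
    · exact hbc h.2
    · exact hac h.1
  · intro h
    rcases Sym2.eq_iff.1 h with h | h
    · exact hab h.1.symm
    · exact hbc h.1

private theorem tri_one {V : Type} {a b c : V} (hab : a ≠ b) (hbc : b ≠ c) (hac : a ≠ c)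
    {e : Sym2 V} (h : e = s(a, b) ∨ e = s(b, c) ∨ e = s(a, c)) :
    (sing s(a, b) + sing s(b, c) + sing s(a, c) : Chain V) e = 1 := by
  obtain ⟨h1, h2, h3⟩ := edges_ne hab hbc hac
  rw [Pi.add_apply, Pi.add_apply]
  rcases h with rfl | rfl | rfl
  · rw [sing_self, sing_ne h1, sing_ne h2]
    simp
  · rw [sing_self, sing_ne h1.symm, sing_ne h3]
    simp
  · rw [sing_self, sing_ne h2.symm, sing_ne h3.symm]
    simp

private theorem tri_cyc {V : Type} [Fintype V] {a b c : V} (hab : a ≠ b) (hbc : b ≠ c)
    (hac : a ≠ c) : (sing s(a, b) + sing s(b, c) + sing s(a, c) : Chain V) ∈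
      cyc (SimpleGraph.fromEdgeSet {s(a, b), s(b, c), s(a, c)}) := by
  classical
  refine ⟨fun e he => ?_, fun v => ?_⟩
  · rw [SimpleGraph.edgeSet_fromEdgeSet]
    have h1 := tri_ne he
    refine ⟨by simpa using h1, ?_⟩
    rcases h1 with rfl | rfl | rfl
    · simpa using hab
    · simpa using hbc
    · simpa using hac
  · rw [bd_add, bd_add, bd_sing hab, bd_sing hbc, bd_sing hac]
    have h1 : ∀ p q r : ZMod 2, p + q + (q + r) + (p + r) = 0 := by decide
    exact h1 _ _ _

theorem tri_graph {V : Type} [Fintype V] {a b c : V} (hab : a ≠ b) (hbc : b ≠ c) (hac : a ≠ c) :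
    FaceSys (SimpleGraph.fromEdgeSet {s(a, b), s(b, c), s(a, c)})
      (fun _ : Fin 2 => sing s(a, b) + sing s(b, c) + sing s(a, c)) := by
  classical
  refine ⟨fun _ => tri_cyc hab hbc hac, fun e => ?_, fun z hz => ?_⟩
  · rcases zo ((sing s(a, b) + sing s(b, c) + sing s(a, c) : Chain V) e) with h | h
    · exact Or.inl fun _ => h
    · right
      rw [filter_true_of_mem fun _ _ => h]
      rfl
  · have hsup : ∀ e, z e ≠ 0 → e = s(a, b) ∨ e = s(b, c) ∨ e = s(a, c) := by
      intro e he
      have h1 := hz.1 e he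
      rw [SimpleGraph.edgeSet_fromEdgeSet] at h1
      simpa using h1.1
    have h1 : z s(a, b) + z s(a, c) = 0 := by
      rw [← bd_two hbc (v := a), hz.2]
      intro w hw
      rcases hsup _ hw with h | h | h
      · rcases Sym2.eq_iff.1 h with h | h
        · exact Or.inl h.2
        · exact absurd h.1 hab
      · rcases Sym2.eq_iff.1 h with h | h
        · exact absurd h.1 hab
        · exact absurd h.1 hac
      · rcases Sym2.eq_iff.1 h with h | h
        · exact Or.inr h.2
        · exact absurd h.1 hac
    have h2 : z s(a, b) + z s(b, c) = 0 := by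
      have h3 : z s(a, b) = z s(b, a) := by rw [Sym2.eq_swap]
      rw [h3, ← bd_two hac (v := b), hz.2]
      intro w hw
      rcases hsup _ hw with h | h | h
      · rcases Sym2.eq_iff.1 h with h | h
        · exact absurd h.1.symm hab
        · exact Or.inl h.2
      · rcases Sym2.eq_iff.1 h with h | h
        · exact Or.inr h.2
        · exact absurd h.1 hbc
      · rcases Sym2.eq_iff.1 h with h | h
        · exact absurd h.1.symm hab
        · exact absurd h.1 hbc
    have h3 : ∀ p q : ZMod 2, p + q = 0 → q = p := by decide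
    have e1 := h3 _ _ h1
    have e2 := h3 _ _ h2
    rcases zo (z s(a, b)) with h | h
    · refine ⟨∅, ?_⟩
      funext e
      rw [sum_empty]
      by_contra hne
      rcases hsup e hne with rfl | rfl | rfl
      · exact hne h
      · exact hne (e2.trans h)
      · exact hne (e1.trans h)
    · refine ⟨{0}, ?_⟩
      rw [sum_singleton]
      funext e
      by_cases he : e = s(a, b) ∨ e = s(b, c) ∨ e = s(a, c)
      · rw [tri_one hab hbc hac he]
        rcases he with rfl | rfl | rfl
        · exact h
        · exact e2.trans h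
        · exact e1.trans h
      · have h4 : z e = 0 := by
          by_contra hne
          exact he (hsup e hne)
        have h5 : (sing s(a, b) + sing s(b, c) + sing s(a, c) : Chain V) e = 0 := by
          by_contra hne
          exact he (tri_ne hne)
        rw [h4, h5]

theorem add_tri {V ι : Type} [Fintype V] [Fintype ι] {G : SimpleGraph V} {f : ι → Chain V}
    {a b c : V} (hab : G.Adj a b) (hbc : G.Adj b c) (hac : G.Adj a c)
    (hf : FaceSys (G.deleteEdges {s(a, b)}) f) {i₁ : ι} (h1 : f i₁ s(a, c) = 1)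
    (h2 : f i₁ s(b, c) = 1) : Plane G := by
  classical
  have hT : SimpleGraph.fromEdgeSet {s(a, b), s(b, c), s(a, c)} ≤ G := by
    rw [← SimpleGraph.edgeSet_subset_edgeSet, SimpleGraph.edgeSet_fromEdgeSet]
    rintro e ⟨he, _⟩
    simp only [Set.mem_insert_iff, Set.mem_singleton_iff] at he
    rcases he with rfl | rfl | rfl
    · exact hab
    · exact hbc
    · exact hac
  have htc := tri_cyc hab.ne hbc.ne hac.ne
  refine glue hf (tri_graph hab.ne hbc.ne hac.ne) i₁ 0 (SimpleGraph.deleteEdges_le _) hT
    (fun z hz => ?_) (fun e => ?_)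
  · rcases zo (z s(a, b)) with h | h
    · refine ⟨z, cyc_of_supp hz fun e he => ?_, 0, (cyc _).zero_mem, (add_zero z).symm⟩
      rw [SimpleGraph.edgeSet_deleteEdges]
      refine ⟨hz.1 e he, ?_⟩
      rintro rfl
      exact he h
    · refine ⟨z + (sing s(a, b) + sing s(b, c) + sing s(a, c)),
        cyc_of_supp ((cyc G).add_mem hz (cyc_mono hT htc)) fun e he => ?_, _, htc, ?_⟩
      · rw [SimpleGraph.edgeSet_deleteEdges]
        refine ⟨((cyc G).add_mem hz (cyc_mono hT htc)).1 e he, ?_⟩
        rintro rfl
        apply he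
        rw [Pi.add_apply, h, tri_one hab.ne hbc.ne hac.ne (Or.inl rfl)]
        rfl
      · rw [add_assoc, chain_add_self, add_zero]
  · by_cases he : e = s(a, b) ∨ e = s(b, c) ∨ e = s(a, c)
    · have h3 := tri_one hab.ne hbc.ne hac.ne he
      rcases he with rfl | rfl | rfl
      · left
        intro i
        by_contra hne
        have h4 := (hf.mem i).1 _ hne
        rw [SimpleGraph.edgeSet_deleteEdges] at h4
        exact h4.2 rfl
      · exact Or.inr (Or.inr ⟨h2, h3⟩)
      · exact Or.inr (Or.inr ⟨h1, h3⟩)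
    · refine Or.inr (Or.inl fun _ => ?_)
      by_contra hne
      exact he (tri_ne hne)

end Pool.Agent.Work.MP_3035da_co.K
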