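import Pool.Agent.Work.MP_3035da_co.K.Chn
import Pool.Agent.Work.MP_3035da_co.K.Glue
import Pool.Agent.Work.MP_3035da_co.K.KMono
import Pool.Agent.Work.MP_3035da_co.K.Triang

/-!
Module DEGTWO: in a minimal counterexample every vertex that is not isolated has at least 3 neighbours.

deg_one: `v` has exactly one neighbour `a`.  `G' = G.deleteEdges {s(v,a)}` is plane (`MinCE.sub`); every
`z ∈ cyc G` has `z s(v,a) = bd z v = 0`, so it is in `cyc G'`; the same family is a face system of `G`.

deg_two_adj: `v` has exactly the neighbours `a ≠ b`, and `G.Adj a b`.  `G₁` = `G` without the two edges at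
`v` is plane.  `G₂` = the triangle `v a b` (`tri_graph`), plane.  They share only `s(a,b)`.  `z ∈ cyc G`:
`z s(v,a) = z s(v,b)`; if this is 1 then `z = (z + t) + t` with `t` the triangle, otherwise `z ∈ cyc G₁`.
`glue_edge`.

deg_two_nonadj: `v` has exactly the neighbours `a ≠ b`, and they are not adjacent.  `G' = ctr G a v` is
plane (`MinCE.ctr_plane`); its edges are those of `G` without `s(v,a)`, `s(v,b)`, and `s(a,b)`.  Let `f` be a
face system of `G'` and `g i e = f i e` for `e ≠ s(a,b), s(v,a), s(v,b)`, `g i s(a,b) = 0`,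
`g i s(v,a) = g i s(v,b) = f i s(a,b)`.  This map `cyc G' → cyc G` is linear and onto (inverse: move the
value at `s(v,a)` to `s(a,b)`), and `g` is a face system of `G`.

deg_ge: if `v ∈ U G` has less than 3 neighbours then one of the three cases holds.
-/

set_option autoImplicit false

namespace Pool.Agent.Work.MP_3035da_co.K

open Finset

private theorem bd_one {V : Type} [Fintype V] {z : Chain V} {v a : V}
    (h : ∀ w, z s(v, w) ≠ 0 → w = a) : bd z v = z s(v, a) := by
  classical
  unfold bd
  apply sum_eq_single a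
  · intro w _ hw
    by_contra hne
    exact hw (h w hne)
  · intro h1
    exact absurd (mem_univ _) h1

private theorem bd_two {V : Type} [Fintype V] {z : Chain V} {v a b : V} (hab : a ≠ b)
    (h : ∀ w, z s(v, w) ≠ 0 → w = a ∨ w = b) : bd z v = z s(v, a) + z s(v, b) := by
  classical
  unfold bd
  have h1 : ∑ w ∈ ({a, b} : Finset V), z s(v, w) = ∑ w, z s(v, w) := by
    apply sum_subset (subset_univ _)
    intro w _ hw
    by_contra hne
    apply hw
    rcases h w hne with rfl | rfl <;> simp
  rw [← h1, sum_pair hab]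

theorem deg_one {V : Type} [Fintype V] {G : SimpleGraph V} (hG : MinCE G) {v a : V}
    (hva : G.Adj v a) (h : ∀ w, G.Adj v w → w = a) : False := by
  obtain ⟨n, f, hf⟩ : Plane (G.deleteEdges {s(v, a)}) := by
    refine hG.sub (SimpleGraph.deleteEdges_le _) (e := s(v, a)) hva ?_
    rw [SimpleGraph.edgeSet_deleteEdges]
    intro h1
    exact h1.2 rfl
  refine hG.not_plane ⟨n, f, fun i => cyc_mono (SimpleGraph.deleteEdges_le _) (hf.mem i), hf.two,
    fun z hz => hf.span z (cyc_of_supp hz fun e he => ?_)⟩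
  rw [SimpleGraph.edgeSet_deleteEdges]
  refine ⟨hz.1 e he, ?_⟩
  rintro rfl
  apply he
  rw [← bd_one (z := z) (v := v) (a := a) fun w hw => h w (hz.1 _ hw), hz.2]

private theorem edges_ne {V : Type} {v a b : V} (hva : v ≠ a) (hab : a ≠ b) (hvb : v ≠ b) :
    s(v, a) ≠ s(a, b) ∧ s(v, a) ≠ s(v, b) ∧ s(a, b) ≠ s(v, b) := by
  refine ⟨?_, ?_, ?_⟩
  · intro h
    rcases Sym2.eq_iff.1 h with h | h
    · exact hva h.1
    · exact hvb h.1
  · intro h
    rcases Sym2.eq_iff.1 h with h | h
    · exact hab h.2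
    · exact hvb h.1
  · intro h
    rcases Sym2.eq_iff.1 h with h | h
    · exact hva h.1.symm
    · exact hab h.1

private theorem tri_ne {V : Type} {a b c : V} {e : Sym2 V} (h1 : e ≠ s(a, b)) (h2 : e ≠ s(b, c))
    (h3 : e ≠ s(a, c)) : (sing s(a, b) + sing s(b, c) + sing s(a, c) : Chain V) e = 0 := by
  rw [Pi.add_apply, Pi.add_apply, sing_ne h1, sing_ne h2, sing_ne h3]
  simp

private theorem tri_one {V : Type} {a b c : V} (hab : a ≠ b) (hbc : b ≠ c) (hac : a ≠ c)
    {e : Sym2 V} (h : e = s(a, b) ∨ e = s(b, c) ∨ e = s(a, c)) :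
    (sing s(a, b) + sing s(b, c) + sing s(a, c) : Chain V) e = 1 := by
  obtain ⟨h1, h2, h3⟩ := edges_ne hab hbc hac
  rw [Pi.add_apply, Pi.add_apply]
  rcases h with rfl | rfl | rfl
  · rw [sing_self, sing_ne h1, sing_ne h2]
    simp
  · rw [sing_self, sing_ne h1.symm, sing_ne h3]
    simp
  · rw [sing_self, sing_ne h2.symm, sing_ne h3.symm]
    simp

theorem deg_two_adj {V : Type} [Fintype V] {G : SimpleGraph V} (hG : MinCE G) {v a b : V}
    (hva : G.Adj v a) (hvb : G.Adj v b) (hab : G.Adj a b) (h : ∀ w, G.Adj v w → w = a ∨ w = b) :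
    False := by
  have hT := tri_graph hva.ne hab.ne hvb.ne
  have hTG : SimpleGraph.fromEdgeSet {s(v, a), s(a, b), s(v, b)} ≤ G := by
    rw [← SimpleGraph.edgeSet_subset_edgeSet, SimpleGraph.edgeSet_fromEdgeSet]
    rintro e ⟨he, _⟩
    simp only [Set.mem_insert_iff, Set.mem_singleton_iff] at he
    rcases he with rfl | rfl | rfl
    · exact hva
    · exact hab
    · exact hvb
  have hP : Plane (G.deleteEdges {s(v, a), s(v, b)}) := by
    refine hG.sub (SimpleGraph.deleteEdges_le _) (e := s(v, a)) hva ?_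
    rw [SimpleGraph.edgeSet_deleteEdges]
    intro h1
    exact h1.2 (by simp)
  have htc := hT.mem 0
  refine hG.not_plane (glue_edge hP hT.plane (SimpleGraph.deleteEdges_le _) hTG (fun z hz => ?_)
    s(a, b) (fun e he₁ he₂ => ?_))
  · have h1 : z s(v, a) + z s(v, b) = 0 := by
      rw [← bd_two hab.ne fun w hw => h w (hz.1 _ hw), hz.2]
    have h2 : ∀ p q : ZMod 2, p + q = 0 → q = p := by decide
    have h3 := h2 _ _ h1
    rcases zo (z s(v, a)) with h0 | h0
    · refine ⟨z, cyc_of_supp hz fun e he => ?_, 0, (cyc _).zero_mem, (add_zero z).symm⟩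
      rw [SimpleGraph.edgeSet_deleteEdges]
      refine ⟨hz.1 e he, ?_⟩
      rintro (rfl | rfl)
      · exact he h0
      · exact he (h3.trans h0)
    · have hm := (cyc G).add_mem hz (cyc_mono hTG htc)
      refine ⟨z + (sing s(v, a) + sing s(a, b) + sing s(v, b)),
        cyc_of_supp hm fun e he => ?_, _, htc, ?_⟩
      · rw [SimpleGraph.edgeSet_deleteEdges]
        refine ⟨hm.1 e he, ?_⟩
        rintro (rfl | rfl)
        · apply he
          rw [Pi.add_apply, h0, tri_one hva.ne hab.ne hvb.ne (Or.inl rfl)]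
          rfl
        · apply he
          rw [Pi.add_apply, h3, h0, tri_one hva.ne hab.ne hvb.ne (Or.inr (Or.inr rfl))]
          rfl
      · rw [add_assoc, chain_add_self, add_zero]
  · rw [SimpleGraph.edgeSet_deleteEdges] at he₁
    rw [SimpleGraph.edgeSet_fromEdgeSet] at he₂
    rcases he₂.1 with h1 | h1 | h1
    · exact absurd (Or.inl h1) he₁.2
    · exact h1
    · exact absurd (Or.inr h1) he₁.2

theorem deg_two_nonadj {V : Type} [Fintype V] {G : SimpleGraph V} (hG : MinCE G) {v a b : V}
    (hva : G.Adj v a) (hvb : G.Adj v b) (hne : a ≠ b) (hab : ¬ G.Adj a b)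
    (h : ∀ w, G.Adj v w → w = a ∨ w = b) : False := by
  obtain ⟨n, f, hf⟩ := hG.ctr_plane hva.symm
  obtain ⟨d1, d2, d3⟩ := edges_ne hva.ne hne hvb.ne
  have htc := (tri_graph hva.ne hne hvb.ne).mem 0
  set t : Chain V := sing s(v, a) + sing s(a, b) + sing s(v, b) with ht
  have ht1 : ∀ e, e = s(v, a) ∨ e = s(a, b) ∨ e = s(v, b) → t e = 1 := fun e he =>
    tri_one hva.ne hne hvb.ne he
  have hbt : ∀ (c : ZMod 2) (u : V), bd (c • t) u = 0 := by
    intro c u
    have h1 : bd (c • t) u = c * bd t u := by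
      unfold bd
      rw [mul_sum]
      rfl
    rw [h1, htc.2, mul_zero]
  -- edges of the contraction
  have hE : ∀ e ∈ (ctr G a v).edgeSet, e = s(a, b) ∨ (e ∈ G.edgeSet ∧ v ∉ e) := by
    intro e
    induction e using Sym2.ind with
    | _ p q =>
      intro he
      obtain ⟨h1, h2, h3, h4 | h4 | h4⟩ := (show (ctr G a v).Adj p q from he)
      · right
        refine ⟨h4, ?_⟩
        rw [Sym2.mem_iff]
        rintro (h5 | h5)
        · exact h2 h5.symm
        · exact h3 h5.symm
      · left
        rcases h q h4.2 with h5 | h5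
        · exact absurd (h4.1.trans h5.symm) h1
        · rw [h4.1, h5]
      · left
        rcases h p h4.2.symm with h5 | h5
        · exact absurd (h5.trans h4.1.symm) h1
        · rw [h4.1, h5, Sym2.eq_swap]
  have hE' : ∀ e ∈ G.edgeSet, e ≠ s(v, a) → e ≠ s(v, b) → e ∈ (ctr G a v).edgeSet := by
    intro e
    induction e using Sym2.ind with
    | _ p q =>
      intro he h1 h2
      have he' : G.Adj p q := he
      refine ⟨he'.ne, ?_, ?_, Or.inl he'⟩
      · rintro rfl
        rcases h q he' with rfl | rfl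
        · exact h1 rfl
        · exact h2 rfl
      · rintro rfl
        rcases h p he'.symm with rfl | rfl
        · exact h1 Sym2.eq_swap
        · exact h2 Sym2.eq_swap
  have hab' : s(a, b) ∈ (ctr G a v).edgeSet :=
    ⟨hne, hva.ne.symm, hvb.ne.symm, Or.inr (Or.inl ⟨rfl, hvb⟩)⟩
  have hfv : ∀ z ∈ cyc (ctr G a v), ∀ u, z s(v, u) = 0 := by
    intro z hz u
    by_contra h0
    rcases hE _ (hz.1 _ h0) with h1 | h1
    · rcases Sym2.eq_iff.1 h1 with h1 | h1
      · exact hva.ne h1.1
      · exact hvb.ne h1.1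
    · exact h1.2 (Sym2.mem_mk_left _ _)
  -- the new faces
  have hge : ∀ z : Chain V, ∀ e, e ≠ s(v, a) → e ≠ s(a, b) → e ≠ s(v, b) →
      ∀ c : ZMod 2, (z + c • t) e = z e := by
    intro z e h1 h2 h3 c
    rw [Pi.add_apply, Pi.smul_apply, ht, tri_ne h1 h2 h3, smul_zero, add_zero]
  refine hG.not_plane ⟨n, fun i => f i + f i s(a, b) • t, fun i => ?_, fun e => ?_, fun z hz => ?_⟩
  · refine ⟨fun e he => ?_, fun u => by rw [bd_add, (hf.mem i).2, hbt, add_zero]⟩
    by_cases h1 : e = s(v, a)
    · rw [h1]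
      exact hva
    by_cases h3 : e = s(v, b)
    · rw [h3]
      exact hvb
    by_cases h2 : e = s(a, b)
    · exfalso
      apply he
      rw [h2, Pi.add_apply, Pi.smul_apply, ht1 _ (Or.inr (Or.inl rfl)), smul_eq_mul, mul_one]
      exact CharTwo.add_self_eq_zero _
    · rw [hge _ _ h1 h2 h3] at he
      rcases hE _ ((hf.mem i).1 _ he) with h4 | h4
      · exact absurd h4 h2
      · exact h4.1
  · by_cases h2 : e = s(a, b)
    · left
      intro i
      rw [h2, Pi.add_apply, Pi.smul_apply, ht1 _ (Or.inr (Or.inl rfl)), smul_eq_mul, mul_one]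
      exact CharTwo.add_self_eq_zero _
    · by_cases h1 : e = s(v, a) ∨ e = s(v, b)
      · have h4 : ∀ i, (f i + f i s(a, b) • t) e = f i s(a, b) := by
          intro i
          rw [Pi.add_apply, Pi.smul_apply]
          rcases h1 with rfl | rfl
          · rw [hfv _ (hf.mem i), ht1 _ (Or.inl rfl), smul_eq_mul, mul_one, zero_add]
          · rw [hfv _ (hf.mem i), ht1 _ (Or.inr (Or.inr rfl)), smul_eq_mul, mul_one, zero_add]
        simp only [h4]
        exact hf.two s(a, b)
      · push Not at h1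
        have h4 : ∀ i, (f i + f i s(a, b) • t) e = f i e := fun i => hge _ _ h1.1 h2 h1.2 _
        simp only [h4]
        exact hf.two e
  · have hzab : z s(a, b) = 0 := by
      by_contra h0
      exact hab (hz.1 _ h0)
    have h1 : z s(v, a) + z s(v, b) = 0 := by
      rw [← bd_two hne fun w hw => h w (hz.1 _ hw), hz.2]
    have h2 : ∀ p q : ZMod 2, p + q = 0 → q = p := by decide
    have h3 := h2 _ _ h1
    have hz' : z + z s(v, a) • t ∈ cyc (ctr G a v) := by
      refine ⟨fun e he => ?_, fun u => by rw [bd_add, hz.2, hbt, add_zero]⟩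
      by_cases h4 : e = s(a, b)
      · rw [h4]
        exact hab'
      by_cases h5 : e = s(v, a)
      · exfalso
        apply he
        rw [h5, Pi.add_apply, Pi.smul_apply, ht1 _ (Or.inl rfl), smul_eq_mul, mul_one]
        exact CharTwo.add_self_eq_zero _
      by_cases h6 : e = s(v, b)
      · exfalso
        apply he
        rw [h6, Pi.add_apply, Pi.smul_apply, ht1 _ (Or.inr (Or.inr rfl)), smul_eq_mul, mul_one, h3]
        exact CharTwo.add_self_eq_zero _
      rw [hge _ _ h5 h4 h6] at he
      exact hE' e (hz.1 _ he) h5 h6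
    obtain ⟨S, hS⟩ := hf.span _ hz'
    refine ⟨S, ?_⟩
    have h4 : (∑ i ∈ S, f i) s(a, b) = z s(v, a) := by
      rw [← hS, Pi.add_apply, Pi.smul_apply, ht1 _ (Or.inr (Or.inl rfl)), smul_eq_mul, mul_one,
        hzab, zero_add]
    rw [sum_add_distrib, ← sum_smul, ← Finset.sum_apply, h4, ← hS, add_assoc, chain_add_self,
      add_zero]

theorem deg_ge {V : Type} [Fintype V] {G : SimpleGraph V} (hG : MinCE G) {v : V} (hv : v ∈ U G) :
    3 ≤ (G.neighborSet v).ncard := by
  classical
  by_contra hlt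
  obtain ⟨a, hva⟩ := hv
  by_cases h1 : ∀ w, G.Adj v w → w = a
  · exact deg_one hG hva h1
  · push Not at h1
    obtain ⟨b, hvb, hba⟩ := h1
    have h2 : ∀ w, G.Adj v w → w = a ∨ w = b := by
      intro w hw
      by_contra hcon
      push Not at hcon
      refine hlt ?_
      have hsub : ({w, a, b} : Set V) ⊆ G.neighborSet v := by
        rintro u (rfl | rfl | rfl)
        · exact hw
        · exact hva
        · exact hvb
      calc 3 = ({w, a, b} : Set V).ncard := by
            rw [Set.ncard_eq_toFinset_card']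
            simp [hcon.1, hcon.2, hba.symm]
        _ ≤ _ := Set.ncard_le_ncard hsub (Set.toFinite _)
    by_cases hab : G.Adj a b
    · exact deg_two_adj hG hva hvb hab h2
    · exact deg_two_nonadj hG hva hvb hba.symm hab h2

end Pool.Agent.Work.MP_3035da_co.K
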