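import Pool.Agent.Work.MP_3035da_co.K.CutVert
import Pool.Agent.Work.MP_3035da_co.K.CutPair
import Pool.Agent.Work.MP_3035da_co.K.DegTwo

/-!
Module CTRCONN: the contraction of an edge of a minimal counterexample is 2-connected.

mem_U_ctr: `a ∈ U (ctr G x y)` implies `a ∈ U G` and `a ≠ y` (an edge `a b` of `ctr` comes from an edge of
`G` at `a`, or `a = x` and `x ∈ U G`).

x_mem: `x ∈ U (ctr G x y)`: `x` has at least 3 neighbours in `G` (`deg_ge`), so one different from `y`.

ctr_twoConn: let `w`, `a`, `b` be given, `a ≠ b`.  If `w = x`: `a, b ≠ x, y` are in `U G`; `cut_pair` gives a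
walk in `av G {x, y}`, and `av G {x, y} ≤ av (ctr G x y) {x}`.  If `w = y`: `ctr G x y` has no edge at `y`, so
`av (ctr G x y) {y} = ctr G x y`, and it is enough to join `a` and `b` in `ctr G x y`; take the case of a
third vertex or map a walk of `G` (see next).  If `w ≠ x, y`: `cut_vert` gives a walk from `a` to `b` in
`av G {w}`; the map `φ v = if v = y then x else v` sends every edge `u v` of `av G {w}` to an edge
of `av (ctr G x y) {w}` or to one vertex (`u v` = `x y`), so `φ a = a` and `φ b = b` are joined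
(induction on the walk: `Reachable (φ u) (φ v)` for all `u, v` that are joined).  For `w = y` use the same
map and a walk from `a` to `b` in `G`: `a, b ∈ U G` are joined in `G`: by `cut_vert` with any `w' ∈ U G`,
`w' ≠ a, b` (`U G` has at least 4 elements by `deg_ge`).

av_ctr: `av (ctr G x y) {x} = av G {x, y}` (the graph `ctr G x y` has no edge at `y`).
-/

set_option autoImplicit false

namespace Pool.Agent.Work.MP_3035da_co.K

open Finset

theorem mem_U_ctr {V : Type} {G : SimpleGraph V} {x y a : V} (hxy : G.Adj x y)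
    (ha : a ∈ U (ctr G x y)) : a ∈ U G ∧ a ≠ y := by
  obtain ⟨b, h1, h2, h3, h4⟩ := ha
  refine ⟨?_, h2⟩
  rcases h4 with h | ⟨rfl, h⟩ | ⟨rfl, h⟩
  · exact ⟨b, h⟩
  · exact ⟨y, hxy⟩
  · exact ⟨y, h⟩

theorem x_mem {V : Type} [Fintype V] {G : SimpleGraph V} (hG : MinCE G) {x y : V}
    (hxy : G.Adj x y) : x ∈ U (ctr G x y) := by
  have h3 := deg_ge hG (v := x) ⟨y, hxy⟩
  have : ∃ u, G.Adj x u ∧ u ≠ y := by
    by_contra hc
    push Not at hc
    have h4 : G.neighborSet x ⊆ {y} := fun u hu => hc u hu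
    have h5 := Set.ncard_le_ncard h4 (Set.toFinite _)
    rw [Set.ncard_singleton] at h5
    omega
  obtain ⟨u, hu, huy⟩ := this
  exact ⟨u, hu.ne, hxy.ne, huy, Or.inl hu⟩

theorem av_ctr {V : Type} {G : SimpleGraph V} {x y : V} :
    av (ctr G x y) {x} = av G {x, y} := by
  ext a b
  simp only [av, ctr, Set.mem_singleton_iff, Set.mem_insert_iff, not_or]
  constructor
  · rintro ⟨⟨h1, h2, h3, h4⟩, h5, h6⟩
    rcases h4 with h | ⟨rfl, h⟩ | ⟨rfl, h⟩
    · exact ⟨h, ⟨h5, h2⟩, ⟨h6, h3⟩⟩
    · exact absurd rfl h5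
    · exact absurd rfl h6
  · rintro ⟨h, ⟨h5, h2⟩, ⟨h6, h3⟩⟩
    exact ⟨⟨h.ne, h2, h3, Or.inl h⟩, h5, h6⟩

open Classical in
theorem ctr_twoConn {V : Type} [Fintype V] {G : SimpleGraph V} (hG : MinCE G) {x y : V}
    (hxy : G.Adj x y) : TwoConn (ctr G x y) := by
  intro w a b ha hb haw hbw
  obtain ⟨ha1, ha2⟩ := mem_U_ctr hxy ha
  obtain ⟨hb1, hb2⟩ := mem_U_ctr hxy hb
  by_cases hwx : w = x
  · subst hwx
    rw [av_ctr]
    exact cut_pair hG hxy ha1 hb1 haw ha2 hbw hb2
  have hab := cut_vert hG w a b ha1 hb1 haw hbw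
  by_cases hwy : w = y
  · subst hwy
    refine hab.mono ?_
    intro u v huv
    obtain ⟨h1, h2, h3⟩ := huv
    exact ⟨⟨h1.ne, h2, h3, Or.inl h1⟩, h2, h3⟩
  · let φ : V → V := fun v => if v = y then x else v
    have key : ∀ u v, (av G {w}).Adj u v → (av (ctr G x y) {w}).Reachable (φ u) (φ v) := by
      intro u v huv
      obtain ⟨h1, h2, h3⟩ := huv
      rw [Set.mem_singleton_iff] at h2 h3
      have hxw : x ∉ ({w} : Set V) := fun h => hwx (Set.mem_singleton_iff.1 h).symm
      by_cases hu : u = y <;> by_cases hv : v = y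
      · exact absurd (hu.trans hv.symm) h1.ne
      · simp only [φ, if_pos hu, if_neg hv]
        by_cases hxv : x = v
        · rw [hxv]
        · apply SimpleGraph.Adj.reachable
          refine ⟨⟨hxv, hxy.ne, hv, Or.inr (Or.inl ⟨rfl, ?_⟩)⟩, hxw, h3⟩
          rw [← hu]; exact h1
      · simp only [φ, if_neg hu, if_pos hv]
        by_cases hxu : u = x
        · rw [hxu]
        · apply SimpleGraph.Adj.reachable
          refine ⟨⟨hxu, hu, hxy.ne, Or.inr (Or.inr ⟨rfl, ?_⟩)⟩, h2, hxw⟩
          rw [← hv]; exact h1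
      · simp only [φ, if_neg hu, if_neg hv]
        apply SimpleGraph.Adj.reachable
        exact ⟨⟨h1.ne, hu, hv, Or.inl h1⟩, h2, h3⟩
    have hall : ∀ u v, (av G {w}).Reachable u v → (av (ctr G x y) {w}).Reachable (φ u) (φ v) := by
      rintro u v ⟨p⟩
      induction p with
      | nil => exact SimpleGraph.Reachable.refl _
      | cons h p ih => exact (key _ _ h).trans ih
    have := hall a b hab
    simp only [φ, if_neg ha2, if_neg hb2] at this
    exact this

end Pool.Agent.Work.MP_3035da_co.K
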