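import Pool.Agent.Work.MP_3035da_co.K.Out
import Pool.Agent.Work.MP_3035da_co.K.CtrConn

/-!
Module GOUT: the outer side of `C`, in `G`.

`G` is a minimal counterexample, `x y` an edge, `Sep (ctr G x y) f x C S`.  `gOut` is `G` without the inner
edges.  The faces of `S` and `C` have no edge at `x` (`inside`, `v_not`) and none at `y` (`y` is isolated
in `ctr G x y`), and an edge of `ctr G x y` that avoids `x` is an edge of `G`.

all_out: `u ∉ VC C`, `u ∈ U gOut`.  Then no face of `S` is at `u`, in particular all edges of `G` at `u` are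
edges of `gOut`.  Proof: for `u = x` or `u = y` clear.  Otherwise let `u u'` be an edge of `gOut`.  If `u' ≠ y`
then `u u'` is an edge of `ctr G x y`, `C s(u,u') = 0` as `u ∉ VC C`, and no face of `S` contains it (it is
not an inner edge); if `u' = y` then `u x` is an edge of `ctr G x y` and no face of `S` contains it
(`inside`).  In both cases `Sep.no_in` applies.

gout_mem: `C ∈ cyc gOut`.

gout_cut: `gOut.Adj a b`, `C s(a,b) = 0` imply `a ∉ VC C ∨ b ∉ VC C`: if `a, b ∈ VC C` then `a, b ≠ x, y`, the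
edge `a b` is an edge of `ctr G x y`, outer, and `Sep.out_edge` gives that `a` or `b` is reachable from `x` in
`av (ctr G x y) (VC C)`; but `a ∈ VC C`, `a ≠ x` is isolated there.

gout_reach: `a ∈ U gOut`, `a ∉ VC C` imply that `a` is reachable from `x` in `av gOut (VC C)`.  `a = x`: clear;
`a = y`: the edge `x y`.  Otherwise let `a a'` be an edge of `gOut`; the edge `a a'` (if `a' ≠ y`) or `a x`
(if `a' = y`) of `ctr G x y` is outer; by `Sep.out_edge` `a` or its other end `a''` is reachable from `x` in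
`av (ctr G x y) (VC C)`; if it is `a''` then `a'' ∉ VC C` (or `a'' = x`) and the edge `a'' a` is in
`av (ctr G x y) (VC C)`; so `a` is reachable there.  Now transfer: by induction along a walk from `x` in
`av (ctr G x y) (VC C)`, every vertex `u` reached is reachable from `x` in `av gOut (VC C)` and has no face of
`S` at it (`Sep.no_in` for the next edge: it is in no face of `S` because the previous vertex has none).
An edge `u u'` of `ctr G x y` is an edge of `G` (then of `gOut`), or one end is `x` and `y` is joined to the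
other end in `G`: go through `x y`.
-/

set_option autoImplicit false

namespace Pool.Agent.Work.MP_3035da_co.K

open Finset

/-- the graph of the outer side -/
def gOut {V ι : Type} [Fintype V] (G : SimpleGraph V) (f : ι → Chain V) (C : Chain V)
    (S : Finset ι) : SimpleGraph V :=
  G.deleteEdges {e | C e = 0 ∧ ∃ i ∈ S, f i e = 1}

section
variable {V ι : Type} [Fintype V] [Fintype ι] {G : SimpleGraph V} {f : ι → Chain V} {x y : V}
  {C : Chain V} {S : Finset ι}

private theorem yface (h : Sep (ctr G x y) f x C S) (i : ι) (d : V) : f i s(y, d) = 0 := by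
  by_contra h0
  have h1 : (ctr G x y).Adj y d := (h.fs.mem i).1 _ h0
  exact h1.2.1 rfl

private theorem y_not (h : Sep (ctr G x y) f x C S) : y ∉ VC C := by
  rintro ⟨d, hd⟩
  have h1 : (ctr G x y).Adj y d := h.mem.1 _ hd
  exact h1.2.1 rfl

private theorem out_adj {a b : V} : (gOut G f C S).Adj a b ↔
    G.Adj a b ∧ ¬ (C s(a, b) = 0 ∧ ∃ i ∈ S, f i s(a, b) = 1) := by
  unfold gOut
  rw [SimpleGraph.deleteEdges_adj]
  rfl

private theorem out_of {a b : V} (hab : G.Adj a b) (h0 : ∀ i ∈ S, f i s(a, b) = 0) :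
    (gOut G f C S).Adj a b := by
  rw [out_adj]
  refine ⟨hab, ?_⟩
  rintro ⟨-, i, hi, h1⟩
  rw [h0 i hi] at h1
  exact absurd h1 (by decide)

private theorem ctr_of {a b : V} (hab : G.Adj a b) (ha : a ≠ y) (hb : b ≠ y) :
    (ctr G x y).Adj a b := ⟨hab.ne, ha, hb, Or.inl hab⟩

private theorem of_ctr {a b : V} (hab : (ctr G x y).Adj a b) (ha : a ≠ x) (hb : b ≠ x) :
    G.Adj a b := by
  rcases hab.2.2.2 with h | h | h
  · exact h
  · exact absurd h.1 ha
  · exact absurd h.1 hb

private theorem not_VC {a : V} (ha : a ∉ VC C) (d : V) : C s(a, d) = 0 := by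
  by_contra h0
  exact ha ⟨d, h0⟩

private theorem zero_of_out {a b : V} (hab : (gOut G f C S).Adj a b) (hC : C s(a, b) = 0) :
    ∀ i ∈ S, f i s(a, b) = 0 := by
  intro i hi
  rcases zo (f i s(a, b)) with h1 | h1
  · exact h1
  · exact absurd ⟨hC, i, hi, h1⟩ (out_adj.mp hab).2

theorem all_out (hG : MinCE G) (hxy : G.Adj x y) (h : Sep (ctr G x y) f x C S) {u : V}
    (hu : u ∉ VC C) (hU : u ∈ U (gOut G f C S)) :
    (∀ i ∈ S, ∀ d, f i s(u, d) = 0) ∧ ∀ d, G.Adj u d → (gOut G f C S).Adj u d := by
  have key : ∀ i ∈ S, ∀ d, f i s(u, d) = 0 := by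
    by_cases hux : u = x
    · rw [hux]; exact h.inside
    by_cases huy : u = y
    · rw [huy]; exact fun i _ d => yface h i d
    obtain ⟨u', huu'⟩ := hU
    have hadj := (out_adj.mp huu').1
    by_cases hu'y : u' = y
    · rw [hu'y] at hadj
      have hc : (ctr G x y).Adj u x := ⟨hux, huy, hxy.ne, Or.inr (Or.inr ⟨rfl, hadj⟩)⟩
      refine h.no_in hu hc fun i hi => ?_
      rw [Sym2.eq_swap]
      exact h.inside i hi u
    · exact h.no_in hu (ctr_of hadj huy hu'y) (zero_of_out huu' (not_VC hu u'))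
  exact ⟨key, fun d hd => out_of hd fun i hi => key i hi d⟩

theorem gout_mem (hG : MinCE G) (hxy : G.Adj x y) (h : Sep (ctr G x y) f x C S) :
    C ∈ cyc (gOut G f C S) := by
  refine cyc_of_supp h.mem fun e he => ?_
  have h1 := h.mem.1 e he
  induction e using Sym2.ind with
  | _ a b =>
    have h2 : (ctr G x y).Adj a b := h1
    have ha : a ≠ x := fun h3 => h.v_not ⟨b, h3 ▸ he⟩
    have hb : b ≠ x := fun h3 => h.v_not ⟨a, by rw [Sym2.eq_swap]; exact h3 ▸ he⟩
    exact out_adj.mpr ⟨of_ctr h2 ha hb, fun h3 => he h3.1⟩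

private theorem isolated {a : V} (haC : a ∈ VC C) (hax : a ≠ x) :
    ¬ (av (ctr G x y) (VC C)).Reachable x a := by
  rintro h1
  obtain ⟨p⟩ := h1.symm
  cases p with
  | nil => exact hax rfl
  | cons h2 _ => exact h2.2.1 haC

theorem gout_cut (hG : MinCE G) (hxy : G.Adj x y) (h : Sep (ctr G x y) f x C S) {a b : V}
    (hab : (gOut G f C S).Adj a b) (hC : C s(a, b) = 0) : a ∉ VC C ∨ b ∉ VC C := by
  by_contra hcon
  push Not at hcon
  obtain ⟨ha, hb⟩ := hcon
  have hax : a ≠ x := fun h3 => h.v_not (h3 ▸ ha)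
  have hbx : b ≠ x := fun h3 => h.v_not (h3 ▸ hb)
  have hay : a ≠ y := fun h3 => y_not h (h3 ▸ ha)
  have hby : b ≠ y := fun h3 => y_not h (h3 ▸ hb)
  rcases h.out_edge (ctr_of (out_adj.mp hab).1 hay hby) hC (zero_of_out hab hC) with h1 | h1
  · exact isolated ha hax h1
  · exact isolated hb hbx h1

private theorem transfer (hxy : G.Adj x y) (h : Sep (ctr G x y) f x C S) :
    ∀ {u w : V} (_ : (av (ctr G x y) (VC C)).Walk u w),
      (∀ i ∈ S, ∀ d, f i s(u, d) = 0) → (av (gOut G f C S) (VC C)).Reachable x u →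
      (av (gOut G f C S) (VC C)).Reachable x w := by
  intro u w p
  induction p with
  | nil => exact fun _ h1 => h1
  | @cons u u' w huu' p ih =>
    intro h0 h1
    have h0' : ∀ i ∈ S, ∀ d, f i s(u', d) = 0 := by
      refine h.no_in huu'.2.2 huu'.1.symm fun i hi => ?_
      rw [Sym2.eq_swap]
      exact h0 i hi u'
    refine ih h0' ?_
    rcases huu'.1.2.2.2 with h2 | h2 | h2
    · have h3 : (av (gOut G f C S) (VC C)).Adj u u' :=
        ⟨out_of h2 fun i hi => h0 i hi u', huu'.2.1, huu'.2.2⟩
      exact h1.trans h3.reachable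
    · have h3 : (av (gOut G f C S) (VC C)).Adj x y :=
        ⟨out_of hxy fun i hi => h.inside i hi y, h.v_not, y_not h⟩
      have h4 : (av (gOut G f C S) (VC C)).Adj y u' :=
        ⟨out_of h2.2 fun i _ => yface h i u', y_not h, huu'.2.2⟩
      exact h3.reachable.trans h4.reachable
    · rw [h2.1]

theorem gout_reach (hG : MinCE G) (hxy : G.Adj x y) (h : Sep (ctr G x y) f x C S) {a : V}
    (ha : a ∈ U (gOut G f C S)) (haC : a ∉ VC C) : (av (gOut G f C S) (VC C)).Reachable x a := by
  by_cases hax : a = x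
  · rw [hax]
  by_cases hay : a = y
  · have h3 : (av (gOut G f C S) (VC C)).Adj x y :=
      ⟨out_of hxy fun i hi => h.inside i hi y, h.v_not, y_not h⟩
    rw [hay]
    exact h3.reachable
  have key : (av (ctr G x y) (VC C)).Reachable x a := by
    obtain ⟨a', haa'⟩ := ha
    have hadj := (out_adj.mp haa').1
    have step : ∀ a'' : V, (ctr G x y).Adj a a'' → (∀ i ∈ S, f i s(a, a'') = 0) →
        (av (ctr G x y) (VC C)).Reachable x a := by
      intro a'' h1 h2
      rcases h.out_edge h1 (not_VC haC a'') h2 with h3 | h3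
      · exact h3
      · by_cases h4 : a'' ∈ VC C
        · by_cases h5 : a'' = x
          · exact absurd (h5 ▸ h4) h.v_not
          · exact absurd h3 (isolated h4 h5)
        · have h6 : (av (ctr G x y) (VC C)).Adj a'' a := ⟨h1.symm, h4, haC⟩
          exact h3.trans h6.reachable
    by_cases ha'y : a' = y
    · rw [ha'y] at hadj
      refine step x ⟨hax, hay, hxy.ne, Or.inr (Or.inr ⟨rfl, hadj⟩)⟩ fun i hi => ?_
      rw [Sym2.eq_swap]
      exact h.inside i hi a
    · exact step a' (ctr_of hadj hay ha'y) (zero_of_out haa' (not_VC haC a'))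
  obtain ⟨p⟩ := key
  exact transfer hxy h p h.inside (SimpleGraph.Reachable.refl x)

end

end Pool.Agent.Work.MP_3035da_co.K
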