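import Pool.Agent.Work.MP_3035da_co.K.GOut

/-!
Module GOUTCONN: the outer side is 2-connected.

Let `w`, and `a, b ∈ U gOut`, `a, b ≠ w`.

(A) every `a ∈ U gOut`, `a ≠ w`, is joined in `av gOut {w}` to some `c₁ ∈ VC C`, `c₁ ≠ w`.  `VC C` has at least
three elements (an edge `s(p,q)` of `C` and, by the boundary at `p`, another `s(p,r)`), take `c ∈ VC C`,
`c ≠ w`, `c ≠ a` (if `a ∈ VC C` there is nothing to show).  `cut_vert` gives a walk from `a` to `c` in
`av G {w}`.  Induct on the walk (for all starting vertices `u ∈ U gOut`, `u ≠ w`): if `u ∈ VC C` take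
`c₁ = u`.  Otherwise the first edge `u u'` is an edge of `gOut` by `all_out`, `u' ∈ U gOut`, `u' ≠ w`.

(B) any `c₁, c₂ ∈ VC C`, both `≠ w`, are joined in `av gOut {w}`: let `A` be the arc of `circ_arc`.  If
`w ∉ VC C`, `A` is supported on edges of `C` that avoid `w`; `C ∈ cyc gOut` (`gout_mem`), so
`reachable_of_chain` applies.  If `w ∈ VC C`: `C` has exactly two edges at `w` (`circ_deg`) and
`bd A w = 0`, so `A` has none or both of them; in the second case replace `A` by `A + C`.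
-/

set_option autoImplicit false

namespace Pool.Agent.Work.MP_3035da_co.K

open Finset

section
variable {V ι : Type} [Fintype V] [Fintype ι] {G : SimpleGraph V} {f : ι → Chain V} {x y : V}
  {C : Chain V} {S : Finset ι}

private theorem walk_to (hG : MinCE G) (hxy : G.Adj x y) (h : Sep (ctr G x y) f x C S) (w : V) :
    ∀ {u c : V} (_ : (av G {w}).Walk u c), c ∈ VC C → u ≠ w →
      (u ∈ U (gOut G f C S) ∨ u ∈ VC C) →
      ∃ c₁ ∈ VC C, c₁ ≠ w ∧ (av (gOut G f C S) {w}).Reachable u c₁ := by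
  intro u c p
  induction p with
  | nil => exact fun hc huw _ => ⟨_, hc, huw, SimpleGraph.Reachable.refl _⟩
  | @cons u u' w' huu' p ih =>
    intro hc huw hu
    by_cases huC : u ∈ VC C
    · exact ⟨u, huC, huw, SimpleGraph.Reachable.refl _⟩
    · have hU := hu.resolve_right huC
      have hadj := (all_out hG hxy h huC hU).2 u' huu'.1
      obtain ⟨c₁, hc₁, hc₁w, hr⟩ := ih hc huu'.2.2 (Or.inl ⟨u, hadj.symm⟩)
      have h3 : (av (gOut G f C S) {w}).Adj u u' := ⟨hadj, huu'.2.1, huu'.2.2⟩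
      exact ⟨c₁, hc₁, hc₁w, h3.reachable.trans hr⟩

open Classical in
private theorem arc_avoid (hC : Circ C) {w c₁ c₂ : V} (h1 : c₁ ∈ VC C) (h2 : c₂ ∈ VC C)
    (h1w : c₁ ≠ w) (h2w : c₂ ≠ w) : ∃ A : Chain V, (∀ e, A e ≠ 0 → C e ≠ 0) ∧
      (∀ d, A s(w, d) = 0) ∧ ∀ v, bd A v = (if v = c₁ then 1 else 0) + (if v = c₂ then 1 else 0) := by
  obtain ⟨A, hA, hb⟩ := circ_arc hC h1 h2
  by_cases hw : w ∈ VC C
  · obtain ⟨d₁, d₂, hd, hdeg⟩ := circ_deg hC hw
    have hoff : ∀ d, d ≠ d₁ → d ≠ d₂ → A s(w, d) = 0 := by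
      intro d hd1 hd2
      by_contra h0
      rcases (hdeg d).mp (hA _ h0) with h3 | h3
      · exact hd1 h3
      · exact hd2 h3
    have hsum : A s(w, d₁) + A s(w, d₂) = 0 := by
      have h3 := hb w
      rw [if_neg h1w.symm, if_neg h2w.symm, add_zero] at h3
      rw [← h3]
      unfold bd
      rw [← Finset.sum_pair (f := fun d => A s(w, d)) hd]
      refine Finset.sum_subset (Finset.subset_univ _) fun d _ hdn => ?_
      simp only [Finset.mem_insert, Finset.mem_singleton, not_or] at hdn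
      exact hoff d hdn.1 hdn.2
    have heq : A s(w, d₁) = A s(w, d₂) := CharTwo.add_eq_zero.mp hsum
    rcases zo (A s(w, d₁)) with h0 | h0
    · refine ⟨A, hA, fun d => ?_, hb⟩
      by_cases hd1 : d = d₁
      · rw [hd1, h0]
      by_cases hd2 : d = d₂
      · rw [hd2, ← heq, h0]
      exact hoff d hd1 hd2
    · have hC1 : ∀ d, C s(w, d) ≠ 0 → C s(w, d) = 1 := fun d hd => (ne_zero_iff _).mp hd
      refine ⟨A + C, fun e he => ?_, fun d => ?_, fun v => ?_⟩
      · by_contra h3
        apply he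
        have h4 : A e = 0 := by
          by_contra h5
          exact hA e h5 h3
        rw [Pi.add_apply, h3, h4, add_zero]
      · rw [Pi.add_apply]
        by_cases hd1 : d = d₁
        · rw [hd1, h0, hC1 d₁ ((hdeg d₁).mpr (Or.inl rfl))]
          decide
        by_cases hd2 : d = d₂
        · rw [hd2, ← heq, h0, hC1 d₂ ((hdeg d₂).mpr (Or.inr rfl))]
          decide
        have h5 : C s(w, d) = 0 := by
          by_contra h6
          rcases (hdeg d).mp h6 with h7 | h7
          · exact hd1 h7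
          · exact hd2 h7
        rw [hoff d hd1 hd2, h5, add_zero]
      · rw [bd_add, hb, hC.bd, add_zero]
  · refine ⟨A, hA, fun d => ?_, hb⟩
    by_contra h0
    exact hw ⟨d, hA _ h0⟩

theorem gout_conn (hG : MinCE G) (hxy : G.Adj x y)
    (h : Sep (ctr G x y) f x C S) : TwoConn (gOut G f C S) := by
  classical
  intro w a b ha hb haw hbw
  have hle : ∀ {p q : V}, (gOut G f C S).Adj p q → G.Adj p q := by
    intro p q hpq
    unfold gOut at hpq
    exact (SimpleGraph.deleteEdges_adj.mp hpq).1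
  obtain ⟨c, hc, hcw⟩ : ∃ c ∈ VC C, c ≠ w := by
    have hne : ∃ e, C e ≠ 0 := by
      by_contra h0
      push Not at h0
      exact h.circ.2.1 (funext h0)
    obtain ⟨e, he⟩ := hne
    induction e using Sym2.ind with
    | _ p q =>
      by_cases hp : p = w
      · refine ⟨q, ⟨p, by rw [Sym2.eq_swap]; exact he⟩, fun hq => ?_⟩
        have h1 : (ctr G x y).Adj p q := h.mem.1 _ he
        exact h1.ne (hp.trans hq.symm)
      · exact ⟨p, ⟨q, he⟩, hp⟩
  have hcU : c ∈ U G := by
    obtain ⟨d, hd⟩ := hc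
    have h1 : (gOut G f C S).Adj c d := (gout_mem hG hxy h).1 _ hd
    exact ⟨d, hle h1⟩
  have hto : ∀ u, u ∈ U (gOut G f C S) → u ≠ w →
      ∃ c₁ ∈ VC C, c₁ ≠ w ∧ (av (gOut G f C S) {w}).Reachable u c₁ := by
    intro u hu huw
    have huU : u ∈ U G := by
      obtain ⟨d, hd⟩ := hu
      exact ⟨d, hle hd⟩
    obtain ⟨p⟩ := cut_vert hG w u c huU hcU huw hcw
    exact walk_to hG hxy h w p hc huw (Or.inl hu)
  obtain ⟨c₁, hc₁, hc₁w, hr₁⟩ := hto a ha haw
  obtain ⟨c₂, hc₂, hc₂w, hr₂⟩ := hto b hb hbw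
  refine hr₁.trans (SimpleGraph.Reachable.trans ?_ hr₂.symm)
  obtain ⟨A, hA, hAw, hbA⟩ := arc_avoid h.circ hc₁ hc₂ hc₁w hc₂w
  refine reachable_of_chain (c := A) (fun e he => ?_) hbA
  have h1 := (gout_mem hG hxy h).1 e (hA e he)
  induction e using Sym2.ind with
  | _ p q =>
    refine ⟨h1, fun h2 => he ?_, fun h2 => he ?_⟩
    · rw [show p = w from h2]; exact hAw q
    · rw [show q = w from h2, Sym2.eq_swap]; exact hAw p

end

end Pool.Agent.Work.MP_3035da_co.K
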