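import Pool.Agent.Work.MP_3035da_co.K.Link
import Pool.Agent.Work.MP_3035da_co.K.Circuits
import Pool.Agent.Work.MP_3035da_co.K.NoBridge

/-!
Module PERIPH: a circuit without chords and with connected outside is a face.

`C = ∑ i ∈ R, f i`.  An edge `e` of `G` with `C e = 0` has all its faces in `R` or none (parity and
`FaceSys.two`); call it `R`-edge if some face of `R` contains it.  At a vertex `w ∉ VC C`, by `same_class`,
all faces at `w` are in `R` or none is.  The vertices `a ∈ U G`, `a ∉ VC C` are all reachable from `v`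
in `av G (VC C)`; along an edge `u u'` of this graph the alternative is passed on in the following form:
say `u` is positive if some face of `R` is at `u`, that is, if some edge at `u` is an `R`-edge, and
negative otherwise.

Simplest way: if some edge `a b` with `C s(a,b) = 0` is in a face of `R`, and some edge `a' b'` with
`C s(a',b') = 0` is in a face outside `R`, derive a contradiction: by `h1` the edge `a b` has an end `u ∉ VC C`
where all faces are in `R`, and `a' b'` an end `u' ∉ VC C` where no face is in `R`; there is a walk from `u`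
to `v` and from `v` to `u'` in `av G (VC C)` (`h2`), so from `u` to `u'`; every edge on it is in some face
(`no_bridge`; third vertex from `third`), so by induction all faces at every vertex of the walk are in `R`;
contradiction at `u'` (its edge `a' b'` is in a face outside `R`).

So either no edge with `C e = 0` is in a face of `R`, or no edge with `C e = 0` is in a face outside `R`.
Replacing `R` by its complement (`FaceSys.compl`) in the second case, we are in the first case: every
face of `R` has its support inside that of `C`.  Some `i ∈ R` has `f i ≠ 0` (as `C ≠ 0`), and `Circ C`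
gives `f i = C`.
-/

set_option autoImplicit false

namespace Pool.Agent.Work.MP_3035da_co.K

open Finset

private theorem peri_fin {V ι : Type} [Fintype V] [Fintype ι] {G : SimpleGraph V} {f : ι → Chain V}
    (hf : FaceSys G f) {C : Chain V} (hc : Circ C) (R : Finset ι) (hR : C = ∑ i ∈ R, f i)
    (h : ∀ i ∈ R, ∀ e, f i e = 1 → C e ≠ 0) : ∃ i, f i = C := by
  obtain ⟨i, hi, hne⟩ : ∃ i ∈ R, f i ≠ 0 := by
    by_contra hcon
    push Not at hcon
    exact hc.2.1 (by rw [hR]; exact sum_eq_zero hcon)
  refine ⟨i, ?_⟩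
  rcases hc.2.2 G (f i) (hf.mem i) (fun e he => h i hi e ((ne_zero_iff _).mp he)) with h0 | h0
  · exact absurd h0 hne
  · exact h0

theorem peripheral {V ι : Type} [Fintype V] [Fintype ι] {G : SimpleGraph V} {f : ι → Chain V}
    (hG : TwoConn G) (hf : FaceSys G f) {C : Chain V} (hC : C ∈ cyc G) (hc : Circ C) (v : V)
    (h1 : ∀ a b, G.Adj a b → C s(a, b) = 0 → a ∉ VC C ∨ b ∉ VC C)
    (h2 : ∀ a ∈ U G, a ∉ VC C → (av G (VC C)).Reachable v a) : ∃ i, f i = C := by
  classical
  obtain ⟨R, hR⟩ := hf.span C hC
  by_cases hA : ∀ i ∈ R, ∀ e, f i e = 1 → C e ≠ 0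
  · exact peri_fin hf hc R hR hA
  by_cases hB : ∀ i ∈ Rᶜ, ∀ e, f i e = 1 → C e ≠ 0
  · exact peri_fin hf hc Rᶜ (by rw [hf.compl R, hR]) hB
  exfalso
  push Not at hA hB
  obtain ⟨i, hi, e, hie, hCe⟩ := hA
  obtain ⟨j, hj, e', hje, hCe'⟩ := hB
  rw [mem_compl] at hj
  have hclass : ∀ w, w ∉ VC C → (∀ i c, f i s(w, c) = 1 → i ∈ R) ∨
      (∀ i c, f i s(w, c) = 1 → i ∉ R) := by
    intro w hw
    apply same_class hG hf R w
    intro c
    rw [← hR]
    by_contra h
    exact hw ⟨c, h⟩
  -- an end off `C` for both edges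
  have hend : ∀ (i : ι) (e : Sym2 V), f i e = 1 → C e = 0 →
      ∃ w c, w ∉ VC C ∧ f i s(w, c) = 1 ∧ w ∈ U G := by
    intro i e hie hCe
    induction e with
    | _ a b =>
    have hab : G.Adj a b := hf.edge (i := i) (e := s(a, b)) (by rw [hie]; decide)
    rcases h1 a b hab hCe with h | h
    · exact ⟨a, b, h, hie, ⟨b, hab⟩⟩
    · exact ⟨b, a, h, by rw [Sym2.eq_swap]; exact hie, ⟨a, hab.symm⟩⟩
  obtain ⟨u, c, hu, hiu, huU⟩ := hend i e hie hCe
  obtain ⟨u', c', hu', hju, huU'⟩ := hend j e' hje hCe'
  have hgood : ∀ i c, f i s(u, c) = 1 → i ∈ R := by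
    rcases hclass u hu with h | h
    · exact h
    · exact absurd hi (h i c hiu)
  have hstep : ∀ w w', (av G (VC C)).Adj w w' → (∀ i c, f i s(w, c) = 1 → i ∈ R) →
      (∀ i c, f i s(w', c) = 1 → i ∈ R) := by
    intro w w' hadj h
    have hfi : f i ≠ 0 := by
      intro h0
      rw [h0] at hie
      exact zero_ne_one hie
    obtain ⟨d, hd, hdw, hdw'⟩ := third hf hfi w w'
    obtain ⟨k, hk⟩ := no_bridge hG hf hadj.1 hd hdw hdw'
    have hkR := h k w' hk
    rcases hclass w' hadj.2.2 with h' | h'
    · exact h'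
    · exact absurd hkR (h' k w (by rw [Sym2.eq_swap]; exact hk))
  have hwalk : ∀ w w', (av G (VC C)).Reachable w w' → (∀ i c, f i s(w, c) = 1 → i ∈ R) →
      (∀ i c, f i s(w', c) = 1 → i ∈ R) := by
    rintro w w' ⟨p⟩
    induction p with
    | nil => exact fun h => h
    | cons hadj _ ih => exact fun h => ih (hstep _ _ hadj h)
  exact hj (hwalk u u' ((h2 u huU hu).symm.trans (h2 u' huU' hu')) hgood j c' hju)

end Pool.Agent.Work.MP_3035da_co.K
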