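import Pool.Agent.Work.MP_3035da_co.K.GIn
import Pool.Agent.Work.MP_3035da_co.K.GOut
import Pool.Agent.Work.MP_3035da_co.K.GOutConn
import Pool.Agent.Work.MP_3035da_co.K.Periph
import Pool.Agent.Work.MP_3035da_co.K.Glue

/-!
Module CASEONE: if there is an inner edge then `G` is plane.

Let `e₀` be an inner edge (`C e₀ = 0`, `f i₀ e₀ = 1`, `i₀ ∈ S`).  It is an edge of `ctr G x y` that avoids `x`
(`inside`), so an edge of `G`, and not an edge of `gOut`; so `gOut` is plane (`MinCE.sub`), with a face
system `g`.  By `peripheral` (`gout_conn`, `gout_mem`, `gout_cut`, `gout_reach`, with `v = x`) some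
`g j = C`.  Use `glue` with `G₁ = gIn`, `i₁ = none` (face `C`, `gin_faces`) and `G₂ = gOut`, `i₂ = j`.

hsh at `e`: if `C e ≠ 0` the third alternative.  If `C e = 0`: if some face of `S` contains `e` then `e` is
not an edge of `gOut` and all `g` vanish at `e`; otherwise all faces of `gin_faces` vanish at `e`.

hG₁: `gIn ≤ G` (edges of `C` and of the faces of `S` avoid `x` and `y` and are edges of `ctr G x y`).

hspan: `z ∈ cyc G`.  Let `z₀` be `z` on the inner edges and `0` elsewhere, `b = bd z₀`.  For `u ∉ VC C`: `b u = 0`: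
if some inner edge is at `u` then all edges of `G` at `u` are inner, by `all_out` (otherwise `u ∈ U gOut`
and no inner edge is at `u`), so `b u = bd z u = 0`; if none is at `u` clear.  The sum of `b` is `0`
(`bd_parity`).  By `circ_fill` there is `A`, supported on `C`, with `bd A = b`.  `z₁ = z₀ + A ∈ cyc gIn` and
`z₂ = z + z₁ ∈ cyc gOut` (its support is: edges of `z` that are not inner, and edges of `C`).
-/

set_option autoImplicit false

namespace Pool.Agent.Work.MP_3035da_co.K

open Finset

private theorem in_edge {V ι : Type} [Fintype V] [Fintype ι] {G : SimpleGraph V}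
    {f : ι → Chain V} {x y : V} {C : Chain V} {S : Finset ι} (h : Sep (ctr G x y) f x C S)
    {a b : V} (hab : C s(a, b) ≠ 0 ∨ ∃ i ∈ S, f i s(a, b) = 1) : G.Adj a b := by
  have h1 : (ctr G x y).Adj a b := by
    rcases hab with h1 | ⟨i, hi, h1⟩
    · exact h.mem.1 _ h1
    · exact (h.fs.mem i).1 _ (by rw [h1]; decide)
  have h2 : a ≠ x ∧ b ≠ x := by
    rcases hab with h2 | ⟨i, hi, h2⟩
    · refine ⟨fun h3 => h.v_not ⟨b, h3 ▸ h2⟩, fun h3 => h.v_not ⟨a, ?_⟩⟩
      rw [Sym2.eq_swap]; exact h3 ▸ h2
    · refine ⟨fun h3 => ?_, fun h3 => ?_⟩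
      · have := h.inside i hi b
        rw [← h3, h2] at this
        exact absurd this (by decide)
      · have := h.inside i hi a
        rw [← h3, Sym2.eq_swap, h2] at this
        exact absurd this (by decide)
  rcases h1.2.2.2 with h3 | h3 | h3
  · exact h3
  · exact absurd h3.1 h2.1
  · exact absurd h3.1 h2.2

theorem case_one {V ι : Type} [Fintype V] [Fintype ι] {G : SimpleGraph V} {f : ι → Chain V}
    {x y : V} {C : Chain V} {S : Finset ι} (hG : MinCE G) (hxy : G.Adj x y)
    (h : Sep (ctr G x y) f x C S) {i₀ : ι} (hi₀ : i₀ ∈ S) {e₀ : Sym2 V} (he₀ : f i₀ e₀ = 1)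
    (hC₀ : C e₀ = 0) : False := by
  classical
  apply hG.not_plane
  have hle : gOut G f C S ≤ G := SimpleGraph.deleteEdges_le _
  have hmem : ∀ e, e ∈ (gOut G f C S).edgeSet ↔
      e ∈ G.edgeSet ∧ ¬ (C e = 0 ∧ ∃ i ∈ S, f i e = 1) := by
    intro e
    unfold gOut
    rw [SimpleGraph.edgeSet_deleteEdges]
    rfl
  have he₀G : e₀ ∈ G.edgeSet := by
    induction e₀ using Sym2.ind with
    | _ a b => exact in_edge h (Or.inr ⟨i₀, hi₀, he₀⟩)
  have he₀o : e₀ ∉ (gOut G f C S).edgeSet := fun h1 =>
    ((hmem e₀).mp h1).2 ⟨hC₀, i₀, hi₀, he₀⟩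
  obtain ⟨n, g, hg⟩ := hG.sub hle he₀G he₀o
  obtain ⟨j, hj⟩ := peripheral (gout_conn hG hxy h) hg (gout_mem hG hxy h) h.circ x
    (fun a b hab hC => gout_cut hG hxy h hab hC) (fun a ha haC => gout_reach hG hxy h ha haC)
  have hleIn : gIn f C S ≤ G := by
    intro a b hab
    have h1 : s(a, b) ∈ (gIn f C S).edgeSet := hab
    exact in_edge h ((mem_gIn h _).mp h1)
  refine glue (gin_faces h) hg none j hleIn hle ?_ ?_
  · intro z hz
    -- the part of z on the inner edges
    set z₀ : Chain V := fun e => if C e = 0 ∧ ∃ i ∈ S, f i e = 1 then z e else 0 with hz₀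
    have hz₀supp : ∀ e, z₀ e ≠ 0 → C e = 0 ∧ ∃ i ∈ S, f i e = 1 := by
      intro e he
      by_contra h1
      exact he (if_neg h1)
    have hz₀e : ∀ e, z₀ e ≠ 0 → e ∈ G.edgeSet := by
      intro e he
      apply hz.1 e
      intro h1
      apply he
      rw [hz₀]
      simp only [h1, ite_self]
    have hb : ∀ v, bd z₀ v ≠ 0 → v ∈ VC C := by
      intro v hv
      by_contra hvC
      apply hv
      by_cases hU : v ∈ U (gOut G f C S)
      · have h1 := (all_out hG hxy h hvC hU).1
        unfold bd
        refine sum_eq_zero fun d _ => ?_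
        by_contra h2
        obtain ⟨-, i, hi, h3⟩ := hz₀supp _ h2
        rw [h1 i hi d] at h3
        exact absurd h3 (by decide)
      · have h1 : ∀ d, z₀ s(v, d) = z s(v, d) := by
          intro d
          rw [hz₀]
          by_cases h2 : C s(v, d) = 0 ∧ ∃ i ∈ S, f i s(v, d) = 1
          · exact if_pos h2
          · refine Eq.trans (if_neg h2) ?_
            symm
            by_contra h3
            exact hU ⟨d, (hmem s(v, d)).mpr ⟨hz.1 _ h3, h2⟩⟩
        unfold bd
        rw [show ∑ w, z₀ s(v, w) = ∑ w, z s(v, w) from sum_congr rfl fun w _ => h1 w]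
        exact hz.2 v
    obtain ⟨A, hA, hbA⟩ := circ_fill h.circ (b := bd z₀) hb (bd_parity hz₀e)
    have hz1 : z₀ + A ∈ cyc (gIn f C S) := by
      refine ⟨fun e he => (mem_gIn h e).mpr ?_, fun v => ?_⟩
      · by_cases h1 : z₀ e = 0
        · left
          refine hA e fun h2 => he ?_
          rw [Pi.add_apply, h1, h2, add_zero]
        · exact Or.inr (hz₀supp e h1).2
      · rw [bd_add, hbA]
        exact CharTwo.add_self_eq_zero _
    refine ⟨z₀ + A, hz1, z + (z₀ + A), ⟨fun e he => ?_, fun v => ?_⟩, ?_⟩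
    · by_cases hin : C e = 0 ∧ ∃ i ∈ S, f i e = 1
      · exfalso
        apply he
        have h2 : A e = 0 := by
          by_contra h3
          exact hA e h3 hin.1
        rw [Pi.add_apply, Pi.add_apply, h2, hz₀]
        simp only [if_pos hin, add_zero]
        exact CharTwo.add_self_eq_zero _
      · have h2 : z₀ e = 0 := if_neg hin
        refine (hmem e).mpr ⟨?_, hin⟩
        by_cases h3 : z e = 0
        · have h4 : A e ≠ 0 := by
            intro h4
            apply he
            rw [Pi.add_apply, Pi.add_apply, h2, h3, h4]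
            rfl
          exact ((hmem e).mp ((gout_mem hG hxy h).1 e (hA e h4))).1
        · exact hz.1 e h3
    · rw [bd_add, hz.2 v, hz1.2 v, add_zero]
    · funext e
      simp only [Pi.add_apply]
      generalize z₀ e = p1
      generalize A e = p2
      generalize z e = p3
      revert p1 p2 p3
      decide
  · intro e
    by_cases hCe : C e = 0
    · by_cases hin : ∃ i ∈ S, f i e = 1
      · right; left
        intro k
        by_contra h1
        exact ((hmem e).mp ((hg.mem k).1 e h1)).2 ⟨hCe, hin⟩
      · left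
        push Not at hin
        rintro (_ | ⟨i, hi⟩)
        · exact hCe
        · rcases zo (f i e) with h1 | h1
          · exact h1
          · exact absurd h1 (hin i hi)
    · right; right
      refine ⟨(ne_zero_iff _).mp hCe, ?_⟩
      rw [hj]
      exact (ne_zero_iff _).mp hCe

end Pool.Agent.Work.MP_3035da_co.K
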