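import Pool.Agent.Work.MP_3035da_co.K.Link
import Pool.Agent.Work.MP_3035da_co.K.NoBridge
import Pool.Agent.Work.MP_3035da_co.K.UniqRel
import Pool.Agent.Work.MP_3035da_co.K.Circuits

/-!
Module CASETWO: if there are no inner edges then the graph without `v` is theta-free.

If all faces are `0` then `cyc G = {0}` and the claim is clear.  Otherwise by `third` and `no_bridge`
every edge of `G` is in some face.  Let `Sv = {i : ∃ d, f i s(v,d) = 1}` and `F = ∑ i ∈ Sv, f i`.  `F s(v,d) = 0`
for all `d` (all faces through `s(v,d)` are in `Sv`, and their number is 0 or 2).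

(*) Let `F e = 1`.  Exactly one face of `Sv` contains `e` (odd, at most 2) and exactly one face `i_e` outside
`Sv`.  Claim: the support of `f i_e` is inside that of `F`.  By `exists_circ` there is a circuit
`C ∈ cyc G` through `e` with support inside that of `F`.  `C = ∑ i ∈ S, f i`; `C` has no edge at `v`, so by
`same_class` and `FaceSys.compl` we may assume that no face at `v` is in `S`.  Then `Sep G f v C S` holds
(`outer`: a pair `e'` with `C e' ≠ 0` has `F e' = 1`, so a face of `Sv` contains it).  Some `i ∈ S` contains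
`e`; `i ∉ Sv`, so `i = i_e`; by `hyp` the support of `f i` is inside that of `C`.

Let `T` = `Sv` and all `i ∉ Sv` such that the support of `f i` is inside that of `F`.  Claim
`∑ i ∈ T, f i = 0`: at `e` with `F e = 0` the part over `Sv` is `0` and the others vanish; at `e` with
`F e = 1` the part over `Sv` is 1 and the others contribute `i_e` only, which is in `T` by (*).  `v ∈ U G`, so
some face is at `v` (in `T`, nonzero).  By `uniq_rel`, all nonzero faces are in `T`.

Let `z₁ ∈ cyc (av G {v})` be a circuit and `z₁ e ≠ 0`.  `z₁ ∈ cyc G` has no edge at `v`, so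
`z₁ = ∑ i ∈ R, f i` with no face at `v` in `R`.  Some `i ∈ R` contains `e`; `i ∉ Sv`, `f i ≠ 0`, so `i ∈ T` and
`F e = 1`, `i = i_e`.  For every `e'` with `f i e' = 1` we have `F e' = 1`, so the faces through `e'` are `i` and
a face of `Sv`, and `z₁ e' = 1`.  So the support of `f i` is inside that of `z₁`, `z₁ = f i = f i_e`
(`Circ z₁`).  The same for `z₂` with the same `e`; so `z₁ = z₂`.
-/

set_option autoImplicit false

namespace Pool.Agent.Work.MP_3035da_co.K

open Finset

private theorem two_val {V ι : Type} [Fintype V] [Fintype ι] {f : ι → Chain V} [DecidableEq ι]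
    {e : Sym2 V} {a b : ι} (hab : a ≠ b) (ha : f a e = 1) (hb : f b e = 1)
    (hu : ∀ k, f k e = 1 → k = a ∨ k = b) (S : Finset ι) :
    (∑ i ∈ S, f i) e = (if a ∈ S then 1 else 0) + (if b ∈ S then 1 else 0) := by
  have h1 : ∀ i, f i e = (if i = a then 1 else 0) + (if i = b then 1 else 0) := by
    intro i
    by_cases h : i = a
    · subst h; rw [if_pos rfl, if_neg hab, add_zero]; exact ha
    · by_cases h' : i = b
      · subst h'; rw [if_pos rfl, if_neg h, zero_add]; exact hb
      · rw [if_neg h, if_neg h', add_zero]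
        rcases zo (f i e) with h0 | h0
        · exact h0
        · rcases hu i h0 with h2 | h2
          · exact absurd h2 h
          · exact absurd h2 h'
  rw [Finset.sum_apply, sum_congr rfl (fun i _ => h1 i), sum_add_distrib, sum_ite_eq', sum_ite_eq']

theorem case_two {V ι : Type} [Fintype V] [Fintype ι] {G : SimpleGraph V} {f : ι → Chain V}
    {v : V} (hG : TwoConn G) (hf : FaceSys G f) (hv : v ∈ U G)
    (hyp : ∀ (C : Chain V) (S : Finset ι), Sep G f v C S → ∀ i ∈ S, ∀ e, f i e = 1 → C e ≠ 0) :
    ThetaFree (av G {v}) := by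
  classical
  have hav : av G {v} ≤ G := fun a b h => h.1
  by_cases h0 : ∀ i, f i = 0
  · rintro z₁ z₂ hz₁ - - - ⟨e, h1, -⟩
    obtain ⟨S, hS⟩ := hf.span z₁ (cyc_mono hav hz₁)
    exfalso
    apply h1
    rw [hS, sum_congr rfl (fun i _ => h0 i)]
    simp
  · obtain ⟨i₀, hi₀⟩ := not_forall.mp h0
    have nb : ∀ e ∈ G.edgeSet, ∃ i, f i e = 1 := by
      intro e he
      induction e using Sym2.ind with
      | _ a b =>
        obtain ⟨d, hd, hda, hdb⟩ := third hf hi₀ a b
        exact no_bridge hG hf he hd hda hdb
    set Sv : Finset ι := univ.filter (fun i => ∃ d, f i s(v, d) = 1) with hSv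
    have mSv : ∀ i, i ∈ Sv ↔ ∃ d, f i s(v, d) = 1 := by
      intro i; simp [hSv]
    set F : Chain V := ∑ i ∈ Sv, f i with hF
    have hFv : ∀ d, F s(v, d) = 0 := by
      intro d
      have h1 : F s(v, d) = ∑ i, f i s(v, d) := by
        rw [hF, Finset.sum_apply]
        refine sum_subset (subset_univ _) fun i _ hi => ?_
        rcases zo (f i s(v, d)) with h | h
        · exact h
        · exact absurd ((mSv i).mpr ⟨d, h⟩) hi
      rw [h1, ← Finset.sum_apply, hf.tot]
      rfl
    have hFmem : F ∈ cyc G := (cyc G).sum_mem fun i _ => hf.mem i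
    have key : ∀ e, F e = 1 → ∃ a ∈ Sv, ∃ b, b ∉ Sv ∧ f a e = 1 ∧ f b e = 1 ∧
        ∀ k, f k e = 1 → k = a ∨ k = b := by
      intro e he
      have h1 : ∃ a ∈ Sv, f a e = 1 := by
        by_contra hcon
        push Not at hcon
        have : F e = 0 := by
          rw [hF, Finset.sum_apply]
          refine sum_eq_zero fun i hi => ?_
          rcases zo (f i e) with h | h
          · exact h
          · exact absurd h (hcon i hi)
        rw [this] at he
        exact absurd he (by decide)
      obtain ⟨a, ha, hae⟩ := h1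
      obtain ⟨b, hba, hbe, hu⟩ := hf.pair hae
      refine ⟨a, ha, b, fun hb => ?_, hae, hbe, hu⟩
      have := two_val hba.symm hae hbe hu Sv
      rw [if_pos ha, if_pos hb, ← hF, he] at this
      exact absurd this (by decide)
    have uniq : ∀ e, F e = 1 → ∀ b b', b ∉ Sv → b' ∉ Sv → f b e = 1 → f b' e = 1 → b = b' := by
      intro e he b b' hb hb' h1 h2
      obtain ⟨a, ha, c, hc, -, -, hu⟩ := key e he
      have e1 : b = c := by
        rcases hu b h1 with h | h
        · exact absurd (h ▸ ha) hb
        · exact h
      have e2 : b' = c := by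
        rcases hu b' h2 with h | h
        · exact absurd (h ▸ ha) hb'
        · exact h
      rw [e1, e2]
    have choose : ∀ z ∈ cyc G, (∀ d, z s(v, d) = 0) →
        ∃ S : Finset ι, (∑ i ∈ S, f i = z) ∧ ∀ i ∈ S, ∀ d, f i s(v, d) = 0 := by
      intro z hz hzv
      obtain ⟨S, hS⟩ := hf.span z hz
      have hcl := same_class hG hf S v (by rw [← hS]; exact hzv)
      rcases hcl with h | h
      · refine ⟨Sᶜ, by rw [hf.compl S, hS], fun i hi d => ?_⟩
        rcases zo (f i s(v, d)) with h' | h'
        · exact h'
        · exact absurd (h i d h') (by simpa using hi)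
      · refine ⟨S, hS.symm, fun i hi d => ?_⟩
        rcases zo (f i s(v, d)) with h' | h'
        · exact h'
        · exact absurd hi (h i d h')
    have star : ∀ e, F e = 1 → ∀ b, b ∉ Sv → f b e = 1 → ∀ e', f b e' = 1 → F e' = 1 := by
      intro e he b hb hbe e' he'
      obtain ⟨C, hC, hCc, hCs, hCe⟩ := exists_circ hFmem (e := e) (by rw [he]; decide)
      have hCv : ∀ d, C s(v, d) = 0 := by
        intro d
        by_contra h
        exact hCs _ h (hFv d)
      obtain ⟨S, hS, hSin⟩ := choose C hC hCv
      have sep : Sep G f v C S := by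
        refine ⟨hG, hf, hv, hC, hCc, hS, hSin, fun e'' he'' => ?_⟩
        obtain ⟨a, ha, -, -, hae, -, -⟩ := key e'' ((ne_zero_iff _).mp (hCs _ he''))
        exact ⟨a, hae, (mSv a).mp ha⟩
      have hi : ∃ i ∈ S, f i e = 1 := by
        by_contra hcon
        push Not at hcon
        apply hCe
        rw [← hS, Finset.sum_apply]
        refine sum_eq_zero fun i hi => ?_
        rcases zo (f i e) with h | h
        · exact h
        · exact absurd h (hcon i hi)
      obtain ⟨i, hiS, hie⟩ := hi
      have hin : i ∉ Sv := by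
        intro h
        obtain ⟨d, hd⟩ := (mSv i).mp h
        rw [hSin i hiS d] at hd
        exact absurd hd (by decide)
      have hib : i = b := uniq e he i b hin hb hie hbe
      subst hib
      exact (ne_zero_iff _).mp (hCs _ (hyp C S sep i hiS e' he'))
    set T : Finset ι := univ.filter (fun i => i ∈ Sv ∨ ∀ e, f i e = 1 → F e = 1) with hT
    have mT : ∀ i, i ∈ T ↔ (i ∈ Sv ∨ ∀ e, f i e = 1 → F e = 1) := by
      intro i; simp [hT]
    have hTsum : ∑ i ∈ T, f i = 0 := by
      funext e
      rcases zo (F e) with he | he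
      · have : (∑ i ∈ T, f i) e = F e := by
          rw [hF, Finset.sum_apply, Finset.sum_apply]
          symm
          refine sum_subset (fun i hi => (mT i).mpr (Or.inl hi)) fun i hi hi' => ?_
          rcases (mT i).mp hi with h | h
          · exact absurd h hi'
          · rcases zo (f i e) with h' | h'
            · exact h'
            · rw [h e h'] at he; exact absurd he (by decide)
        rw [this, he]; rfl
      · obtain ⟨a, ha, b, hb, hae, hbe, hu⟩ := key e he
        have hab : a ≠ b := fun h => hb (h ▸ ha)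
        rw [two_val hab hae hbe hu T, if_pos ((mT a).mpr (Or.inl ha)),
          if_pos ((mT b).mpr (Or.inr (star e he b hb hbe)))]
        rfl
    have hTc : ∀ i ∉ T, f i = 0 := by
      rcases uniq_rel hG hf T hTsum with h | h
      · exfalso
        obtain ⟨w, hw⟩ := hv
        obtain ⟨k, hk⟩ := nb s(v, w) hw
        have : f k = 0 := h k ((mT k).mpr (Or.inl ((mSv k).mpr ⟨w, hk⟩)))
        rw [this] at hk
        exact absurd hk (by simp)
      · exact h
    have main : ∀ z ∈ cyc (av G {v}), Circ z → ∀ e, z e ≠ 0 →
        ∃ b, b ∉ Sv ∧ f b e = 1 ∧ F e = 1 ∧ f b = z := by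
      intro z hz hzc e he
      have hzv : ∀ d, z s(v, d) = 0 := by
        intro d
        by_contra h
        exact (hz.1 _ h).2.1 rfl
      obtain ⟨R, hR, hRin⟩ := choose z (cyc_mono hav hz) hzv
      have hi : ∃ i ∈ R, f i e = 1 := by
        by_contra hcon
        push Not at hcon
        apply he
        rw [← hR, Finset.sum_apply]
        refine sum_eq_zero fun i hi => ?_
        rcases zo (f i e) with h | h
        · exact h
        · exact absurd h (hcon i hi)
      obtain ⟨i, hiR, hie⟩ := hi
      have hnot : ∀ j ∈ R, j ∉ Sv := by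
        intro j hj h
        obtain ⟨d, hd⟩ := (mSv j).mp h
        rw [hRin j hj d] at hd
        exact absurd hd (by decide)
      have hin := hnot i hiR
      have hi0 : f i ≠ 0 := by
        intro h
        rw [h] at hie
        exact absurd hie (by simp)
      have hiT : i ∈ T := by
        by_contra h
        exact hi0 (hTc i h)
      have hsub : ∀ e', f i e' = 1 → F e' = 1 := by
        rcases (mT i).mp hiT with h | h
        · exact absurd h hin
        · exact h
      refine ⟨i, hin, hie, hsub e hie, hzc.eq_of_sub (hf.mem i) hi0 fun e' he' => ?_⟩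
      have he1 := (ne_zero_iff _).mp he'
      obtain ⟨a, ha, b, hb, hae, hbe, hu⟩ := key e' (hsub e' he1)
      have hib : b = i := uniq e' (hsub e' he1) b i hb hin hbe he1
      subst hib
      have hab : a ≠ b := fun h => hb (h ▸ ha)
      rw [← hR, two_val hab hae hbe hu R, if_pos hiR, if_neg (fun h => hnot a h ha)]
      decide
    rintro z₁ z₂ hz₁ hz₂ c₁ c₂ ⟨e, h1, h2⟩
    obtain ⟨b₁, hb₁, e₁, f₁, g₁⟩ := main z₁ hz₁ c₁ e h1
    obtain ⟨b₂, hb₂, e₂, f₂, g₂⟩ := main z₂ hz₂ c₂ e h2
    have : b₁ = b₂ := uniq e f₁ b₁ b₂ hb₁ hb₂ e₁ e₂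
    rw [← g₁, ← g₂, this]

end Pool.Agent.Work.MP_3035da_co.K
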