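import Pool.Agent.Work.MP_3035da_co.K.Basic

/-!
Module CHN (algebraic paths).

`sing e` is the chain with value 1 at `e` only.

bd_sing: for `a ≠ b`, `bd (sing s(a,b)) v = [v = a] + [v = b]`.  (Unfold; `s(v,w) = s(a,b)` iff
`(v,w) = (a,b)` or `(b,a)`.)

chain_of_reachable: induct on a walk from `a` to `b` (`SimpleGraph.Walk` recursion): for `nil` take `0`
(the boundary is `1 + 1 = 0` at `a`), for `cons h p` take `sing s(a,c) + (chain of p)`.

reachable_of_chain: let `K` be the set of vertices reachable from `a` in `H`; sum `bd c v` over `v ∈ K`: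
every edge of `H` with an end in `K` has both ends in `K`, so the double sum
`∑ v ∈ K, ∑ w, c s(v,w)` is `∑ v ∈ K, ∑ w ∈ K, c s(v,w)`, which is symmetric with zero diagonal
(`s(v,v)` is not an edge), hence `0` in `ZMod 2` (`Finset.sum_involution` on pairs, or split by a
linear order).  If `b ∉ K` the sum of the right sides is `1`.

parity: the same computation with `K = univ`: the sum of all boundaries of a chain supported on
edges of a graph is `0`; so if `bd c v = 0` for all `v ≠ w` then `bd c w = 0`.
-/

set_option autoImplicit false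

namespace Pool.Agent.Work.MP_3035da_co.K

open Finset

/-- the chain of one edge -/
noncomputable def sing {V : Type} (e : Sym2 V) : Chain V :=
  open Classical in fun e' => if e' = e then 1 else 0

theorem sing_self {V : Type} (e : Sym2 V) : sing e e = 1 := by simp [sing]

theorem sing_ne {V : Type} {e e' : Sym2 V} (h : e' ≠ e) : sing e e' = 0 := by simp [sing, h]

open Classical in
theorem bd_sing {V : Type} [Fintype V] {a b : V} (hab : a ≠ b) (v : V) :
    bd (sing s(a, b)) v = (if v = a then 1 else 0) + (if v = b then 1 else 0) := by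
  unfold bd sing
  have h : ∀ w : V, (if s(v, w) = s(a, b) then (1 : ZMod 2) else 0) =
      (if w = b then (if v = a then 1 else 0) else 0) +
        (if w = a then (if v = b then 1 else 0) else 0) := by
    intro w
    by_cases h1 : v = a
    · subst h1
      by_cases h2 : w = b
      · subst h2
        simp [hab]
      · have h3 : ¬ s(v, w) = s(v, b) := by
          intro h
          rcases Sym2.eq_iff.1 h with h | h
          · exact h2 h.2
          · exact hab h.1
        simp [h3, h2, hab]
    · by_cases h2 : v = b
      · subst h2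
        by_cases h3 : w = a
        · subst h3
          simp [h1, Sym2.eq_swap]
        · have h4 : ¬ s(v, w) = s(a, v) := by
            intro h
            rcases Sym2.eq_iff.1 h with h | h
            · exact h1 h.1
            · exact h3 h.2
          simp [h4, h3, h1]
      · have h4 : ¬ s(v, w) = s(a, b) := by
          intro h
          rcases Sym2.eq_iff.1 h with h | h
          · exact h1 h.1
          · exact h2 h.1
        simp [h4, h1, h2]
  rw [sum_congr rfl fun w _ => h w, sum_add_distrib, sum_ite_eq', sum_ite_eq']
  simp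

open Classical in
theorem chain_of_reachable {V : Type} [Fintype V] {H : SimpleGraph V} {a b : V}
    (h : H.Reachable a b) :
    ∃ c : Chain V, (∀ e, c e ≠ 0 → e ∈ H.edgeSet) ∧
      ∀ v, bd c v = (if v = a then 1 else 0) + (if v = b then 1 else 0) := by
  obtain ⟨p⟩ := h
  induction p with
  | nil =>
    refine ⟨0, fun e he => absurd rfl he, fun v => ?_⟩
    rw [bd_zero]
    exact (CharTwo.add_self_eq_zero _).symm
  | @cons u w t hadj p ih =>
    obtain ⟨c, hc, hb⟩ := ih
    refine ⟨sing s(u, w) + c, fun e he => ?_, fun v => ?_⟩
    · by_cases h1 : e = s(u, w)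
      · rw [h1]
        exact hadj
      · apply hc
        intro h2
        apply he
        rw [Pi.add_apply, sing_ne h1, h2, add_zero]
    · rw [bd_add, bd_sing hadj.ne, hb]
      have h1 : ∀ p q r : ZMod 2, (p + q) + (q + r) = p + r := by decide
      exact h1 _ _ _

private theorem symm_sum {V : Type} (c : Chain V) (hd : ∀ v, c s(v, v) = 0) (K : Finset V) :
    ∑ v ∈ K, ∑ w ∈ K, c s(v, w) = 0 := by
  classical
  induction K using Finset.induction_on with
  | empty => simp
  | insert a K ha ih =>
    rw [sum_insert ha, sum_insert ha, hd, zero_add]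
    have h1 : ∑ v ∈ K, ∑ w ∈ insert a K, c s(v, w) = ∑ v ∈ K, c s(a, v) := by
      have h2 : ∀ v ∈ K, ∑ w ∈ insert a K, c s(v, w) = c s(a, v) + ∑ w ∈ K, c s(v, w) := by
        intro v _
        rw [sum_insert ha, Sym2.eq_swap]
      rw [sum_congr rfl h2, sum_add_distrib, ih, add_zero]
    rw [h1]
    exact CharTwo.add_self_eq_zero _

private theorem diag {V : Type} {H : SimpleGraph V} {c : Chain V}
    (hc : ∀ e, c e ≠ 0 → e ∈ H.edgeSet) (v : V) : c s(v, v) = 0 := by
  by_contra h
  exact H.loopless.irrefl v (hc _ h)

open Classical in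
theorem reachable_of_chain {V : Type} [Fintype V] {H : SimpleGraph V} {a b : V} {c : Chain V}
    (hc : ∀ e, c e ≠ 0 → e ∈ H.edgeSet)
    (hb : ∀ v, bd c v = (if v = a then 1 else 0) + (if v = b then 1 else 0)) :
    H.Reachable a b := by
  by_contra hcon
  have h1 := symm_sum c (diag hc) (univ.filter fun v => H.Reachable a v)
  have h2 : ∀ v ∈ univ.filter (fun v => H.Reachable a v),
      ∑ w ∈ univ.filter (fun v => H.Reachable a v), c s(v, w) = bd c v := by
    intro v hv
    unfold bd
    apply sum_subset (subset_univ _)
    intro w _ hw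
    by_contra h
    apply hw
    rw [mem_filter] at hv ⊢
    refine ⟨mem_univ _, hv.2.trans ?_⟩
    have h3 : H.Adj v w := hc _ h
    exact h3.reachable
  rw [sum_congr rfl h2, sum_congr rfl fun v _ => hb v, sum_add_distrib, sum_ite_eq',
    sum_ite_eq'] at h1
  simp [hcon] at h1

theorem bd_parity {V : Type} [Fintype V] {H : SimpleGraph V} {c : Chain V}
    (hc : ∀ e, c e ≠ 0 → e ∈ H.edgeSet) : ∑ v, bd c v = 0 := symm_sum c (diag hc) univ

end Pool.Agent.Work.MP_3035da_co.K
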