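import Pool.Agent.Work.MP_3035da_co.K.Chn
import Pool.Agent.Work.MP_3035da_co.K.Glue
import Pool.Agent.Work.MP_3035da_co.K.KMono

/-!
Module CUTVERT: a minimal counterexample has no cut vertex.

Suppose `a`, `b ∈ U G`, both `≠ w`, and `b` is not reachable from `a` in `av G {w}`.  Let `K` be the set of
vertices reachable from `a` in `av G {w}` (`w ∉ K`: a vertex of `av G {w}` different from `a` that is
reachable has an edge in `av G {w}`, and `a ≠ w`).  `G₁`: edges of `G` with an end in `K`; `G₂`: the other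
edges.  At a vertex `v ≠ w` all edges of `G` are in `G₁` (if `v ∈ K`) or all are in `G₂` (if `v ∉ K`: if
`v ≠ w` and the edge `v u` has `u ∈ K` then `v ∈ K`).  For `z ∈ cyc G` let `z₁` be `z` on the edges of `G₁`
and `0` elsewhere, `z₂ = z - z₁ = z + z₁`.  `bd z₁ v = 0` for all `v ≠ w`, so also for `v = w` by `bd_parity`.
So `z₁ ∈ cyc G₁`, `z₂ ∈ cyc G₂`.  `G₁` misses an edge of `G` at `b` (`b ∈ U G`, `b ∉ K`, `b ≠ w`), `G₂` misses
an edge at `a`.  So both are plane (`MinCE.sub`) and `glue_disj` gives `Plane G`; contradiction.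
-/

set_option autoImplicit false

namespace Pool.Agent.Work.MP_3035da_co.K

open Finset

private theorem not_reach {V : Type} {H : SimpleGraph V} {a w : V} (haw : a ≠ w)
    (h : ∀ u, ¬ H.Adj w u) : ¬ H.Reachable a w := by
  intro h1
  obtain ⟨p⟩ := h1.symm
  cases p with
  | nil => exact haw rfl
  | cons h' p => exact h _ h'

theorem cut_vert {V : Type} [Fintype V] {G : SimpleGraph V} (hG : MinCE G) : TwoConn G := by
  classical
  intro w a b ha hb haw hbw
  by_contra hcon
  set K : Set V := {v | (av G {w}).Reachable a v} with hK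
  have hwK : w ∉ K := not_reach haw fun u hu => hu.2.1 rfl
  have haK : a ∈ K := SimpleGraph.Reachable.refl a
  have hbK : b ∉ K := hcon
  have hprop : ∀ {u v : V}, u ∈ K → G.Adj u v → v ≠ w → v ∈ K := by
    intro u v hu huv hv
    have h1 : (av G {w}).Adj u v := ⟨huv, fun h => hwK (h ▸ hu), fun h => hv h⟩
    exact SimpleGraph.Reachable.trans hu h1.reachable
  let G₁ : SimpleGraph V :=
    { Adj := fun p q => G.Adj p q ∧ (p ∈ K ∨ q ∈ K)
      symm := ⟨fun p q h => ⟨h.1.symm, h.2.symm⟩⟩
      loopless := ⟨fun p h => G.loopless.irrefl p h.1⟩ }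
  have hG₁ : G₁ ≤ G := fun p q h => h.1
  have hG₂ : av G K ≤ G := fun p q h => h.1
  -- both parts are plane
  obtain ⟨b', hbb'⟩ := hb
  obtain ⟨a', haa'⟩ := ha
  have hP₁ : Plane G₁ := by
    refine hG.sub hG₁ (e := s(b, b')) hbb' ?_
    rintro ⟨_, h | h⟩
    · exact hbK h
    · exact hbK (hprop h hbb'.symm hbw)
  have hP₂ : Plane (av G K) := by
    refine hG.sub hG₂ (e := s(a, a')) haa' ?_
    rintro ⟨_, h, _⟩
    exact h haK
  refine hG.not_plane (glue_disj hP₁ hP₂ hG₁ hG₂ (fun z hz => ?_) (fun e => ?_))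
  · set z₁ : Chain V := fun e => if e ∈ G₁.edgeSet then z e else 0 with hz₁
    have hsup₁ : ∀ e, z₁ e ≠ 0 → e ∈ G₁.edgeSet := by
      intro e he
      by_contra h
      exact he (if_neg h)
    have hbd : ∀ v, v ≠ w → bd z₁ v = 0 := by
      intro v hv
      by_cases hvK : v ∈ K
      · rw [← hz.2 v]
        unfold bd
        refine sum_congr rfl fun u _ => ?_
        by_cases h : z s(v, u) = 0
        · rw [h]
          simp only [hz₁]
          split_ifs <;> simp [h]
        · have h2 : G.Adj v u := hz.1 _ h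
          have h3 : s(v, u) ∈ G₁.edgeSet := ⟨h2, Or.inl hvK⟩
          simp only [hz₁]
          rw [if_pos h3]
      · unfold bd
        refine sum_eq_zero fun u _ => ?_
        by_contra h
        obtain ⟨h1, h2 | h2⟩ := (show G₁.Adj v u from hsup₁ _ h)
        · exact hvK h2
        · exact hvK (hprop h2 h1.symm hv)
    have hbd' : ∀ v, bd z₁ v = 0 := by
      intro v
      by_cases hv : v = w
      · subst hv
        have h1 := bd_parity hsup₁
        rwa [sum_eq_single v (fun u _ hu => hbd u hu) (fun h => absurd (mem_univ _) h)] at h1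
      · exact hbd v hv
    refine ⟨z₁, ⟨hsup₁, hbd'⟩, z + z₁, ⟨fun e he => ?_, fun v => ?_⟩, ?_⟩
    · by_cases h1 : e ∈ G₁.edgeSet
      · exfalso
        apply he
        rw [Pi.add_apply]
        simp only [hz₁]
        rw [if_pos h1]
        exact CharTwo.add_self_eq_zero _
      · have h2 : z e ≠ 0 := by
          intro h
          apply he
          rw [Pi.add_apply]
          simp only [hz₁]
          rw [if_neg h1, h, add_zero]
        have h3 := hz.1 e h2
        induction e using Sym2.ind with
        | _ p q =>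
          exact ⟨h3, fun h => h1 ⟨h3, Or.inl h⟩, fun h => h1 ⟨h3, Or.inr h⟩⟩
    · rw [bd_add, hz.2, hbd', add_zero]
    · rw [add_comm z z₁, ← add_assoc, chain_add_self, zero_add]
  · induction e using Sym2.ind with
    | _ p q =>
      rintro ⟨_, h | h⟩ ⟨_, h1, h2⟩
      · exact h1 h
      · exact h2 h

end Pool.Agent.Work.MP_3035da_co.K
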