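import Mathlib

/-!
Algebraic plane structures (MacLane) of finite simple graphs.

Chains are functions `Sym2 V → ZMod 2`; `bd` is the boundary; `cyc G` the cycle space of `G`.
A face system of `G` is a finite family of elements of the cycle space such that every pair lies in
no member or in exactly two members, and such that every element of the cycle space is a sum of
members.  `Plane G` says that `G` has a face system.  `KFree G` says that `G` has no `K₅` and no
`K₃₃` minor (branch sets).  Main theorem of this folder: `KFree G → Plane G`.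
-/

set_option autoImplicit false

namespace Pool.Agent.Work.MP_3035da_co.K

open Finset

/-- mod 2 chains -/
abbrev Chain (V : Type) := Sym2 V → ZMod 2

/-- the boundary of a chain at a vertex -/
noncomputable def bd {V : Type} [Fintype V] (z : Chain V) (v : V) : ZMod 2 := ∑ w : V, z s(v, w)

/-- the cycle space of a graph -/
def cyc {V : Type} [Fintype V] (G : SimpleGraph V) : Submodule (ZMod 2) (Chain V) where
  carrier := {z | (∀ e, z e ≠ 0 → e ∈ G.edgeSet) ∧ ∀ v, bd z v = 0}
  add_mem' := by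
    rintro a b ⟨ha, ha'⟩ ⟨hb, hb'⟩
    refine ⟨fun e he => ?_, fun v => ?_⟩
    · by_cases h : a e = 0
      · exact hb e (fun h' => he (by simp [h, h']))
      · exact ha e h
    · simp only [bd, Pi.add_apply, sum_add_distrib]
      rw [show ∑ w, a s(v, w) = 0 from ha' v, show ∑ w, b s(v, w) = 0 from hb' v, add_zero]
  zero_mem' := ⟨fun e he => absurd rfl he, fun v => by simp [bd]⟩
  smul_mem' := by
    rintro c a ⟨ha, ha'⟩
    refine ⟨fun e he => ha e (fun h => he (by simp [h])), fun v => ?_⟩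
    simp only [bd, Pi.smul_apply, ← smul_sum]
    rw [show ∑ w, a s(v, w) = 0 from ha' v, smul_zero]

/-- face systems -/
structure FaceSys {V ι : Type} [Fintype V] [Fintype ι] (G : SimpleGraph V) (f : ι → Chain V) :
    Prop where
  mem : ∀ i, f i ∈ cyc G
  two : ∀ e, (∀ i, f i e = 0) ∨ (univ.filter (fun i => f i e = 1)).card = 2
  span : ∀ z ∈ cyc G, ∃ S : Finset ι, z = ∑ i ∈ S, f i

/-- algebraically plane graphs -/
def Plane {V : Type} [Fintype V] (G : SimpleGraph V) : Prop :=
  ∃ (n : ℕ) (f : Fin n → Chain V), FaceSys G f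

/-- minor models of a pattern, by branch sets -/
def Mdl {V ι : Type} (R : ι → ι → Prop) (G : SimpleGraph V) : Prop :=
  ∃ B : ι → Set V, (∀ i, (G.induce (B i)).Connected) ∧
    (∀ i j, i ≠ j → Disjoint (B i) (B j)) ∧
    (∀ i j, R i j → ∃ u ∈ B i, ∃ w ∈ B j, G.Adj u w)

/-- the pattern `K₅` -/
def R5 : Fin 5 → Fin 5 → Prop := fun i j => i ≠ j

/-- the pattern `K₃₃` -/
def R33 : Fin 3 ⊕ Fin 3 → Fin 3 ⊕ Fin 3 → Prop :=
  fun i j => ∃ a b : Fin 3, i = Sum.inl a ∧ j = Sum.inr b

/-- no `K₅` minor and no `K₃₃` minor -/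
def KFree {V : Type} (G : SimpleGraph V) : Prop := ¬ Mdl R5 G ∧ ¬ Mdl R33 G

/-- the graph `G` without the edges that meet `X` (all vertices are kept) -/
def av {V : Type} (G : SimpleGraph V) (X : Set V) : SimpleGraph V where
  Adj a b := G.Adj a b ∧ a ∉ X ∧ b ∉ X
  symm := ⟨fun _ _ h => ⟨h.1.symm, h.2.2, h.2.1⟩⟩
  loopless := ⟨fun _ h => G.loopless.irrefl _ h.1⟩

/-- the vertices that are not isolated -/
def U {V : Type} (G : SimpleGraph V) : Set V := {v | ∃ w, G.Adj v w}

/-- no cut vertex, in the graph of the vertices that are not isolated -/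
def TwoConn {V : Type} (G : SimpleGraph V) : Prop :=
  ∀ w a b : V, a ∈ U G → b ∈ U G → a ≠ w → b ≠ w → (av G {w}).Reachable a b

/-- contraction of the edge `x y` to `x`; the vertex `y` becomes isolated -/
def ctr {V : Type} (G : SimpleGraph V) (x y : V) : SimpleGraph V where
  Adj a b := a ≠ b ∧ a ≠ y ∧ b ≠ y ∧ (G.Adj a b ∨ (a = x ∧ G.Adj y b) ∨ (b = x ∧ G.Adj a y))
  symm := ⟨by
    rintro a b ⟨h1, h2, h3, h4⟩
    refine ⟨h1.symm, h3, h2, ?_⟩
    rcases h4 with h | h | h
    · exact Or.inl h.symm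
    · exact Or.inr (Or.inr ⟨h.1, h.2.symm⟩)
    · exact Or.inr (Or.inl ⟨h.1, h.2.symm⟩)⟩
  loopless := ⟨fun _ h => h.1 rfl⟩

/-- minimal counterexamples -/
structure MinCE {V : Type} [Fintype V] (G : SimpleGraph V) : Prop where
  free : KFree G
  not_plane : ¬ Plane G
  min : ∀ G' : SimpleGraph V, G'.edgeSet.ncard < G.edgeSet.ncard → KFree G' → Plane G'

/-- circuits: nonzero elements of the cycle space of minimal support -/
def Circ {V : Type} [Fintype V] (z : Chain V) : Prop :=
  (∃ G : SimpleGraph V, z ∈ cyc G) ∧ z ≠ 0 ∧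
    ∀ (G : SimpleGraph V) (z' : Chain V), z' ∈ cyc G → (∀ e, z' e ≠ 0 → z e ≠ 0) → z' = 0 ∨ z' = z

/-- the vertices of a chain -/
def VC {V : Type} (C : Chain V) : Set V := {w | ∃ d, C s(w, d) ≠ 0}

/-- the situation at a circuit `C` on the boundary of the union of the faces at `v`; `S` is the set
of the faces on the side of `C` that does not contain `v` -/
structure Sep {V ι : Type} [Fintype V] [Fintype ι] (G : SimpleGraph V) (f : ι → Chain V) (v : V)
    (C : Chain V) (S : Finset ι) : Prop where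
  conn : TwoConn G
  fs : FaceSys G f
  hv : v ∈ U G
  mem : C ∈ cyc G
  circ : Circ C
  sum : ∑ i ∈ S, f i = C
  inside : ∀ i ∈ S, ∀ d, f i s(v, d) = 0
  outer : ∀ e, C e ≠ 0 → ∃ i, f i e = 1 ∧ ∃ d, f i s(v, d) = 1

/-- two circuits of `H` that share an edge are equal -/
def ThetaFree {V : Type} [Fintype V] (H : SimpleGraph V) : Prop :=
  ∀ z₁ z₂ : Chain V, z₁ ∈ cyc H → z₂ ∈ cyc H → Circ z₁ → Circ z₂ →
    (∃ e, z₁ e ≠ 0 ∧ z₂ e ≠ 0) → z₁ = z₂

end Pool.Agent.Work.MP_3035da_co.K
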