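import Pool.Agent.Work.MP_3035da_co.K.Basic

/-!
Module GIN: the face system of the inner side of `C`.

`gIn` is the graph of the edges `e` with `C e ≠ 0` or contained in a face of `S`.  Faces: `C` and the `f i`,
`i ∈ S` (index type `Option {i // i ∈ S}`).

mem: clear (all supports are edges of `G` and of `gIn`; use `cyc_of_supp`).
two: let `e` be a pair.  The number of faces of `S` through `e` has the parity of `C e`, and at most two
faces of `f` contain `e`.  If `C e = 0`: it is 0 or 2.  If `C e ≠ 0`: it is odd and at most 2, so 1; together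
with `C` this is 2.
span: let `z ∈ cyc gIn`, so `z ∈ cyc G` (`gIn ≤ G`), `z = ∑ i ∈ R, f i`.  Put `z' = ∑ i ∈ R ∩ S, f i` and
`z'' = ∑ i ∈ R \ S, f i = z + z'`.  Claim: the support of `z''` is inside that of `C`: let `z'' e ≠ 0`.  Some
face outside `S` contains `e`, and (support of `z` and `z'`) `e` is an edge of `gIn`.  If `C e = 0` then some
face of `S` contains `e`, and then by parity all faces through `e` are in `S`; contradiction.  So by
`Circ C`, `z'' = 0` or `z'' = C`, and `z = z' + z''` is a sum of the new faces.
-/

set_option autoImplicit false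

namespace Pool.Agent.Work.MP_3035da_co.K

open Finset

/-- the graph of the inner side -/
def gIn {V ι : Type} [Fintype V] (f : ι → Chain V) (C : Chain V) (S : Finset ι) : SimpleGraph V :=
  SimpleGraph.fromEdgeSet {e | C e ≠ 0 ∨ ∃ i ∈ S, f i e = 1}

open Classical in
private theorem univ_option_card_aux {V ι : Type} [Fintype V] [Fintype ι] (f : ι → Chain V)
    (C : Chain V) (S : Finset ι) (e : Sym2 V) :
    (univ.filter (fun o : Option {i // i ∈ S} =>
      (o.elim C (fun i => f i.1) : Chain V) e = 1)).card =
      (univ.filter (fun i : {i // i ∈ S} => f i.1 e = 1)).card + (if C e = 1 then 1 else 0) := by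
  have h : (univ : Finset (Option {i // i ∈ S})) = insertNone univ := rfl
  rw [h, card_filter, sum_insertNone, card_filter, add_comm]
  rfl

theorem mem_gIn {V ι : Type} [Fintype V] [Fintype ι] {G : SimpleGraph V} {f : ι → Chain V}
    {v : V} {C : Chain V} {S : Finset ι} (h : Sep G f v C S) (e : Sym2 V) :
    e ∈ (gIn f C S).edgeSet ↔ (C e ≠ 0 ∨ ∃ i ∈ S, f i e = 1) := by
  unfold gIn
  rw [SimpleGraph.edgeSet_fromEdgeSet]
  constructor
  · rintro ⟨h1, _⟩
    exact h1
  · intro h1
    refine ⟨h1, fun h2 => ?_⟩
    have h3 : e ∈ G.edgeSet := by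
      rcases h1 with h1 | ⟨i, _, hi⟩
      · exact h.mem.1 e h1
      · exact h.fs.edge (i := i) (by rw [hi]; decide)
    exact G.not_isDiag_of_mem_edgeSet h3 h2

private theorem gIn_le {V ι : Type} [Fintype V] [Fintype ι] {G : SimpleGraph V} {f : ι → Chain V}
    {v : V} {C : Chain V} {S : Finset ι} (h : Sep G f v C S) : gIn f C S ≤ G := by
  rw [← SimpleGraph.edgeSet_subset_edgeSet]
  intro e he
  rcases (mem_gIn h e).mp he with h1 | ⟨i, _, hi⟩
  · exact h.mem.1 e h1
  · exact h.fs.edge (i := i) (by rw [hi]; decide)

theorem gin_faces {V ι : Type} [Fintype V] [Fintype ι] {G : SimpleGraph V} {f : ι → Chain V}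
    {v : V} {C : Chain V} {S : Finset ι} (h : Sep G f v C S) :
    FaceSys (gIn f C S) (fun o : Option {i // i ∈ S} => o.elim C (fun i => f i.1)) := by
  classical
  have hCS : ∀ e, C e = ((S.filter (fun i => f i e = 1)).card : ZMod 2) := by
    intro e; rw [← sum_apply_card, h.sum]
  have hcard : ∀ e, (univ.filter (fun i : {i // i ∈ S} => f i.1 e = 1)).card =
      (S.filter (fun i => f i e = 1)).card := by
    intro e
    refine card_bij (fun i _ => i.1) ?_ ?_ ?_
    · intro i hi
      exact mem_filter.mpr ⟨i.2, (mem_filter.mp hi).2⟩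
    · intro a _ b _ hab
      exact Subtype.ext hab
    · intro i hi
      rw [mem_filter] at hi
      exact ⟨⟨i, hi.1⟩, mem_filter.mpr ⟨mem_univ _, hi.2⟩, rfl⟩
  have hle2 : ∀ e, (S.filter (fun i => f i e = 1)).card ≤ 2 := by
    intro e
    rcases h.fs.two e with h0 | h0
    · rw [filter_false_of_mem]
      · simp
      · intro i _ hi
        rw [h0 i] at hi; exact absurd hi (by decide)
    · exact (card_le_card (filter_subset_filter _ (subset_univ S))).trans h0.le
  refine ⟨?_, ?_, ?_⟩
  · rintro (_ | i)
    · exact cyc_of_supp h.mem fun e he => (mem_gIn h e).mpr (Or.inl he)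
    · exact cyc_of_supp (h.fs.mem i.1) fun e he =>
        (mem_gIn h e).mpr (Or.inr ⟨i.1, i.2, (ne_zero_iff _).mp he⟩)
  · intro e
    rw [univ_option_card_aux f C S e, hcard e]
    rcases zo (C e) with h0 | h1
    · have hev : Even (S.filter (fun i => f i e = 1)).card :=
        (ZMod.natCast_eq_zero_iff_even).mp (by rw [← hCS, h0])
      have := hle2 e
      obtain ⟨r, hr⟩ := hev
      have hr' : r = 0 ∨ r = 1 := by omega
      rcases hr' with rfl | rfl
      · left
        rintro (_ | i)
        · exact h0
        · rcases zo (f i.1 e) with h' | h'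
          · exact h'
          · exfalso
            have : i.1 ∈ S.filter (fun i => f i e = 1) := mem_filter.mpr ⟨i.2, h'⟩
            rw [card_eq_zero.mp hr] at this
            exact absurd this (notMem_empty _)
      · right
        rw [hr, h0]
        simp
    · right
      have hodd : ¬ Even (S.filter (fun i => f i e = 1)).card := by
        intro hev
        have := (ZMod.natCast_eq_zero_iff_even).mpr hev
        rw [← hCS, h1] at this
        exact absurd this (by decide)
      have := hle2 e
      rw [Nat.not_even_iff_odd] at hodd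
      obtain ⟨r, hr⟩ := hodd
      rw [h1, if_pos rfl]
      omega
  · intro z hz
    obtain ⟨R, hR⟩ := h.fs.span z (cyc_mono (gIn_le h) hz)
    have hsplit : z = ∑ i ∈ R ∩ S, f i + ∑ i ∈ R \ S, f i := by
      rw [hR, ← sum_union]
      · congr 1
        ext i
        simp only [mem_union, mem_inter, mem_sdiff]
        tauto
      · rw [disjoint_left]
        intro i hi hi'
        exact (mem_sdiff.mp hi').2 (mem_inter.mp hi).2
    have hmem : ∑ i ∈ R \ S, f i ∈ cyc G := (cyc G).sum_mem fun i _ => h.fs.mem i
    have hsupp : ∀ e, (∑ i ∈ R \ S, f i) e ≠ 0 → C e ≠ 0 := by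
      intro e he hCe
      obtain ⟨k, hk, hke⟩ : ∃ k ∈ R \ S, f k e ≠ 0 := by
        rw [Finset.sum_apply] at he
        exact exists_ne_zero_of_sum_ne_zero he
      have hkS : k ∉ S := (mem_sdiff.mp hk).2
      have hk1 : f k e = 1 := (ne_zero_iff _).mp hke
      -- no face of S contains e
      have hno : ∀ i ∈ S, f i e = 0 := by
        intro i hi
        rcases zo (f i e) with h' | h'
        · exact h'
        exfalso
        have hev : Even (S.filter (fun i => f i e = 1)).card :=
          (ZMod.natCast_eq_zero_iff_even).mp (by rw [← hCS, hCe])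
        have hpos : 0 < (S.filter (fun i => f i e = 1)).card :=
          card_pos.mpr ⟨i, mem_filter.mpr ⟨hi, h'⟩⟩
        have h2 : (univ.filter (fun i => f i e = 1)).card = 2 := by
          rcases h.fs.two e with h0 | h0
          · rw [h0 i] at h'; exact absurd h' (by decide)
          · exact h0
        have hlt : (S.filter (fun i => f i e = 1)).card <
            (univ.filter (fun i => f i e = 1)).card := by
          apply card_lt_card
          rw [ssubset_iff_of_subset (filter_subset_filter _ (subset_univ S))]
          exact ⟨k, mem_filter.mpr ⟨mem_univ _, hk1⟩, fun hc => hkS (mem_filter.mp hc).1⟩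
        obtain ⟨r, hr⟩ := hev
        omega
      have hz0 : z e = 0 := by
        by_contra hz0
        rcases (mem_gIn h e).mp (hz.1 e hz0) with h1 | ⟨i, hi, hi1⟩
        · exact h1 hCe
        · rw [hno i hi] at hi1; exact absurd hi1 (by decide)
      have h1 : (∑ i ∈ R ∩ S, f i) e = 0 := by
        rw [Finset.sum_apply]
        exact sum_eq_zero fun i hi => hno i (mem_inter.mp hi).2
      have h2 := congrFun hsplit e
      rw [Pi.add_apply, h1, hz0, zero_add] at h2
      exact he h2.symm
    have hins : ∑ i ∈ R ∩ S, f i = ∑ o ∈ (R.subtype (· ∈ S)).map Function.Embedding.some,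
        (o.elim C (fun i => f i.1) : Chain V) := by
      rw [sum_map]
      refine sum_bij' (fun i hi => ⟨i, (mem_inter.mp hi).2⟩) (fun i _ => i.1) ?_ ?_ ?_ ?_ ?_
      · intro i hi
        exact mem_subtype.mpr (mem_inter.mp hi).1
      · intro i hi
        exact mem_inter.mpr ⟨mem_subtype.mp hi, i.2⟩
      · intro i _; rfl
      · intro i _; rfl
      · intro i _; rfl
    rcases h.circ.2.2 G _ hmem hsupp with h0 | h0
    · refine ⟨(R.subtype (· ∈ S)).map Function.Embedding.some, ?_⟩
      rw [← hins, hsplit, h0, add_zero]
    · refine ⟨insert none ((R.subtype (· ∈ S)).map Function.Embedding.some), ?_⟩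
      rw [sum_insert, ← hins, hsplit, h0, add_comm]
      · rfl
      · simp

end Pool.Agent.Work.MP_3035da_co.K
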