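import Pool.Agent.Work.MP_3035da_co.K.LongB

/-!
Module LONGC: two end cycles, or one cycle.

closed_nbr: `p 0, …, p m` is a longest path with `p m` adjacent to `p 0`, `2 ≤ m`.  Let `w` be a neighbour of
`p i`.  `w` is on the path: otherwise `w, p i, p (i+1), …, p m, p 0, …, p (i-1)` is a longer path.  So
`w = p t`.  If the pair is not an edge of the closed sequence, let `i < t` (the other case is symmetric),
`t ≥ i + 2`, not (`i = 0` and `t = m`): the circuit of `p i, …, p t` (`seq_circ`) and that of `p 0, …, p m` share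
`s(p i, p (i+1))`, and `s(p t, p i)` is in the first only: contradiction to `ThetaFree`.

lp_main: take a longest path (`exists_long`) and its end cycles: `EndCyc H j p` (`long_end`) and, for the
reversed path `p' i = p (m-i)`, `EndCyc H j' p'` (`long_rev`, `long_end`).  Let `l = m - j'`.  If `j ≤ l`: the
first alternative (`p' i = p (m-i)` with `m - i ≥ l ≥ j ≥ 2`).  If `l < j`: the two circuits (`seq_circ`)
share the edge `s(p l, p (l+1))`, so they are equal; `p 0` is on the second so `l = 0`; `p m` is on the first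
so `j = m`; so `p m` is adjacent to `p 0`: second alternative.
-/

set_option autoImplicit false

namespace Pool.Agent.Work.MP_3035da_co.K

/-- the cyclic continuation of a closed path -/
private theorem cyc_adj {V : Type} {H : SimpleGraph V} {m : ℕ} {p : ℕ → V} (h : IsSeq H m p)
    (hlast : H.Adj (p m) (p 0)) (s : ℕ) : H.Adj (p (s % (m + 1))) (p ((s + 1) % (m + 1))) := by
  have hlt : s % (m + 1) < m + 1 := Nat.mod_lt _ (Nat.succ_pos m)
  have h1 : (s + 1) % (m + 1) = (s % (m + 1) + 1) % (m + 1) := by
    rw [Nat.mod_add_mod]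
  rcases Nat.lt_or_ge (s % (m + 1)) m with h2 | h2
  · rw [h1, Nat.mod_eq_of_lt (by omega : s % (m + 1) + 1 < m + 1)]
    exact h.adj _ h2
  · have h3 : s % (m + 1) = m := by omega
    rw [h1, h3, Nat.mod_self]
    exact hlast

private theorem mod_inj {m i a b : ℕ} (ha : a ≤ m) (hb : b ≤ m)
    (h : (i + a) % (m + 1) = (i + b) % (m + 1)) : a = b := by
  have h1 : (i + a) ≡ (i + b) [MOD (m + 1)] := h
  have h2 : a ≡ b [MOD (m + 1)] := Nat.ModEq.add_left_cancel' i h1
  exact Nat.ModEq.eq_of_lt_of_lt h2 (by omega) (by omega)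

/-- two vertices of a closed path which are adjacent but not cyclically consecutive -/
private theorem chord_aux {V : Type} [Fintype V] {H : SimpleGraph V} (ht : ThetaFree H)
    {m : ℕ} {p : ℕ → V} (h : IsSeq H m p) (hm : 2 ≤ m) (hlast : H.Adj (p m) (p 0)) {i t : ℕ}
    (hit : i + 2 ≤ t) (htm : t ≤ m) (hne : ¬ (i = 0 ∧ t = m)) (hadj : H.Adj (p t) (p i)) :
    False := by
  obtain ⟨z₁, hz₁, hc₁, he₁⟩ := seq_circ H m hm p h.inj h.adj hlast
  obtain ⟨z₂, hz₂, hc₂, he₂⟩ := seq_circ H (t - i) (by omega) (fun s => p (i + s))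
    (fun a b ha hb hab => by
      have := h.inj (i + a) (i + b) (by omega) (by omega) hab
      omega)
    (fun a ha => by
      have := h.adj (i + a) (by omega)
      simpa [add_assoc] using this)
    (by
      have e : i + (t - i) = t := by omega
      simpa [e] using hadj)
  have hz : z₁ = z₂ := by
    refine ht z₁ z₂ hz₁ hz₂ hc₁ hc₂ ⟨s(p i, p (i + 1)), ?_, ?_⟩
    · rw [he₁]
      exact Or.inr ⟨i, by omega, rfl⟩
    · rw [he₂]
      exact Or.inr ⟨0, by omega, by simp⟩
  have h3 : z₂ s(p t, p i) ≠ 0 := by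
    rw [he₂]
    refine Or.inl ?_
    have e : i + (t - i) = t := by omega
    simp [e]
  rw [← hz, he₁] at h3
  rcases h3 with h3 | ⟨a, ha, h3⟩
  · rw [Sym2.eq_iff] at h3
    rcases h3 with ⟨h4, h5⟩ | ⟨h4, h5⟩
    · have h6 := h.inj t m htm le_rfl h4
      have h7 := h.inj i 0 (by omega) (by omega) h5
      exact hne ⟨h7, h6⟩
    · have h6 := h.inj t 0 htm (by omega) h4
      omega
  · rw [Sym2.eq_iff] at h3
    rcases h3 with ⟨h4, h5⟩ | ⟨h4, h5⟩
    · have h6 := h.inj t a htm (by omega) h4
      have h7 := h.inj i (a + 1) (by omega) (by omega) h5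
      omega
    · have h6 := h.inj t (a + 1) htm (by omega) h4
      have h7 := h.inj i a (by omega) (by omega) h5
      omega

theorem closed_nbr {V : Type} [Fintype V] {H : SimpleGraph V} (ht : ThetaFree H)
    {m : ℕ} {p : ℕ → V} (h : IsLong H m p) (hm : 2 ≤ m) (hlast : H.Adj (p m) (p 0)) {i : ℕ}
    (hi : i ≤ m) {w : V} (hw : H.Adj (p i) w) :
    (i < m ∧ w = p (i + 1)) ∨ (0 < i ∧ w = p (i - 1)) ∨ (i = m ∧ w = p 0) ∨ (i = 0 ∧ w = p m) := by
  have hon : ∃ t, t ≤ m ∧ w = p t := by
    by_contra hcon
    push Not at hcon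
    have hlt : ∀ s : ℕ, s % (m + 1) ≤ m := fun s => by
      have : s % (m + 1) < m + 1 := Nat.mod_lt s (Nat.succ_pos m)
      omega
    have hseq : IsSeq H (m + 1) (fun s => if s = 0 then w else p ((i + (s - 1)) % (m + 1))) := by
      refine ⟨?_, ?_⟩
      · intro a b ha hb hab
        by_cases ha0 : a = 0
        · by_cases hb0 : b = 0
          · omega
          · simp only [ha0, hb0, if_true, if_false] at hab
            exact absurd hab (hcon _ (hlt _))
        · by_cases hb0 : b = 0
          · simp only [ha0, hb0, if_true, if_false] at hab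
            exact absurd hab.symm (hcon _ (hlt _))
          · simp only [ha0, hb0, if_false] at hab
            have h1 := h.seq.inj _ _ (hlt _) (hlt _) hab
            have h2 := mod_inj (by omega) (by omega) h1
            omega
      · intro a ha
        by_cases ha0 : a = 0
        · subst ha0
          simp only [if_true]
          have e : (i + (0 + 1 - 1)) % (m + 1) = i := by
            rw [show i + (0 + 1 - 1) = i by omega]
            exact Nat.mod_eq_of_lt (by omega)
          rw [if_neg (by omega), e]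
          exact hw.symm
        · have h1 := cyc_adj h.seq hlast (i + (a - 1))
          simp only [ha0, if_false]
          rw [if_neg (by omega), show i + (a + 1 - 1) = i + (a - 1) + 1 by omega]
          exact h1
    have := h.max _ _ hseq
    omega
  obtain ⟨t, htm, rfl⟩ := hon
  have hne : t ≠ i := by
    rintro rfl
    exact H.loopless.irrefl _ hw
  rcases Nat.lt_or_gt_of_ne hne with hlt | hgt
  · by_cases h1 : t + 1 = i
    · exact Or.inr (Or.inl ⟨by omega, by congr 1; omega⟩)
    · by_cases h2 : t = 0 ∧ i = m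
      · exact Or.inr (Or.inr (Or.inl ⟨h2.2, by rw [h2.1]⟩))
      · exact (chord_aux ht h.seq hm hlast (by omega) hi h2 hw).elim
  · by_cases h1 : i + 1 = t
    · exact Or.inl ⟨by omega, by rw [h1]⟩
    · by_cases h2 : i = 0 ∧ t = m
      · exact Or.inr (Or.inr (Or.inr ⟨h2.1, by rw [h2.2]⟩))
      · exact (chord_aux ht h.seq hm hlast (by omega) htm h2 hw.symm).elim

theorem lp_main {V : Type} [Fintype V] {H : SimpleGraph V} (hd : Deg2 H) (ht : ThetaFree H)
    {a b : V} (hab : H.Adj a b) :
    (∃ (k : ℕ) (p : ℕ → V) (k' : ℕ) (p' : ℕ → V), EndCyc H k p ∧ EndCyc H k' p' ∧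
      ∀ i ≤ k', p' i ≠ p 0 ∧ p' i ≠ p 1) ∨
    (∃ (m : ℕ) (p : ℕ → V), 2 ≤ m ∧ IsLong H m p ∧ H.Adj (p m) (p 0)) := by
  obtain ⟨m, p, hL, hm⟩ := exists_long hab
  have hL' := long_rev hL
  obtain ⟨j, hjm, hE⟩ := long_end hd ht hL hm
  obtain ⟨j', hjm', hE'⟩ := long_end hd ht hL' hm
  have hj2 := hE.hk
  have hj2' := hE'.hk
  have hinj := hL.seq.inj
  by_cases hle : j ≤ m - j'
  · left
    refine ⟨j, p, j', fun i => p (m - i), hE, hE', ?_⟩
    intro i hi
    constructor
    · intro hc
      have := hinj (m - i) 0 (by omega) (by omega) hc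
      omega
    · intro hc
      have := hinj (m - i) 1 (by omega) (by omega) hc
      omega
  · right
    obtain ⟨z₁, hz₁, hc₁, he₁⟩ := seq_circ H j hj2 p
      (fun a b ha hb hab => hinj a b (by omega) (by omega) hab) hE.seq.adj hE.last
    obtain ⟨z₂, hz₂, hc₂, he₂⟩ := seq_circ H j' hj2' (fun i => p (m - i)) hE'.seq.inj
      hE'.seq.adj hE'.last
    have hz : z₁ = z₂ := by
      refine ht z₁ z₂ hz₁ hz₂ hc₁ hc₂ ⟨s(p (m - j'), p (m - j' + 1)), ?_, ?_⟩
      · rw [he₁]
        exact Or.inr ⟨m - j', by omega, rfl⟩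
      · rw [he₂]
        refine Or.inr ⟨j' - 1, by omega, ?_⟩
        rw [Sym2.eq_swap]
        have e1 : m - j' + 1 = m - (j' - 1) := by omega
        have e2 : m - j' = m - (j' - 1 + 1) := by omega
        rw [e1, ← e2]
    -- the beginning of the path is on the second circuit
    have hl0 : m - j' = 0 := by
      by_contra hl
      have h3 : z₁ s(p 0, p 1) ≠ 0 := by
        rw [he₁]
        exact Or.inr ⟨0, by omega, rfl⟩
      rw [hz, he₂] at h3
      rcases h3 with h3 | ⟨a, ha, h3⟩
      · rw [Sym2.eq_iff] at h3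
        rcases h3 with ⟨h4, h5⟩ | ⟨h4, h5⟩
        · have := hinj 0 (m - j') (by omega) (by omega) h4
          omega
        · have := hinj 0 (m - 0) (by omega) (by omega) h4
          omega
      · rw [Sym2.eq_iff] at h3
        rcases h3 with ⟨h4, h5⟩ | ⟨h4, h5⟩
        · have := hinj 0 (m - a) (by omega) (by omega) h4
          omega
        · have := hinj 0 (m - (a + 1)) (by omega) (by omega) h4
          omega
    have hjm0 : j = m := by
      by_contra hl
      have h3 : z₂ s(p m, p (m - 1)) ≠ 0 := by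
        rw [he₂]
        exact Or.inr ⟨0, by omega, by simp⟩
      rw [← hz, he₁] at h3
      rcases h3 with h3 | ⟨a, ha, h3⟩
      · rw [Sym2.eq_iff] at h3
        rcases h3 with ⟨h4, h5⟩ | ⟨h4, h5⟩
        · have := hinj m j (by omega) (by omega) h4
          omega
        · have := hinj m 0 (by omega) (by omega) h4
          omega
      · rw [Sym2.eq_iff] at h3
        rcases h3 with ⟨h4, h5⟩ | ⟨h4, h5⟩
        · have := hinj m a (by omega) (by omega) h4
          omega
        · have := hinj m (a + 1) (by omega) (by omega) h4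
          omega
    subst hjm0
    exact ⟨j, p, hj2, hL, hE.last⟩

end Pool.Agent.Work.MP_3035da_co.K
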