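import Pool.Agent.Work.MP_3035da_co.K.DegTwo
import Pool.Agent.Work.MP_3035da_co.K.CutVert
import Pool.Agent.Work.MP_3035da_co.K.Triang

/-!
Module NOTRI: in a minimal counterexample no vertex of degree 3 is in a triangle.

Suppose `u` has at most 3 neighbours; it has exactly 3 by `deg_ge`: `x`, `y` and a third `u'`.
`G₁ = G.deleteEdges {s(x,y)}` is plane (`MinCE.sub`), face system `f`.  Claim: some face contains both
`s(x,u)` and `s(y,u)`; then `add_tri` (with `a = x`, `b = y`, `c = u`) gives `Plane G`, a contradiction.

Proof of the claim.  First, `s(u,x)` is in some face, that is in some element of `cyc G₁`: `x` has a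
neighbour `d ≠ u, y` (`deg_ge`), `d` and `u` are joined in `av G {x}` (`cut_vert`), and the chain `c` of this
(`chain_of_reachable`) is supported on edges of `G` that avoid `x`, in particular not `s(x,y)`; so
`c + sing s(x,u) + sing s(x,d) ∈ cyc G₁` has value 1 at `s(u,x)`.  In the same way `s(u,y)` is in a face.
By `FaceSys.two` there are exactly two faces through `s(u,x)` and exactly two through `s(u,y)`.  If no face
contains both, then each of these four (different) faces contains `s(u,u')`, as its boundary at `u` is
`0` and `u` has only the neighbours `x`, `y`, `u'`; but at most two faces contain `s(u,u')`.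
-/

set_option autoImplicit false

namespace Pool.Agent.Work.MP_3035da_co.K

open Finset

open Classical in
/-- some face goes through `s(p,u)` -/
private theorem no_tri_face {V : Type} [Fintype V] {G : SimpleGraph V} (hG : MinCE G) {u p q : V}
    (hup : G.Adj u p) (huq : G.Adj u q) (hpq : G.Adj p q) {n : ℕ} {f : Fin n → Chain V}
    (hf : FaceSys (G.deleteEdges {s(p, q)}) f) : ∃ i, f i s(u, p) = 1 := by
  have h3 := deg_ge hG (v := p) ⟨q, hpq⟩
  obtain ⟨d, hd, hdu, hdq⟩ : ∃ d, G.Adj p d ∧ d ≠ u ∧ d ≠ q := by
    by_contra hc
    push Not at hc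
    have h4 : G.neighborSet p ⊆ {u, q} := by
      intro d hd
      by_cases h : d = u
      · exact Or.inl h
      · exact Or.inr (hc d hd h)
    have h5 := Set.ncard_le_ncard h4 (Set.toFinite _)
    have h6 := Set.ncard_insert_le u {q}
    rw [Set.ncard_singleton] at h6
    omega
  have hr := cut_vert hG p d u ⟨p, hd.symm⟩ ⟨p, hup⟩ hd.ne.symm hup.ne
  obtain ⟨c, hc1, hc2⟩ := chain_of_reachable hr
  have hcp : ∀ w, c s(p, w) = 0 := by
    intro w
    by_contra hne
    have := hc1 _ hne
    rw [SimpleGraph.mem_edgeSet] at this
    exact this.2.1 rfl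
  set z : Chain V := c + sing s(p, u) + sing s(p, d) with hz
  have hzc : z ∈ cyc (G.deleteEdges {s(p, q)}) := by
    constructor
    · intro e he
      rw [SimpleGraph.edgeSet_deleteEdges, Set.mem_diff, Set.mem_singleton_iff]
      by_cases h1 : e = s(p, u)
      · subst h1
        refine ⟨hup.symm, ?_⟩
        intro h
        rcases Sym2.eq_iff.1 h with ⟨_, h2⟩ | ⟨h2, _⟩
        · exact huq.ne h2
        · exact hpq.ne h2
      · by_cases h2 : e = s(p, d)
        · subst h2
          refine ⟨hd, ?_⟩
          intro h
          rcases Sym2.eq_iff.1 h with ⟨_, h2⟩ | ⟨h2, _⟩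
          · exact hdq h2
          · exact hpq.ne h2
        · have h3 : c e ≠ 0 := by
            intro h0
            apply he
            simp [hz, h0, sing_ne h1, sing_ne h2]
          have h4 := hc1 e h3
          have h5 : e ∈ G.edgeSet := by
            induction e using Sym2.ind with
            | _ a b => exact h4.1
          refine ⟨h5, ?_⟩
          rintro rfl
          exact h3 (hcp q)
    · intro v
      rw [hz, bd_add, bd_add, hc2, bd_sing hup.ne.symm, bd_sing hd.ne]
      generalize (if v = d then (1 : ZMod 2) else 0) = A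
      generalize (if v = u then (1 : ZMod 2) else 0) = B
      generalize (if v = p then (1 : ZMod 2) else 0) = C
      revert A B C
      decide
  have hz1 : z s(p, u) = 1 := by
    have h1 : sing s(p, d) s(p, u) = 0 := by
      apply sing_ne
      intro h
      rcases Sym2.eq_iff.1 h with ⟨_, h2⟩ | ⟨h2, _⟩
      · exact hdu h2.symm
      · exact hd.ne h2
    simp [hz, hcp u, sing_self, h1]
  obtain ⟨S, hS⟩ := hf.span z hzc
  by_contra hcon
  push Not at hcon
  have h0 : z s(p, u) = 0 := by
    rw [hS, Finset.sum_apply]
    refine sum_eq_zero fun i _ => ?_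
    have := hcon i
    rw [Sym2.eq_swap] at this
    rcases zo (f i s(p, u)) with h | h
    · exact h
    · exact absurd h this
  rw [h0] at hz1
  exact zero_ne_one hz1

theorem no_tri {V : Type} [Fintype V] {G : SimpleGraph V} (hG : MinCE G) {u x y : V}
    (hux : G.Adj u x) (huy : G.Adj u y) (hxy : G.Adj x y) : 4 ≤ (G.neighborSet u).ncard := by
  classical
  by_contra hlt
  have h3 := deg_ge hG (v := u) ⟨x, hux⟩
  have hcard : (G.neighborSet u).ncard = 3 := by omega
  -- the third neighbour
  obtain ⟨u', hu'⟩ : ∃ u', G.neighborSet u \ {x, y} = {u'} := by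
    rw [← Set.ncard_eq_one, Set.ncard_diff, hcard]
    · rw [Set.ncard_pair hxy.ne]
    · rintro w (rfl | rfl)
      · exact hux
      · exact huy
  have hu1 : G.Adj u u' ∧ u' ≠ x ∧ u' ≠ y := by
    have : u' ∈ G.neighborSet u \ {x, y} := by rw [hu']; rfl
    exact ⟨this.1, fun h => this.2 (Or.inl h), fun h => this.2 (Or.inr h)⟩
  have hnb : ∀ w, G.Adj u w → w = x ∨ w = y ∨ w = u' := by
    intro w hw
    by_cases h1 : w = x
    · exact Or.inl h1
    by_cases h2 : w = y
    · exact Or.inr (Or.inl h2)
    have : w ∈ G.neighborSet u \ {x, y} := ⟨hw, fun h => by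
      rcases h with h | h
      · exact h1 h
      · exact h2 h⟩
    rw [hu'] at this
    exact Or.inr (Or.inr this)
  have hplane : Plane (G.deleteEdges {s(x, y)}) := by
    refine hG.sub (SimpleGraph.deleteEdges_le _) (e := s(x, y)) hxy ?_
    rw [SimpleGraph.edgeSet_deleteEdges]
    exact fun h => h.2 rfl
  obtain ⟨n, f, hf⟩ := hplane
  obtain ⟨ix, hix⟩ := no_tri_face hG hux huy hxy hf
  have hf' : FaceSys (G.deleteEdges {s(y, x)}) f := by
    have : s(y, x) = s(x, y) := Sym2.eq_swap
    rw [this]; exact hf
  obtain ⟨iy, hiy⟩ := no_tri_face hG huy hux hxy.symm hf'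
  -- a face through both
  have hboth : ∃ i, f i s(u, x) = 1 ∧ f i s(u, y) = 1 := by
    by_contra hno
    push Not at hno
    have hb : ∀ i, f i s(u, x) + f i s(u, y) + f i s(u, u') = 0 := by
      intro i
      have h1 := (hf.mem i).2 u
      unfold bd at h1
      rw [← h1, ← sum_subset (subset_univ ({x, y, u'} : Finset V))]
      · rw [sum_insert, sum_insert, sum_singleton, add_assoc]
        · rw [mem_singleton]; exact hu1.2.2.symm
        · rw [mem_insert, mem_singleton, not_or]
          exact ⟨hxy.ne, hu1.2.1.symm⟩
      · intro w _ hw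
        by_contra hne
        have h2 := (hf.mem i).1 _ hne
        rw [SimpleGraph.edgeSet_deleteEdges] at h2
        have h4 := hnb w h2.1
        simp only [mem_insert, mem_singleton] at hw
        exact hw h4
    have k1 : ∀ i, f i s(u, x) = 1 → f i s(u, u') = 1 := by
      intro i hi
      have h1 := hb i
      rcases zo (f i s(u, y)) with h2 | h2
      · rw [hi, h2] at h1
        rcases zo (f i s(u, u')) with h4 | h4
        · rw [h4] at h1; exact absurd h1 (by decide)
        · exact h4
      · exact absurd h2 (hno i hi)
    have k2 : ∀ i, f i s(u, y) = 1 → f i s(u, u') = 1 := by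
      intro i hi
      have h1 := hb i
      rcases zo (f i s(u, x)) with h2 | h2
      · rw [hi, h2] at h1
        rcases zo (f i s(u, u')) with h4 | h4
        · rw [h4] at h1; exact absurd h1 (by decide)
        · exact h4
      · exact absurd hi (hno i h2)
    have c1 : (univ.filter (fun i => f i s(u, x) = 1)).card = 2 := by
      rcases hf.two s(u, x) with h | h
      · rw [h ix] at hix; exact absurd hix (by decide)
      · exact h
    have c2 : (univ.filter (fun i => f i s(u, y) = 1)).card = 2 := by
      rcases hf.two s(u, y) with h | h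
      · rw [h iy] at hiy; exact absurd hiy (by decide)
      · exact h
    have c3 : (univ.filter (fun i => f i s(u, u') = 1)).card ≤ 2 := by
      rcases hf.two s(u, u') with h | h
      · have : univ.filter (fun i => f i s(u, u') = 1) = ∅ := by
          ext i; simp [h i]
        rw [this]; simp
      · exact h.le
    have c4 : (univ.filter (fun i => f i s(u, x) = 1)) ∪ (univ.filter (fun i => f i s(u, y) = 1)) ⊆
        univ.filter (fun i => f i s(u, u') = 1) := by
      intro i hi
      simp only [mem_union, mem_filter, mem_univ, true_and] at hi ⊢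
      rcases hi with hi | hi
      · exact k1 i hi
      · exact k2 i hi
    have c5 := card_le_card c4
    rw [card_union_of_disjoint, c1, c2] at c5
    · omega
    · rw [disjoint_left]
      intro i hi hi'
      simp only [mem_filter, mem_univ, true_and] at hi hi'
      exact hno i hi hi'
  obtain ⟨i, h1, h2⟩ := hboth
  refine hG.not_plane (add_tri hxy huy.symm hux.symm hf (i₁ := i) ?_ ?_)
  · rw [Sym2.eq_swap]; exact h1
  · rw [Sym2.eq_swap]; exact h2

end Pool.Agent.Work.MP_3035da_co.K
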