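import Pool.Agent.Work.MP_3035da_co.K.SeqDefs
import Pool.Agent.Work.MP_3035da_co.K.NoTri
import Pool.Agent.Work.MP_3035da_co.K.LongC

/-!
Module RIMA.

h_deg: let `v ∈ U G`, `v ≠ x, y`.  `v` has at least 3 neighbours in `G` (`deg_ge`).  If at most one of them is
different from `x` and `y` then `v` has exactly 3 neighbours, two of them `x`, `y`, and `v x y` is a triangle:
`no_tri`.  So two different neighbours are not in `{x,y}`, and they are neighbours in `av G {x,y}`.

rim_of: `c i = p (i % (m+1))`, `n = m + 1`.  All vertices `p i` are `≠ x, y` (they have an edge in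
`av G {x,y}`).  `adj`: for `i % (m+1) < m` by `IsSeq.adj`, for `i % (m+1) = m` the closing edge.  `nb`: a
neighbour `w ≠ x, y` of `p i` in `G` is a neighbour in `av G {x,y}`; use `closed_nbr`.

rim_alt: in a minimal counterexample with `Rim G x y n c`: every `c i` is adjacent to `x` or `y` (`deg_ge`: besides
`x`, `y` it has at most two neighbours).  If `c i` is adjacent to `x` and not to `y` then it has exactly 3
neighbours, so by `no_tri` it is in no triangle; so `c (i+1)` is not adjacent to `x`, hence adjacent to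
`y`.  The same with `x` and `y` exchanged.
-/

set_option autoImplicit false

namespace Pool.Agent.Work.MP_3035da_co.K

theorem h_deg {V : Type} [Fintype V] {G : SimpleGraph V} (hG : MinCE G) {x y : V}
    (hxy : G.Adj x y) {v : V} (hv : v ∈ U G) (hvx : v ≠ x) (hvy : v ≠ y) :
    ∃ a b, a ≠ b ∧ (av G {x, y}).Adj v a ∧ (av G {x, y}).Adj v b := by
  classical
  by_contra hcon
  push Not at hcon
  have hS : ({w | G.Adj v w ∧ w ≠ x ∧ w ≠ y} : Set V).Subsingleton := by
    rintro a ⟨ha, hax, hay⟩ b ⟨hb, hbx, hby⟩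
    by_contra hab
    refine hcon a b hab ⟨ha, ?_, ?_⟩ ⟨hb, ?_, ?_⟩ <;> simp_all
  have hcard := deg_ge hG hv
  have hSc : ({w | G.Adj v w ∧ w ≠ x ∧ w ≠ y} : Set V).ncard ≤ 1 :=
    Set.ncard_le_one_iff_subsingleton.mpr hS
  have hx : G.Adj v x := by
    by_contra hx
    have hsub : G.neighborSet v ⊆ insert y {w | G.Adj v w ∧ w ≠ x ∧ w ≠ y} := by
      intro w hw
      have hw' : G.Adj v w := hw
      by_cases hwy : w = y
      · exact Or.inl hwy
      · refine Or.inr ⟨hw', ?_, hwy⟩
        rintro rfl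
        exact hx hw'
    have h1 := Set.ncard_le_ncard hsub (Set.toFinite _)
    have h2 := Set.ncard_insert_le y {w | G.Adj v w ∧ w ≠ x ∧ w ≠ y}
    omega
  have hy : G.Adj v y := by
    by_contra hy
    have hsub : G.neighborSet v ⊆ insert x {w | G.Adj v w ∧ w ≠ x ∧ w ≠ y} := by
      intro w hw
      have hw' : G.Adj v w := hw
      by_cases hwx : w = x
      · exact Or.inl hwx
      · refine Or.inr ⟨hw', hwx, ?_⟩
        rintro rfl
        exact hy hw'
    have h1 := Set.ncard_le_ncard hsub (Set.toFinite _)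
    have h2 := Set.ncard_insert_le x {w | G.Adj v w ∧ w ≠ x ∧ w ≠ y}
    omega
  have h4 := no_tri hG hx hy hxy
  have hsub : G.neighborSet v ⊆ insert x (insert y {w | G.Adj v w ∧ w ≠ x ∧ w ≠ y}) := by
    intro w hw
    have hw' : G.Adj v w := hw
    by_cases hwx : w = x
    · exact Or.inl hwx
    · by_cases hwy : w = y
      · exact Or.inr (Or.inl hwy)
      · exact Or.inr (Or.inr ⟨hw', hwx, hwy⟩)
  have h1 := Set.ncard_le_ncard hsub (Set.toFinite _)
  have h2 := Set.ncard_insert_le x (insert y {w | G.Adj v w ∧ w ≠ x ∧ w ≠ y})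
  have h3 := Set.ncard_insert_le y {w | G.Adj v w ∧ w ≠ x ∧ w ≠ y}
  omega

private theorem rim_cyc_adj {V : Type} {H : SimpleGraph V} {m : ℕ} {p : ℕ → V}
    (h : IsSeq H m p) (hlast : H.Adj (p m) (p 0)) (s : ℕ) :
    H.Adj (p (s % (m + 1))) (p ((s + 1) % (m + 1))) := by
  have hlt : s % (m + 1) < m + 1 := Nat.mod_lt _ (Nat.succ_pos m)
  have h1 : (s + 1) % (m + 1) = (s % (m + 1) + 1) % (m + 1) := by
    rw [Nat.mod_add_mod]
  rcases Nat.lt_or_ge (s % (m + 1)) m with h2 | h2
  · rw [h1, Nat.mod_eq_of_lt (by omega : s % (m + 1) + 1 < m + 1)]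
    exact h.adj _ h2
  · have h3 : s % (m + 1) = m := by omega
    rw [h1, h3, Nat.mod_self]
    exact hlast

theorem rim_of {V : Type} [Fintype V] {G : SimpleGraph V} {x y : V}
    (ht : ThetaFree (av G {x, y})) {m : ℕ} {p : ℕ → V} (hm : 2 ≤ m)
    (h : IsLong (av G {x, y}) m p) (hlast : (av G {x, y}).Adj (p m) (p 0)) :
    Rim G x y (m + 1) (fun i => p (i % (m + 1))) := by
  have hadj := rim_cyc_adj h.seq hlast
  have hlt : ∀ s : ℕ, s % (m + 1) < m + 1 := fun s => Nat.mod_lt s (Nat.succ_pos m)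
  refine ⟨by omega, ?_, ?_, ?_, ?_, ?_, ?_⟩
  · intro i
    simp only [Nat.add_mod_right]
  · intro i j hi hj hij
    simp only [Nat.mod_eq_of_lt hi, Nat.mod_eq_of_lt hj] at hij
    exact h.seq.inj i j (by omega) (by omega) hij
  · intro i
    exact (hadj i).1
  · intro i hc
    exact (hadj i).2.1 (by simp [hc])
  · intro i hc
    exact (hadj i).2.1 (by simp [hc])
  · intro i w hw
    by_cases hwx : w = x
    · exact Or.inl hwx
    by_cases hwy : w = y
    · exact Or.inr (Or.inl hwy)
    have hH : (av G {x, y}).Adj (p (i % (m + 1))) w :=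
      ⟨hw, (hadj i).2.1, by simp [hwx, hwy]⟩
    have hi' := hlt i
    have e1 : (i + 1) % (m + 1) = (i % (m + 1) + 1) % (m + 1) := by
      rw [Nat.mod_add_mod]
    have e2 : (i + (m + 1) - 1) % (m + 1) = (i % (m + 1) + m) % (m + 1) := by
      rw [Nat.mod_add_mod]
      rfl
    rcases closed_nbr ht h hm hlast (by omega : i % (m + 1) ≤ m) hH with
      ⟨h1, h2⟩ | ⟨h1, h2⟩ | ⟨h1, h2⟩ | ⟨h1, h2⟩
    · right; right; left
      rw [h2]
      show p (i % (m + 1) + 1) = p ((i + 1) % (m + 1))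
      rw [e1, Nat.mod_eq_of_lt (by omega : i % (m + 1) + 1 < m + 1)]
    · right; right; right
      rw [h2]
      show p (i % (m + 1) - 1) = p ((i + (m + 1) - 1) % (m + 1))
      rw [e2, show i % (m + 1) + m = (i % (m + 1) - 1) + (m + 1) by omega, Nat.add_mod_right,
        Nat.mod_eq_of_lt (by omega : i % (m + 1) - 1 < m + 1)]
    · right; right; left
      rw [h2]
      show p 0 = p ((i + 1) % (m + 1))
      rw [e1, h1, Nat.mod_self]
    · right; right; right
      rw [h2]
      show p m = p ((i + (m + 1) - 1) % (m + 1))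
      rw [e2, h1, zero_add, Nat.mod_eq_of_lt (Nat.lt_succ_self m)]

private theorem ncard_pair_le {V : Type} (a b : V) : ({a, b} : Set V).ncard ≤ 2 := by
  have h1 := Set.ncard_insert_le a {b}
  rw [Set.ncard_singleton] at h1
  exact h1

private theorem ncard_triple_le {V : Type} (a b c : V) : ({a, b, c} : Set V).ncard ≤ 3 := by
  have h1 := Set.ncard_insert_le a {b, c}
  have h2 := ncard_pair_le b c
  omega

private theorem rim_alt_or {V : Type} [Fintype V] {G : SimpleGraph V} (hG : MinCE G) {x y : V}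
    {n : ℕ} {c : ℕ → V} (h : Rim G x y n c) (i : ℕ) : G.Adj (c i) x ∨ G.Adj (c i) y := by
  classical
  by_contra hcon
  push Not at hcon
  have hU : c i ∈ U G := ⟨_, h.adj i⟩
  have hcard := deg_ge hG hU
  have hsub : G.neighborSet (c i) ⊆ {c (i + 1), c (i + n - 1)} := by
    intro w hw
    have hw' : G.Adj (c i) w := hw
    rcases h.nb i w hw' with rfl | rfl | h1 | h1
    · exact absurd hw' hcon.1
    · exact absurd hw' hcon.2
    · exact Or.inl h1
    · exact Or.inr h1
  have h1 := Set.ncard_le_ncard hsub (Set.toFinite _)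
  have h2 := ncard_pair_le (c (i + 1)) (c (i + n - 1))
  omega

private theorem rim_alt_step {V : Type} [Fintype V] {G : SimpleGraph V} (hG : MinCE G) {x y : V}
    {n : ℕ} {c : ℕ → V} (hb : ∀ i w, G.Adj (c i) w → w = x ∨ w = y ∨ w = c (i + 1) ∨
      w = c (i + n - 1)) (hadj : ∀ i, G.Adj (c i) (c (i + 1)))
    (i : ℕ) (hx : G.Adj (c i) x) (hy : ¬ G.Adj (c i) y) : ¬ G.Adj (c (i + 1)) x := by
  classical
  intro h3
  have h4 := no_tri hG (hadj i) hx h3
  have hsub : G.neighborSet (c i) ⊆ {x, c (i + 1), c (i + n - 1)} := by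
    intro w hw
    have hw' : G.Adj (c i) w := hw
    rcases hb i w hw' with h1 | rfl | h1 | h1
    · exact Or.inl h1
    · exact absurd hw' hy
    · exact Or.inr (Or.inl h1)
    · exact Or.inr (Or.inr h1)
  have h1 := Set.ncard_le_ncard hsub (Set.toFinite _)
  have h2 := ncard_triple_le x (c (i + 1)) (c (i + n - 1))
  omega

theorem rim_alt {V : Type} [Fintype V] {G : SimpleGraph V} (hG : MinCE G) {x y : V}
    (hxy : G.Adj x y) {n : ℕ} {c : ℕ → V} (h : Rim G x y n c) :
    (∀ i, G.Adj (c i) x ∨ G.Adj (c i) y) ∧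
    (∀ i, G.Adj (c i) x → ¬ G.Adj (c i) y → ¬ G.Adj (c (i + 1)) x ∧ G.Adj (c (i + 1)) y) ∧
    (∀ i, G.Adj (c i) y → ¬ G.Adj (c i) x → ¬ G.Adj (c (i + 1)) y ∧ G.Adj (c (i + 1)) x) := by
  refine ⟨rim_alt_or hG h, ?_, ?_⟩
  · intro i hx hy
    have h1 := rim_alt_step hG h.nb h.adj i hx hy
    exact ⟨h1, (rim_alt_or hG h (i + 1)).resolve_left h1⟩
  · intro i hy hx
    have h1 : ¬ G.Adj (c (i + 1)) y := by
      refine rim_alt_step (x := y) (y := x) (n := n) hG ?_ h.adj i hy hx
      intro j w hw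
      rcases h.nb j w hw with h1 | h1 | h1 | h1
      · exact Or.inr (Or.inl h1)
      · exact Or.inl h1
      · exact Or.inr (Or.inr (Or.inl h1))
      · exact Or.inr (Or.inr (Or.inr h1))
    exact ⟨h1, (rim_alt_or hG h (i + 1)).resolve_right h1⟩

end Pool.Agent.Work.MP_3035da_co.K
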