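import Pool.Agent.Work.MP_3035da_co.K.SeqDefs

/-!
Module RIMB: the minors of a wheel with two adjacent hubs.

rim_k5: all `c i` are adjacent to `x` and `y`, `x` adjacent to `y`.  Branch sets: `{x}`, `{y}`, `{c 0}`, `{c 1}`,
`{c i : 2 ≤ i < n}` (connected: a path; `n ≥ 3`).

rim_k33: `c i` is adjacent to `x` for even `i` and to `y` for odd `i`, `x` adjacent to `y`, `n` even, so `n ≥ 4`.
Branch sets: `{x}`, `{c 1}`, `{c i : 3 ≤ i < n}` on one side and `{y}`, `{c 0}`, `{c 2}` on the other.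
`x` is adjacent to `y`, `c 0`, `c 2`; `c 1` to `y`, `c 0`, `c 2`; `c 3` to `y` and `c 2`; `c (n-1)` to `c n = c 0`.
Connectedness of `{c i : a ≤ i < n}` in the induced graph: a general lemma for the image of an interval
under `c` with `G.Adj (c i) (c (i+1))` (`SimpleGraph.Connected` by induction on `n`, or reachability from
`c a`).

rim_minor: from the alternation (as in `rim_alt`): if every `c i` is adjacent to both, `rim_k5`.  Otherwise
some `c i₀` is adjacent to exactly one of them, say to `x` (the other case by exchanging `x` and `y`); shift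
the sequence so that `i₀ = 0` (`c' i = c (i + i₀)` is again a rim sequence as far as needed: periodic,
injective on `0..n-1`, consecutive adjacent); then by induction `c' i` is adjacent to exactly `x` for
even `i` and exactly `y` for odd `i`; `c' n = c' 0` shows that `n` is even; `rim_k33`.
-/

set_option autoImplicit false

namespace Pool.Agent.Work.MP_3035da_co.K

private def seg {V : Type} (c : ℕ → V) (a b : ℕ) : Set V := {v | ∃ i, a ≤ i ∧ i < b ∧ c i = v}

private theorem seg_conn {V : Type} {G : SimpleGraph V} {c : ℕ → V}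
    (hadj : ∀ i, G.Adj (c i) (c (i + 1))) {a b : ℕ} (hab : a < b) :
    (G.induce (seg c a b)).Connected := by
  have key : ∀ k, ∀ (hk : a + k < b), (G.induce (seg c a b)).Reachable
      ⟨c a, a, le_rfl, hab, rfl⟩ ⟨c (a + k), a + k, by omega, hk, rfl⟩ := by
    intro k
    induction k with
    | zero =>
      intro hk
      exact SimpleGraph.Reachable.refl _
    | succ k ih =>
      intro hk
      refine (ih (by omega)).trans (SimpleGraph.Adj.reachable ?_)
      exact hadj (a + k)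
  have key2 : ∀ v : (seg c a b : Set V), (G.induce (seg c a b)).Reachable
      ⟨c a, a, le_rfl, hab, rfl⟩ v := by
    rintro ⟨v, i, hi1, hi2, rfl⟩
    obtain ⟨k, rfl⟩ := Nat.exists_eq_add_of_le hi1
    exact key k hi2
  have : Nonempty (seg c a b : Set V) := ⟨⟨c a, a, le_rfl, hab, rfl⟩⟩
  exact ⟨fun u v => (key2 u).symm.trans (key2 v)⟩

private theorem sing_conn {V : Type} (G : SimpleGraph V) (x : V) :
    (G.induce ({x} : Set V)).Connected := by
  have : Nonempty ({x} : Set V) := ⟨⟨x, rfl⟩⟩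
  refine ⟨fun u v => ?_⟩
  have : u = v := Subsingleton.elim _ _
  rw [this]

theorem rim_k5 {V : Type} {G : SimpleGraph V} {x y : V} (hxy : G.Adj x y) {n : ℕ} {c : ℕ → V}
    (hn : 3 ≤ n) (hper : ∀ i, c (i + n) = c i) (hinj : ∀ i j, i < n → j < n → c i = c j → i = j)
    (hadj : ∀ i, G.Adj (c i) (c (i + 1))) (hx : ∀ i, G.Adj (c i) x) (hy : ∀ i, G.Adj (c i) y) :
    Mdl R5 G := by
  have hxs : x ∉ seg c 2 n := by
    rintro ⟨i, _, _, hi⟩
    exact (hx i).ne hi
  have hys : y ∉ seg c 2 n := by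
    rintro ⟨i, _, _, hi⟩
    exact (hy i).ne hi
  have h0s : c 0 ∉ seg c 2 n := by
    rintro ⟨i, h1, h2, hi⟩
    have := hinj i 0 h2 (by omega) hi
    omega
  have h1s : c 1 ∉ seg c 2 n := by
    rintro ⟨i, h1, h2, hi⟩
    have := hinj i 1 h2 (by omega) hi
    omega
  have h01 : c 0 ≠ c 1 := fun h => by
    have := hinj 0 1 (by omega) (by omega) h
    omega
  have hx0 := (hx 0).ne
  have hx1 := (hx 1).ne
  have hy0 := (hy 0).ne
  have hy1 := (hy 1).ne
  have hne := hxy.ne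
  refine ⟨![{x}, {y}, {c 0}, {c 1}, seg c 2 n], ?_, ?_, ?_⟩
  · intro i
    fin_cases i
    · exact sing_conn G x
    · exact sing_conn G y
    · exact sing_conn G (c 0)
    · exact sing_conn G (c 1)
    · exact seg_conn hadj (by omega)
  · intro i j hij
    fin_cases i <;> fin_cases j <;>
      first
        | exact absurd rfl hij
        | simp [Set.disjoint_singleton_left, Set.disjoint_singleton_right, hxs, hys, h0s, h1s, h01,
            h01.symm, hx0, hx0.symm, hx1, hx1.symm, hy0, hy0.symm, hy1, hy1.symm, hne, hne.symm]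
  · have hsym : ∀ A B : Set V, (∃ u ∈ A, ∃ w ∈ B, G.Adj u w) → ∃ u ∈ B, ∃ w ∈ A, G.Adj u w := by
      rintro A B ⟨u, hu, w, hw, h⟩
      exact ⟨w, hw, u, hu, h.symm⟩
    have e01 : ∃ u ∈ ({x} : Set V), ∃ w ∈ ({y} : Set V), G.Adj u w := ⟨x, rfl, y, rfl, hxy⟩
    have e02 : ∃ u ∈ ({x} : Set V), ∃ w ∈ ({c 0} : Set V), G.Adj u w :=
      ⟨x, rfl, c 0, rfl, (hx 0).symm⟩
    have e03 : ∃ u ∈ ({x} : Set V), ∃ w ∈ ({c 1} : Set V), G.Adj u w :=
      ⟨x, rfl, c 1, rfl, (hx 1).symm⟩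
    have e04 : ∃ u ∈ ({x} : Set V), ∃ w ∈ seg c 2 n, G.Adj u w :=
      ⟨x, rfl, c 2, ⟨2, le_rfl, by omega, rfl⟩, (hx 2).symm⟩
    have e12 : ∃ u ∈ ({y} : Set V), ∃ w ∈ ({c 0} : Set V), G.Adj u w :=
      ⟨y, rfl, c 0, rfl, (hy 0).symm⟩
    have e13 : ∃ u ∈ ({y} : Set V), ∃ w ∈ ({c 1} : Set V), G.Adj u w :=
      ⟨y, rfl, c 1, rfl, (hy 1).symm⟩
    have e14 : ∃ u ∈ ({y} : Set V), ∃ w ∈ seg c 2 n, G.Adj u w :=
      ⟨y, rfl, c 2, ⟨2, le_rfl, by omega, rfl⟩, (hy 2).symm⟩
    have e23 : ∃ u ∈ ({c 0} : Set V), ∃ w ∈ ({c 1} : Set V), G.Adj u w :=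
      ⟨c 0, rfl, c 1, rfl, hadj 0⟩
    have e24 : ∃ u ∈ ({c 0} : Set V), ∃ w ∈ seg c 2 n, G.Adj u w := by
      refine ⟨c 0, rfl, c (n - 1), ⟨n - 1, by omega, by omega, rfl⟩, ?_⟩
      have h1 := hadj (n - 1)
      have h2 : n - 1 + 1 = 0 + n := by omega
      rw [h2, hper] at h1
      exact h1.symm
    have e34 : ∃ u ∈ ({c 1} : Set V), ∃ w ∈ seg c 2 n, G.Adj u w :=
      ⟨c 1, rfl, c 2, ⟨2, le_rfl, by omega, rfl⟩, hadj 1⟩
    intro i j hij
    fin_cases i <;> fin_cases j <;>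
      first
        | exact absurd rfl hij
        | exact e01
        | exact e02
        | exact e03
        | exact e04
        | exact e12
        | exact e13
        | exact e14
        | exact e23
        | exact e24
        | exact e34
        | exact hsym _ _ e01
        | exact hsym _ _ e02
        | exact hsym _ _ e03
        | exact hsym _ _ e04
        | exact hsym _ _ e12
        | exact hsym _ _ e13
        | exact hsym _ _ e14
        | exact hsym _ _ e23
        | exact hsym _ _ e24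
        | exact hsym _ _ e34

theorem rim_k33 {V : Type} {G : SimpleGraph V} {x y : V} (hxy : G.Adj x y) {n : ℕ} {c : ℕ → V}
    (hn : 3 ≤ n) (heven : Even n) (hper : ∀ i, c (i + n) = c i)
    (hinj : ∀ i j, i < n → j < n → c i = c j → i = j) (hadj : ∀ i, G.Adj (c i) (c (i + 1)))
    (hnx : ∀ i, c i ≠ x) (hny : ∀ i, c i ≠ y)
    (hx : ∀ i, Even i → G.Adj (c i) x) (hy : ∀ i, ¬ Even i → G.Adj (c i) y) : Mdl R33 G := by
  have hn4 : 4 ≤ n := by
    obtain ⟨k, hk⟩ := heven
    omega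
  have hxs : x ∉ seg c 3 n := by
    rintro ⟨i, _, _, hi⟩
    exact hnx i hi
  have hys : y ∉ seg c 3 n := by
    rintro ⟨i, _, _, hi⟩
    exact hny i hi
  have hcs : ∀ k, k < 3 → c k ∉ seg c 3 n := by
    rintro k hk ⟨i, h1, h2, hi⟩
    have := hinj i k h2 (by omega) hi
    omega
  have h0s := hcs 0 (by omega)
  have h1s := hcs 1 (by omega)
  have h2s := hcs 2 (by omega)
  have hcc : ∀ k l, k < 3 → l < 3 → k ≠ l → c k ≠ c l := fun k l hk hl hkl h =>
    hkl (hinj k l (by omega) (by omega) h)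
  have h01 := hcc 0 1 (by omega) (by omega) (by omega)
  have h02 := hcc 0 2 (by omega) (by omega) (by omega)
  have h12 := hcc 1 2 (by omega) (by omega) (by omega)
  have hne := hxy.ne
  have o1 : ¬ Even 1 := by decide
  have o3 : ¬ Even 3 := by decide
  refine ⟨Sum.elim ![{x}, {c 1}, seg c 3 n] ![{y}, {c 0}, {c 2}], ?_, ?_, ?_⟩
  · rintro (i | i)
    · fin_cases i
      · exact sing_conn G x
      · exact sing_conn G (c 1)
      · exact seg_conn hadj (by omega)
    · fin_cases i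
      · exact sing_conn G y
      · exact sing_conn G (c 0)
      · exact sing_conn G (c 2)
  · rintro (i | i) (j | j) hij <;> fin_cases i <;> fin_cases j <;>
      first
        | exact absurd rfl hij
        | simp [Set.disjoint_singleton_left, Set.disjoint_singleton_right, hxs, hys, h0s, h1s, h2s,
            h01, h01.symm, h02, h02.symm, h12, h12.symm, hnx, (hnx _).symm, hny, (hny _).symm, hne,
            hne.symm]
  · rintro _ _ ⟨a, b, rfl, rfl⟩
    have hl : G.Adj (c (n - 1)) (c 0) := by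
      have h1 := hadj (n - 1)
      have h2 : n - 1 + 1 = 0 + n := by omega
      rw [h2, hper] at h1
      exact h1
    fin_cases a <;> fin_cases b
    · exact ⟨x, rfl, y, rfl, hxy⟩
    · exact ⟨x, rfl, c 0, rfl, (hx 0 (by decide)).symm⟩
    · exact ⟨x, rfl, c 2, rfl, (hx 2 (by decide)).symm⟩
    · exact ⟨c 1, rfl, y, rfl, hy 1 o1⟩
    · exact ⟨c 1, rfl, c 0, rfl, (hadj 0).symm⟩
    · exact ⟨c 1, rfl, c 2, rfl, hadj 1⟩
    · exact ⟨c 3, ⟨3, le_rfl, by omega, rfl⟩, y, rfl, hy 3 o3⟩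
    · exact ⟨c (n - 1), ⟨n - 1, by omega, by omega, rfl⟩, c 0, rfl, hl⟩
    · exact ⟨c 3, ⟨3, le_rfl, by omega, rfl⟩, c 2, rfl, (hadj 2).symm⟩

private theorem rim_core {V : Type} {G : SimpleGraph V} {x y : V} (hxy : G.Adj x y) {n : ℕ}
    {c : ℕ → V} (hn : 3 ≤ n) (hper : ∀ i, c (i + n) = c i)
    (hinj : ∀ i j, i < n → j < n → c i = c j → i = j)
    (hadj : ∀ i, G.Adj (c i) (c (i + 1))) (hnx : ∀ i, c i ≠ x) (hny : ∀ i, c i ≠ y)
    (h1 : ∀ i, G.Adj (c i) x → ¬ G.Adj (c i) y → ¬ G.Adj (c (i + 1)) x ∧ G.Adj (c (i + 1)) y)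
    (h2 : ∀ i, G.Adj (c i) y → ¬ G.Adj (c i) x → ¬ G.Adj (c (i + 1)) y ∧ G.Adj (c (i + 1)) x)
    (i₀ : ℕ) (hi1 : G.Adj (c i₀) x) (hi2 : ¬ G.Adj (c i₀) y) : Mdl R33 G := by
  have hP : Function.Periodic c n := hper
  have key : ∀ i, (Even i → G.Adj (c (i + i₀)) x ∧ ¬ G.Adj (c (i + i₀)) y) ∧
      (¬ Even i → G.Adj (c (i + i₀)) y ∧ ¬ G.Adj (c (i + i₀)) x) := by
    intro i
    induction i with
    | zero =>
      refine ⟨fun _ => ?_, fun h => absurd (by decide) h⟩
      rw [zero_add]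
      exact ⟨hi1, hi2⟩
    | succ i ih =>
      have he : i + 1 + i₀ = i + i₀ + 1 := by omega
      rw [he]
      refine ⟨fun h => ?_, fun h => ?_⟩
      · have h3 : ¬ Even i := by
          rw [Nat.even_add_one] at h
          exact h
        obtain ⟨h4, h5⟩ := ih.2 h3
        have := h2 (i + i₀) h4 h5
        exact ⟨this.2, this.1⟩
      · have h3 : Even i := by
          rw [Nat.even_add_one, not_not] at h
          exact h
        obtain ⟨h4, h5⟩ := ih.1 h3
        have := h1 (i + i₀) h4 h5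
        exact ⟨this.2, this.1⟩
  have heven : Even n := by
    by_contra hodd
    have h3 := ((key n).2 hodd).2
    have h4 : n + i₀ = i₀ + n := by omega
    rw [h4, hper] at h3
    exact h3 hi1
  refine rim_k33 hxy (c := fun i => c (i + i₀)) hn heven ?_ ?_ ?_ (fun i => hnx _)
    (fun i => hny _) (fun i hi => ((key i).1 hi).1) (fun i hi => ((key i).2 hi).1)
  · intro i
    have : i + n + i₀ = i + i₀ + n := by omega
    simp only [this, hper]
  · intro i j hi hj hij
    have hij' : c (i + i₀) = c (j + i₀) := hij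
    rw [← hP.map_mod_nat (i + i₀), ← hP.map_mod_nat (j + i₀)] at hij'
    have h3 := hinj _ _ (Nat.mod_lt _ (by omega)) (Nat.mod_lt _ (by omega)) hij'
    have h4 : i + i₀ ≡ j + i₀ [MOD n] := h3
    have h5 : i ≡ j [MOD n] := Nat.ModEq.add_right_cancel' i₀ h4
    exact Nat.ModEq.eq_of_lt_of_lt h5 hi hj
  · intro i
    have : i + 1 + i₀ = i + i₀ + 1 := by omega
    simp only [this]
    exact hadj _

theorem rim_minor {V : Type} {G : SimpleGraph V} {x y : V} (hxy : G.Adj x y) {n : ℕ} {c : ℕ → V}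
    (h : Rim G x y n c) (h0 : ∀ i, G.Adj (c i) x ∨ G.Adj (c i) y)
    (h1 : ∀ i, G.Adj (c i) x → ¬ G.Adj (c i) y → ¬ G.Adj (c (i + 1)) x ∧ G.Adj (c (i + 1)) y)
    (h2 : ∀ i, G.Adj (c i) y → ¬ G.Adj (c i) x → ¬ G.Adj (c (i + 1)) y ∧ G.Adj (c (i + 1)) x) :
    Mdl R5 G ∨ Mdl R33 G := by
  by_cases hall : ∀ i, G.Adj (c i) x ∧ G.Adj (c i) y
  · exact Or.inl (rim_k5 hxy h.hn h.per h.inj h.adj (fun i => (hall i).1) (fun i => (hall i).2))
  · push Not at hall
    obtain ⟨i₀, hi₀⟩ := hall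
    right
    by_cases hx : G.Adj (c i₀) x
    · exact rim_core hxy h.hn h.per h.inj h.adj h.nx h.ny h1 h2 i₀ hx (hi₀ hx)
    · have hy : G.Adj (c i₀) y := (h0 i₀).resolve_left hx
      exact rim_core hxy.symm h.hn h.per h.inj h.adj h.ny h.nx h2 h1 i₀ hy hx

end Pool.Agent.Work.MP_3035da_co.K
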