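import Pool.Agent.Work.MP_3035da_co.K.TwoEnds
import Pool.Agent.Work.MP_3035da_co.K.RimA
import Pool.Agent.Work.MP_3035da_co.K.RimB

/-!
Kuratowski-MacLane theorem: a finite graph without `K₅` and `K₃₃` minors has a face system.
(Assembly, done.)
-/

set_option autoImplicit false

namespace Pool.Agent.Work.MP_3035da_co.K

open Finset

theorem plane_of_no_edge {V : Type} [Fintype V] {G : SimpleGraph V} (h : ∀ a b, ¬ G.Adj a b) :
    Plane G := by
  refine ⟨0, fun i => i.elim0, fun i => i.elim0, fun e => Or.inl fun i => i.elim0, ?_⟩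
  intro z hz
  refine ⟨∅, ?_⟩
  funext e
  by_contra he
  have := hz.1 e he
  induction e using Sym2.ind with
  | _ a b => exact h a b this

theorem not_minCE {V : Type} [Fintype V] {G : SimpleGraph V} (hG : MinCE G) : False := by
  by_cases hE : ∃ x y, G.Adj x y
  · obtain ⟨x, y, hxy⟩ := hE
    have hdeg : Deg2 (av G {x, y}) := by
      rintro v u ⟨hvu, hv, hu⟩
      have hvx : v ≠ x := fun h => hv (by simp [h])
      have hvy : v ≠ y := fun h => hv (by simp [h])
      obtain ⟨a, b, hab, ha, hb⟩ := h_deg hG hxy ⟨u, hvu⟩ hvx hvy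
      by_cases hau : a = u
      · exact ⟨b, fun h => hab (by rw [hau, h]), hb⟩
      · exact ⟨a, hau, ha⟩
    have hth := theta hG hxy
    obtain ⟨v, hv, hvx, hvy⟩ : ∃ v ∈ U G, v ≠ x ∧ v ≠ y := by
      have h3 := deg_ge hG (v := x) ⟨y, hxy⟩
      have : ∃ v ∈ G.neighborSet x, v ≠ y := by
        by_contra hcon
        push Not at hcon
        have hsub : G.neighborSet x ⊆ {y} := fun v hv => hcon v hv
        have := Set.ncard_le_ncard hsub (Set.toFinite _)
        rw [Set.ncard_singleton] at this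
        omega
      obtain ⟨v, hv, hvy⟩ := this
      exact ⟨v, ⟨x, SimpleGraph.Adj.symm hv⟩, fun h => G.loopless.irrefl x (h ▸ hv), hvy⟩
    obtain ⟨a, b, _, ha, _⟩ := h_deg hG hxy hv hvx hvy
    rcases lp_main hdeg hth ha with ⟨k, p, k', p', h1, h2, h3⟩ | ⟨m, p, hm, hl, hlast⟩
    · exact two_ends hG hxy h1 h2 h3
    · have hr := rim_of hth hm hl hlast
      obtain ⟨r0, r1, r2⟩ := rim_alt hG hxy hr
      rcases rim_minor hxy hr r0 r1 r2 with h | h
      · exact hG.free.1 h
      · exact hG.free.2 h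
  · push Not at hE
    exact hG.not_plane (plane_of_no_edge hE)

/-- Kuratowski, Wagner, MacLane -/
theorem kfree_plane {V : Type} [Fintype V] {G : SimpleGraph V} (hG : KFree G) : Plane G := by
  have key : ∀ (n : ℕ) (G : SimpleGraph V), G.edgeSet.ncard = n → KFree G → Plane G := by
    intro n
    induction n using Nat.strong_induction_on with
    | _ n ih =>
      intro G hn hG
      by_contra hnp
      exact not_minCE ⟨hG, hnp, fun G' hlt hG' => ih _ (hn ▸ hlt) G' rfl hG'⟩
  exact key _ G rfl hG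

/-- the frozen form of the hypotheses -/
theorem kfree_of_frozen {V : Type} {G : SimpleGraph V}
    (h5 : ¬ ∃ B : Fin 5 → Set V,
          (∀ i, (G.induce (B i)).Connected) ∧
          (∀ i j, i ≠ j → Disjoint (B i) (B j)) ∧
          (∀ i j, i ≠ j → ∃ u ∈ B i, ∃ w ∈ B j, G.Adj u w))
    (h33 : ¬ ∃ B : Fin 3 ⊕ Fin 3 → Set V,
          (∀ i, (G.induce (B i)).Connected) ∧
          (∀ i j, i ≠ j → Disjoint (B i) (B j)) ∧
          (∀ i j : Fin 3, ∃ u ∈ B (Sum.inl i), ∃ w ∈ B (Sum.inr j), G.Adj u w)) : KFree G := by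
  refine ⟨h5, fun ⟨B, h1, h2, h3⟩ => h33 ⟨B, h1, h2, fun i j => h3 _ _ ⟨i, j, rfl, rfl⟩⟩⟩

end Pool.Agent.Work.MP_3035da_co.K
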