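import Pool.Agent.Work.MP_3035da_co.K.Chn

/-!
Module LINK (the faces around a vertex).

link: suppose `a ∈ A` and `b ∉ A`, `G.Adj w b`.  Both are in `U G` and different from `w`, so they are
joined in `av G {w}`; let `c` be the chain of `chain_of_reachable`; it is supported on edges that avoid
`w`.  `z = c + sing s(w,a) + sing s(w,b)` has boundary `0` (`bd_sing`; at `w`: 1 + 1, at `a`: 1 + 1, at
`b`: 1 + 1) and is supported on edges of `G`, so `z = ∑ i ∈ S, f i`.  Hence
`∑ a' ∈ A, z s(w,a') = ∑ i ∈ S, ∑ a' ∈ A, f i s(w,a') = 0` (`sum_comm`); but `z s(w,a') = 1` for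
`a' = a` and `0` for the other `a' ∈ A` (they differ from `b`).

same_class: let `A = {a : ∃ i ∈ S, f i s(w,a) = 1}`.  For `a ∈ A` the value of `∑ i ∈ S, f i` at `s(w,a)`
is `0`, so an even number of members of `S` contain `s(w,a)` (`sum_apply_card`), and with
`FaceSys.two` all faces through `s(w,a)` are in `S`.  So for `i ∈ S` the sum of `f i s(w,a)` over `a ∈ A`
is `bd (f i) w = 0`, and for `i ∉ S` every term is `0`.  Apply `link`.
-/

set_option autoImplicit false

namespace Pool.Agent.Work.MP_3035da_co.K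

open Finset

theorem link_av_le {V : Type} (G : SimpleGraph V) (X : Set V) : av G X ≤ G := fun _ _ h => h.1

/-- if a set of faces has value 0 at a pair and contains a face through it, it contains all of them -/
theorem link_full {V ι : Type} [Fintype V] [Fintype ι] {G : SimpleGraph V} {f : ι → Chain V}
    (hf : FaceSys G f) {S : Finset ι} {e : Sym2 V} (h0 : (∑ i ∈ S, f i) e = 0) {j : ι}
    (hj : j ∈ S) (hje : f j e = 1) {k : ι} (hk : f k e = 1) : k ∈ S := by
  classical
  rw [sum_apply_card] at h0
  have h2 : (univ.filter (fun i => f i e = 1)).card = 2 := by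
    rcases hf.two e with h | h
    · rw [h j] at hje; exact absurd hje (by decide)
    · exact h
  have hsub : S.filter (fun i => f i e = 1) ⊆ univ.filter (fun i => f i e = 1) :=
    filter_subset_filter _ (subset_univ S)
  have hle := card_le_card hsub
  have hpos : 0 < (S.filter (fun i => f i e = 1)).card :=
    card_pos.mpr ⟨j, mem_filter.mpr ⟨hj, hje⟩⟩
  have hev : Even (S.filter (fun i => f i e = 1)).card :=
    (ZMod.natCast_eq_zero_iff_even).mp h0
  have hc : (S.filter (fun i => f i e = 1)).card = 2 := by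
    rw [h2] at hle
    obtain ⟨r, hr⟩ := hev
    omega
  have heq : S.filter (fun i => f i e = 1) = univ.filter (fun i => f i e = 1) :=
    eq_of_subset_of_card_le hsub (by rw [hc, h2])
  have : k ∈ S.filter (fun i => f i e = 1) := by
    rw [heq]; exact mem_filter.mpr ⟨mem_univ _, hk⟩
  exact (mem_filter.mp this).1

/-- if a set of faces has value 1 at a pair, exactly one of the two faces through it is in the set -/
theorem link_half {V ι : Type} [Fintype V] [Fintype ι] {G : SimpleGraph V} {f : ι → Chain V}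
    (hf : FaceSys G f) {S : Finset ι} {e : Sym2 V} (h1 : (∑ i ∈ S, f i) e = 1) :
    ∃ j k, j ∈ S ∧ f j e = 1 ∧ k ∉ S ∧ f k e = 1 ∧ ∀ l, f l e = 1 → l = j ∨ l = k := by
  classical
  rw [sum_apply_card] at h1
  have hne : (S.filter (fun i => f i e = 1)).card ≠ 0 := by
    intro h; rw [h] at h1; exact absurd h1 (by decide)
  obtain ⟨j, hj⟩ := card_pos.mp (Nat.pos_of_ne_zero hne)
  rw [mem_filter] at hj
  obtain ⟨k, hkj, hk, hall⟩ := hf.pair hj.2
  refine ⟨j, k, hj.1, hj.2, fun hkS => ?_, hk, hall⟩
  have heq : S.filter (fun i => f i e = 1) = {j, k} := by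
    ext l
    rw [mem_filter, mem_insert, mem_singleton]
    constructor
    · rintro ⟨_, hl⟩; exact hall l hl
    · rintro (rfl | rfl)
      · exact hj
      · exact ⟨hkS, hk⟩
  rw [heq, card_pair (Ne.symm hkj)] at h1
  exact absurd h1 (by decide)

theorem link {V ι : Type} [Fintype V] [Fintype ι] {G : SimpleGraph V} {f : ι → Chain V}
    (hG : TwoConn G) (hf : FaceSys G f) (w : V) (A : Finset V) (hA : ∀ a ∈ A, G.Adj w a)
    (heven : ∀ i, ∑ a ∈ A, f i s(w, a) = 0) : A = ∅ ∨ ∀ a, G.Adj w a → a ∈ A := by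
  classical
  by_contra hcon
  rw [not_or] at hcon
  obtain ⟨hne, hcon⟩ := hcon
  push Not at hcon
  obtain ⟨b, hwb, hbA⟩ := hcon
  obtain ⟨a, haA⟩ := Finset.nonempty_iff_ne_empty.mpr hne
  have hwa := hA a haA
  have hab : a ≠ b := fun h => hbA (h ▸ haA)
  have hr : (av G {w}).Reachable a b :=
    hG w a b ⟨w, hwa.symm⟩ ⟨w, hwb.symm⟩ hwa.ne' hwb.ne'
  obtain ⟨c, hc, hb⟩ := chain_of_reachable hr
  have hcw : ∀ d, c s(w, d) = 0 := by
    intro d
    by_contra h
    have h' : (av G {w}).Adj w d := hc _ h
    exact h'.2.1 rfl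
  have hzc : c + sing s(w, a) + sing s(w, b) ∈ cyc G := by
    refine ⟨fun e he => ?_, fun v => ?_⟩
    · by_cases h1 : e = s(w, a)
      · rw [h1]; exact hwa
      by_cases h2 : e = s(w, b)
      · rw [h2]; exact hwb
      have h3 : c e ≠ 0 := by
        intro h
        apply he
        rw [Pi.add_apply, Pi.add_apply, h, sing_ne h1, sing_ne h2]
        rfl
      exact SimpleGraph.edgeSet_mono (link_av_le G {w}) (hc e h3)
    · rw [bd_add, bd_add, bd_sing hwa.ne, bd_sing hwb.ne, hb]
      have : ∀ p q r : ZMod 2, p + q + (r + p) + (r + q) = 0 := by decide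
      exact this _ _ _
  obtain ⟨S, hS⟩ := hf.span _ hzc
  have h0 : ∑ a' ∈ A, (c + sing s(w, a) + sing s(w, b)) s(w, a') = 0 := by
    rw [hS]
    have : ∑ a' ∈ A, (∑ i ∈ S, f i) s(w, a') = ∑ i ∈ S, ∑ a' ∈ A, f i s(w, a') := by
      rw [sum_comm]
      exact sum_congr rfl fun a' _ => Finset.sum_apply _ _ _
    rw [this]
    exact sum_eq_zero fun i _ => heven i
  have h1 : ∑ a' ∈ A, (c + sing s(w, a) + sing s(w, b)) s(w, a') = 1 := by
    rw [sum_eq_single_of_mem a haA]
    · rw [Pi.add_apply, Pi.add_apply, hcw, sing_self, sing_ne]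
      · rfl
      · intro h
        rcases Sym2.eq_iff.1 h with h | h
        · exact hab h.2
        · exact hwb.ne h.1
    · intro a' ha' hne'
      rw [Pi.add_apply, Pi.add_apply, hcw, sing_ne, sing_ne]
      · rfl
      · intro h
        rcases Sym2.eq_iff.1 h with h | h
        · exact hbA (h.2 ▸ ha')
        · exact hwb.ne h.1
      · intro h
        rcases Sym2.eq_iff.1 h with h | h
        · exact hne' h.2
        · exact hwa.ne h.1
  rw [h0] at h1
  exact absurd h1 (by decide)

theorem same_class {V ι : Type} [Fintype V] [Fintype ι] {G : SimpleGraph V} {f : ι → Chain V}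
    (hG : TwoConn G) (hf : FaceSys G f) (S : Finset ι) (w : V)
    (hw : ∀ c, (∑ i ∈ S, f i) s(w, c) = 0) :
    (∀ i c, f i s(w, c) = 1 → i ∈ S) ∨ (∀ i c, f i s(w, c) = 1 → i ∉ S) := by
  classical
  have hA : ∀ a ∈ univ.filter (fun a => ∃ i ∈ S, f i s(w, a) = 1), G.Adj w a := by
    intro a ha
    rw [mem_filter] at ha
    obtain ⟨_, i, _, hi⟩ := ha
    have := hf.edge (i := i) (e := s(w, a)) (by rw [hi]; decide)
    exact this
  have hin : ∀ i a, a ∈ univ.filter (fun a => ∃ i ∈ S, f i s(w, a) = 1) →
      f i s(w, a) = 1 → i ∈ S := by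
    intro i a ha hi
    rw [mem_filter] at ha
    obtain ⟨_, j, hj, hje⟩ := ha
    exact link_full hf (hw a) hj hje hi
  have heven : ∀ i, ∑ a ∈ univ.filter (fun a => ∃ i ∈ S, f i s(w, a) = 1), f i s(w, a) = 0 := by
    intro i
    by_cases hi : i ∈ S
    · have : ∑ a ∈ univ.filter (fun a => ∃ i ∈ S, f i s(w, a) = 1), f i s(w, a) =
          bd (f i) w := by
        unfold bd
        apply sum_subset (subset_univ _)
        intro a _ ha
        rcases zo (f i s(w, a)) with h | h
        · exact h
        · exact absurd (mem_filter.mpr ⟨mem_univ _, i, hi, h⟩) ha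
      rw [this]
      exact (hf.mem i).2 w
    · apply sum_eq_zero
      intro a ha
      rcases zo (f i s(w, a)) with h | h
      · exact h
      · exact absurd (hin i a ha h) hi
  rcases link hG hf w _ hA heven with h | h
  · right
    intro i c hic hiS
    have : c ∈ univ.filter (fun a => ∃ i ∈ S, f i s(w, a) = 1) :=
      mem_filter.mpr ⟨mem_univ _, i, hiS, hic⟩
    rw [h] at this
    exact absurd this (notMem_empty _)
  · left
    intro i c hic
    have hadj : G.Adj w c := by
      have := hf.edge (i := i) (e := s(w, c)) (by rw [hic]; decide)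
      exact this
    exact hin i c (h c hadj) hic

end Pool.Agent.Work.MP_3035da_co.K
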