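import Pool.Agent.Work.MP_3035da_co.K.SeqDefs

/-!
Module LONGA: longest paths (Mathlib only, no chains).

exists_long: the lengths `m` of the sequences `IsSeq H m p` are bounded by `Fintype.card V` (injectivity on
`0..m`), and `m = 1` occurs; take the largest (`Nat.findGreatest` or induction).

long_nbr: all neighbours of `p 0` are on the path: otherwise `q 0 = w`, `q (i+1) = p i` is a longer path.

long_rev: the reversed sequence is also a longest path.

long_rot: if `p j` is adjacent to `p 0`, `1 ≤ j ≤ m`, then `p (j-1), …, p 0, p j, …, p m` is a longest path.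
-/

set_option autoImplicit false

namespace Pool.Agent.Work.MP_3035da_co.K

theorem exists_long {V : Type} [Fintype V] {H : SimpleGraph V} {a b : V} (hab : H.Adj a b) :
    ∃ (m : ℕ) (p : ℕ → V), IsLong H m p ∧ 1 ≤ m := by
  classical
  have hbd : ∀ (m : ℕ) (p : ℕ → V), IsSeq H m p → m ≤ Fintype.card V := by
    intro m p hp
    have h1 : Function.Injective (fun i : Fin (m + 1) => p i) := by
      intro i j hij
      exact Fin.ext (hp.inj i j (Nat.lt_succ_iff.1 i.2) (Nat.lt_succ_iff.1 j.2) hij)
    have h2 := Fintype.card_le_of_injective _ h1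
    rw [Fintype.card_fin] at h2
    omega
  have h1 : ∃ p : ℕ → V, IsSeq H 1 p := by
    refine ⟨fun i => if i = 0 then a else b, ⟨?_, ?_⟩⟩
    · intro i j hi hj hij
      have hne : a ≠ b := hab.ne
      rcases Nat.eq_zero_or_pos i with h | h <;> rcases Nat.eq_zero_or_pos j with h' | h'
      · omega
      · have h3 : j ≠ 0 := by omega
        simp only [h, if_true, h3, if_false] at hij
        exact absurd hij hne
      · have h3 : i ≠ 0 := by omega
        simp only [h', if_true, h3, if_false] at hij
        exact absurd hij.symm hne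
      · omega
    · intro i hi
      have : i = 0 := by omega
      subst this
      simpa using hab
  have hc1 : 1 ≤ Fintype.card V := hbd 1 _ h1.choose_spec
  have hP := Nat.findGreatest_spec (P := fun m => ∃ p : ℕ → V, IsSeq H m p) hc1 h1
  obtain ⟨p, hp⟩ := hP
  refine ⟨_, p, ⟨hp, ?_⟩, ?_⟩
  · intro m' p' hp'
    exact Nat.le_findGreatest (hbd m' p' hp') ⟨p', hp'⟩
  · exact Nat.le_findGreatest hc1 h1

theorem long_nbr {V : Type} {H : SimpleGraph V} {m : ℕ} {p : ℕ → V} (h : IsLong H m p) {w : V}
    (hw : H.Adj (p 0) w) : ∃ j, 1 ≤ j ∧ j ≤ m ∧ w = p j := by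
  by_contra hcon
  push Not at hcon
  have hall : ∀ j, j ≤ m → w ≠ p j := by
    intro j hj
    rcases Nat.eq_zero_or_pos j with h0 | h0
    · subst h0
      exact hw.ne'
    · exact hcon j h0 hj
  have hq : IsSeq H (m + 1) (fun i => if i = 0 then w else p (i - 1)) := by
    refine ⟨?_, ?_⟩
    · intro i j hi hj hij
      rcases Nat.eq_zero_or_pos i with h1 | h1 <;> rcases Nat.eq_zero_or_pos j with h2 | h2
      · omega
      · have h3 : j ≠ 0 := by omega
        simp only [h1, if_true, h3, if_false] at hij
        exact absurd hij (hall (j - 1) (by omega))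
      · have h3 : i ≠ 0 := by omega
        simp only [h2, if_true, h3, if_false] at hij
        exact absurd hij.symm (hall (i - 1) (by omega))
      · have h3 : i ≠ 0 := by omega
        have h4 : j ≠ 0 := by omega
        simp only [h3, h4, if_false] at hij
        have := h.seq.inj (i - 1) (j - 1) (by omega) (by omega) hij
        omega
    · intro i hi
      rcases Nat.eq_zero_or_pos i with h1 | h1
      · subst h1
        simpa using hw.symm
      · have h3 : i ≠ 0 := by omega
        have h5 := h.seq.adj (i - 1) (by omega)
        have h6 : i - 1 + 1 = i := by omega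
        rw [h6] at h5
        simpa [h3] using h5
  have := h.max _ _ hq
  omega

theorem long_rev {V : Type} {H : SimpleGraph V} {m : ℕ} {p : ℕ → V} (h : IsLong H m p) :
    IsLong H m (fun i => p (m - i)) := by
  refine ⟨⟨?_, ?_⟩, h.max⟩
  · intro i j hi hj hij
    have := h.seq.inj (m - i) (m - j) (by omega) (by omega) hij
    omega
  · intro i hi
    have h1 := h.seq.adj (m - (i + 1)) (by omega)
    have h2 : m - (i + 1) + 1 = m - i := by omega
    rw [h2] at h1
    exact h1.symm

theorem long_rot {V : Type} {H : SimpleGraph V} {m : ℕ} {p : ℕ → V} (h : IsLong H m p) {j : ℕ}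
    (hj : 1 ≤ j) (hjm : j ≤ m) (hadj : H.Adj (p j) (p 0)) :
    IsLong H m (fun i => if i < j then p (j - 1 - i) else p i) := by
  refine ⟨⟨?_, ?_⟩, h.max⟩
  · intro a b ha hb hab
    by_cases h1 : a < j <;> by_cases h2 : b < j
    · simp only [h1, h2, if_true] at hab
      have := h.seq.inj _ _ (by omega) (by omega) hab
      omega
    · simp only [h1, h2, if_true, if_false] at hab
      have := h.seq.inj _ _ (by omega) (by omega) hab
      omega
    · simp only [h1, h2, if_true, if_false] at hab
      have := h.seq.inj _ _ (by omega) (by omega) hab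
      omega
    · simp only [h1, h2, if_false] at hab
      exact h.seq.inj _ _ ha hb hab
  · intro i hi
    by_cases h1 : i + 1 < j
    · have h2 : i < j := by omega
      have h3 := h.seq.adj (j - 1 - (i + 1)) (by omega)
      have h4 : j - 1 - (i + 1) + 1 = j - 1 - i := by omega
      rw [h4] at h3
      simpa [h1, h2] using h3.symm
    · by_cases h2 : i < j
      · have h3 : j - 1 - i = 0 := by omega
        have h4 : i + 1 = j := by omega
        simp only [h1, h2, if_true, if_false, h3, h4]
        simpa using hadj.symm
      · simpa [h1, h2] using h.seq.adj i hi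

end Pool.Agent.Work.MP_3035da_co.K
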