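import Pool.Agent.Work.MP_3035da_co.K.LongA
import Pool.Agent.Work.MP_3035da_co.K.SeqCirc

/-!
Module LONGB: the beginning of a longest path in a theta-free graph of minimum degree 2.

long_end0: `p 0` has a neighbour `u' ≠ p 1` (`Deg2`), `u' = p j` by `long_nbr`, `j ≥ 2`.  If `w = p j'` is a third
neighbour (`j' ≥ 2`, `j' ≠ j`), then the circuits of `p 0, …, p j` and of `p 0, …, p j'` (`seq_circ`) share
the edge `s(p 0, p 1)`, so they are equal; but with `j < j'` (say) `s(p j, p 0)` is an edge of the first and
not of the second (its edges are `s(p j', p 0)` and `s(p i, p (i+1))`; use injectivity).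

long_end1: let `j` be as before, `w` a neighbour of `p 1`, `w ≠ p 0, p 2`.  The circuit `z` of `p 0, …, p j`
contains `s(p 1, p 2)` and `s(p 0, p 1)`.  Case `w = p t`, `3 ≤ t ≤ m`: the circuit of `p 1, …, p t` contains
`s(p 1, p 2)` and not `s(p 0, p 1)`: contradiction.  Case `w` not on the path: `w` has a neighbour
`w' ≠ p 1` (`Deg2`).  If `w'` is not on the path, `w', w, p 1, …, p m` is a longer path.  If `w' = p 0` then `w`
is on the path by `long_nbr`.  If `w' = p t`, `t ≥ 2`, then the circuit of `w, p 1, …, p t` contains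
`s(p 1, p 2)` and not `s(p 0, p 1)`: contradiction.

long_end: put `j` of `long_end0`; `dl`: for `3 ≤ j` apply `long_end0` to the path of `long_rot`; its first
vertex is `p (j-1)`, the second `p (j-2)`, and it is adjacent to `p j`, the entry number `j` of the new path,
so `p j` is the only other neighbour.
-/

set_option autoImplicit false

namespace Pool.Agent.Work.MP_3035da_co.K

private theorem longb_circ {V : Type} [Fintype V] {H : SimpleGraph V} {m : ℕ} {p : ℕ → V}
    (h : IsSeq H m p) {k : ℕ} (hk : 2 ≤ k) (hkm : k ≤ m) (hl : H.Adj (p k) (p 0)) :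
    ∃ z ∈ cyc H, Circ z ∧ ∀ e, z e ≠ 0 ↔ (e = s(p k, p 0) ∨ ∃ i < k, e = s(p i, p (i + 1))) :=
  seq_circ H k hk p (fun i j hi hj hij => h.inj i j (by omega) (by omega) hij)
    (fun i hi => h.adj i (by omega)) hl

private theorem longb_uniq {V : Type} [Fintype V] {H : SimpleGraph V} (ht : ThetaFree H)
    {m : ℕ} {p : ℕ → V} (h : IsSeq H m p) {j j' : ℕ} (hj : 2 ≤ j) (hjj : j < j') (hj' : j' ≤ m)
    (h1 : H.Adj (p j) (p 0)) (h2 : H.Adj (p j') (p 0)) : False := by
  obtain ⟨z1, hz1, hc1, he1⟩ := longb_circ h hj (by omega) h1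
  obtain ⟨z2, hz2, hc2, he2⟩ := longb_circ h (by omega) hj' h2
  have heq : z1 = z2 := ht z1 z2 hz1 hz2 hc1 hc2
    ⟨s(p 0, p (0 + 1)), (he1 _).2 (Or.inr ⟨0, by omega, rfl⟩),
      (he2 _).2 (Or.inr ⟨0, by omega, rfl⟩)⟩
  have h3 : z1 s(p j, p 0) ≠ 0 := (he1 _).2 (Or.inl rfl)
  rw [heq] at h3
  rcases (he2 _).1 h3 with h4 | ⟨i, hi, h4⟩
  · rcases Sym2.eq_iff.1 h4 with ⟨h5, _⟩ | ⟨h5, _⟩
    · have := h.inj _ _ (by omega) (by omega) h5
      omega
    · have := h.inj _ _ (by omega) (by omega) h5
      omega
  · rcases Sym2.eq_iff.1 h4 with ⟨_, h5⟩ | ⟨h6, h5⟩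
    · have := h.inj _ _ (by omega) (by omega) h5
      omega
    · have h7 := h.inj _ _ (by omega) (by omega) h5
      have h8 := h.inj _ _ (by omega) (by omega) h6
      omega

theorem long_end0 {V : Type} [Fintype V] {H : SimpleGraph V} (hd : Deg2 H) (ht : ThetaFree H)
    {m : ℕ} {p : ℕ → V} (h : IsLong H m p) (hm : 1 ≤ m) :
    ∃ j, 2 ≤ j ∧ j ≤ m ∧ H.Adj (p j) (p 0) ∧ ∀ w, H.Adj (p 0) w → w = p 1 ∨ w = p j := by
  obtain ⟨u', hu1, hu2⟩ := hd _ _ (h.seq.adj 0 (by omega))
  obtain ⟨j, hj1, hj2, rfl⟩ := long_nbr h hu2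
  have hj : 2 ≤ j := by
    rcases Nat.lt_or_ge j 2 with h0 | h0
    · have : j = 0 + 1 := by omega
      exact absurd (by rw [this]) hu1
    · exact h0
  refine ⟨j, hj, hj2, hu2.symm, ?_⟩
  intro w hw
  obtain ⟨j', hj'1, hj'2, rfl⟩ := long_nbr h hw
  by_cases h1 : j' = 1
  · left
    rw [h1]
  · right
    rcases lt_trichotomy j j' with h2 | h2 | h2
    · exact (longb_uniq ht h.seq hj h2 hj'2 hu2.symm hw.symm).elim
    · rw [h2]
    · exact (longb_uniq ht h.seq (by omega) h2 hj2 hw.symm hu2.symm).elim

theorem long_end1 {V : Type} [Fintype V] {H : SimpleGraph V} (hd : Deg2 H) (ht : ThetaFree H)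
    {m : ℕ} {p : ℕ → V} (h : IsLong H m p) (hm : 1 ≤ m) :
    ∀ w, H.Adj (p 1) w → w = p 0 ∨ w = p 2 := by
  obtain ⟨j, hj2, hjm, hj0, -⟩ := long_end0 hd ht h hm
  obtain ⟨z, hz, hc, he⟩ := longb_circ h.seq hj2 hjm hj0
  have hz01 : z s(p 0, p 1) ≠ 0 := (he _).2 (Or.inr ⟨0, by omega, rfl⟩)
  have hz12 : z s(p 1, p 2) ≠ 0 := (he _).2 (Or.inr ⟨1, by omega, rfl⟩)
  have hinj := h.seq.inj
  intro w hw
  by_contra hcon
  push Not at hcon
  obtain ⟨hw0, hw2⟩ := hcon
  -- a circuit through `s(p 1, p 2)` and not through `s(p 0, p 1)` is impossible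
  have key : ∀ (k : ℕ) (q : ℕ → V), 2 ≤ k → (∀ i j, i ≤ k → j ≤ k → q i = q j → i = j) →
      (∀ i < k, H.Adj (q i) (q (i + 1))) → H.Adj (q k) (q 0) →
      (∃ i < k, s(p 1, p 2) = s(q i, q (i + 1))) → (∀ i ≤ k, q i ≠ p 0) → False := by
    intro k q hk hq1 hq2 hq3 hq4 hq5
    obtain ⟨z', hz', hc', he'⟩ := seq_circ H k hk q hq1 hq2 hq3
    have heq : z = z' := ht z z' hz hz' hc hc' ⟨s(p 1, p 2), hz12, (he' _).2 (Or.inr hq4)⟩
    rw [heq] at hz01
    rcases (he' _).1 hz01 with h4 | ⟨i, hi, h4⟩
    · rcases Sym2.eq_iff.1 h4 with ⟨h5, _⟩ | ⟨h5, _⟩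
      · exact hq5 k le_rfl h5.symm
      · exact hq5 0 (by omega) h5.symm
    · rcases Sym2.eq_iff.1 h4 with ⟨h5, _⟩ | ⟨h5, _⟩
      · exact hq5 i (by omega) h5.symm
      · exact hq5 (i + 1) (by omega) h5.symm
  by_cases hon : ∃ t, t ≤ m ∧ w = p t
  · obtain ⟨t, htm, rfl⟩ := hon
    have ht0 : t ≠ 0 := by
      rintro rfl
      exact hw0 rfl
    have ht1 : t ≠ 1 := by
      rintro rfl
      exact hw.ne rfl
    have ht2 : t ≠ 2 := by
      rintro rfl
      exact hw2 rfl
    refine key (t - 1) (fun i => p (i + 1)) (by omega) ?_ ?_ ?_ ?_ ?_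
    · intro a b ha hb hab
      have := hinj _ _ (by omega) (by omega) hab
      omega
    · intro i hi
      exact h.seq.adj (i + 1) (by omega)
    · have h1 : t - 1 + 1 = t := by omega
      simp only [h1, Nat.zero_add]
      exact hw.symm
    · exact ⟨0, by omega, rfl⟩
    · intro i hi h1
      have := hinj _ _ (by omega) (by omega) h1
      omega
  · push Not at hon
    obtain ⟨w', hw'1, hw'2⟩ := hd _ _ hw.symm
    by_cases hon' : ∃ t, t ≤ m ∧ w' = p t
    · obtain ⟨t, htm, rfl⟩ := hon'
      have ht0 : t ≠ 0 := by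
        rintro rfl
        obtain ⟨j', _, hj', h1⟩ := long_nbr h hw'2.symm
        exact hon j' hj' h1
      have ht1 : t ≠ 1 := by
        rintro rfl
        exact hw'1 rfl
      refine key t (fun i => if i = 0 then w else p i) (by omega) ?_ ?_ ?_ ?_ ?_
      · intro a b ha hb hab
        rcases Nat.eq_zero_or_pos a with h1 | h1 <;> rcases Nat.eq_zero_or_pos b with h2 | h2
        · omega
        · have h3 : b ≠ 0 := by omega
          simp only [h1, if_true, h3, if_false] at hab
          exact absurd hab (hon b (by omega))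
        · have h3 : a ≠ 0 := by omega
          simp only [h2, if_true, h3, if_false] at hab
          exact absurd hab.symm (hon a (by omega))
        · have h3 : a ≠ 0 := by omega
          have h4 : b ≠ 0 := by omega
          simp only [h3, h4, if_false] at hab
          exact hinj _ _ (by omega) (by omega) hab
      · intro i hi
        rcases Nat.eq_zero_or_pos i with h1 | h1
        · subst h1
          simpa using hw.symm
        · have h3 : i ≠ 0 := by omega
          simpa [h3] using h.seq.adj i (by omega)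
      · simpa [ht0] using hw'2.symm
      · exact ⟨1, by omega, by simp⟩
      · intro i hi h1
        rcases Nat.eq_zero_or_pos i with h2 | h2
        · simp only [h2, if_true] at h1
          exact hw0 h1
        · have h3 : i ≠ 0 := by omega
          simp only [h3, if_false] at h1
          have := hinj _ _ (by omega) (by omega) h1
          omega
    · push Not at hon'
      have hq : IsSeq H (m + 1) (fun i => if i = 0 then w' else if i = 1 then w else p (i - 1)) := by
        have hne : w ≠ w' := hw'2.ne
        refine ⟨?_, ?_⟩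
        · have hv : ∀ a, a ≤ m + 1 → (a = 0 ∨ a = 1 ∨ 2 ≤ a) := by
            intro a _
            omega
          intro a b ha hb hab
          rcases hv a ha with h1 | h1 | h1 <;> rcases hv b hb with h2 | h2 | h2
          · omega
          · subst h1 h2
            simp at hab
            exact absurd hab.symm hne
          · have h3 : b ≠ 0 := by omega
            have h4 : b ≠ 1 := by omega
            simp only [h1, if_true, h3, h4, if_false] at hab
            exact absurd hab (hon' _ (by omega))
          · subst h1 h2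
            simp at hab
            exact absurd hab hne
          · omega
          · have h3 : b ≠ 0 := by omega
            have h4 : b ≠ 1 := by omega
            simp only [h1, if_true, h3, h4, if_false, one_ne_zero] at hab
            exact absurd hab (hon _ (by omega))
          · have h3 : a ≠ 0 := by omega
            have h4 : a ≠ 1 := by omega
            simp only [h2, if_true, h3, h4, if_false] at hab
            exact absurd hab.symm (hon' _ (by omega))
          · have h3 : a ≠ 0 := by omega
            have h4 : a ≠ 1 := by omega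
            simp only [h2, if_true, h3, h4, if_false, one_ne_zero] at hab
            exact absurd hab.symm (hon _ (by omega))
          · have h3 : a ≠ 0 := by omega
            have h4 : a ≠ 1 := by omega
            have h5 : b ≠ 0 := by omega
            have h6 : b ≠ 1 := by omega
            simp only [h3, h4, h5, h6, if_false] at hab
            have := hinj _ _ (by omega) (by omega) hab
            omega
        · intro i hi
          rcases (by omega : i = 0 ∨ i = 1 ∨ 2 ≤ i) with h1 | h1 | h1
          · subst h1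
            simpa using hw'2.symm
          · subst h1
            simpa using hw.symm
          · have h3 : i ≠ 0 := by omega
            have h4 : i ≠ 1 := by omega
            have h5 := h.seq.adj (i - 1) (by omega)
            have h6 : i - 1 + 1 = i := by omega
            rw [h6] at h5
            simpa [h3, h4] using h5
      have := h.max _ _ hq
      omega

theorem long_end {V : Type} [Fintype V] {H : SimpleGraph V} (hd : Deg2 H) (ht : ThetaFree H)
    {m : ℕ} {p : ℕ → V} (h : IsLong H m p) (hm : 1 ≤ m) : ∃ j, j ≤ m ∧ EndCyc H j p := by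
  obtain ⟨j, hj2, hjm, hj0, hd0⟩ := long_end0 hd ht h hm
  refine ⟨j, hjm, ⟨hj2, ⟨?_, ?_⟩, hj0, hd0, long_end1 hd ht h hm, ?_⟩⟩
  · intro a b ha hb hab
    exact h.seq.inj a b (by omega) (by omega) hab
  · intro i hi
    exact h.seq.adj i (by omega)
  · intro h3 w hw
    obtain ⟨j', hj'2, hj'm, hj'0, hd'⟩ := long_end0 hd ht (long_rot h (by omega) hjm hj0) hm
    have e0 : (0 : ℕ) < j := by omega
    have e1 : (1 : ℕ) < j := by omega
    have e2 : j - 1 - 0 = j - 1 := by omega
    have e3 : j - 1 - 1 = j - 2 := by omega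
    simp only [e0, e1, if_true, e2, e3] at hd'
    have hadj : H.Adj (p (j - 1)) (p j) := by
      have h4 := h.seq.adj (j - 1) (by omega)
      have h5 : j - 1 + 1 = j := by omega
      rwa [h5] at h4
    rcases hd' _ hadj with h4 | h4
    · have := h.seq.inj _ _ hjm (by omega) h4
      omega
    · rw [← h4] at hd'
      exact hd' w hw

end Pool.Agent.Work.MP_3035da_co.K
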