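import Pool.Agent.Work.MP_3035da_co.K.Link
import Pool.Agent.Work.MP_3035da_co.K.NoBridge
import Pool.Agent.Work.MP_3035da_co.K.Circuits

/-!
Module OUT: the edges outside `C` all meet the component of `v`.

Setting `Sep G f v C S`.  Note `v ∉ VC C` (`sum`, `inside`).  An edge `e` of `G` with `C e = 0` is an inner
edge if some face of `S` contains it (then all faces through `e` are in `S`: the number of faces of `S`
through `e` is even because `C e = 0`, and `FaceSys.two`), otherwise an outer edge.

no_in (propagation): if `u ∉ VC C` and some outer edge is at `u`, then no face at `u` is in `S`.  By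
`same_class` (at `u ∉ VC C`) all faces at `u` are in `S`, or none; the outer edge is in some face
(`no_bridge`; a third vertex exists by `third` as `C ≠ 0` gives a nonzero face), and this face is not
in `S`.

out_path: suppose `P` is as in the statement.  Let `A` be the arc of `C` from `c` to `c'` (`circ_arc`).
`Z = P + A ∈ cyc G`, so `Z = ∑ i ∈ R, f i`.  `Z` has no edge at `v` (`A` has support in `C`, `v ∉ VC C`), so by
`same_class` all faces at `v` are in `R` or none; replacing `R` by its complement (`FaceSys.compl`) we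
may assume: no face at `v` is in `R`.  Let `z = ∑ i ∈ R ∩ S, f i`.  Claim `z = A`.  At `e` with `C e = 0`: if no
face of `S` contains `e` then `z e = 0 = A e`.  If some does, all faces through `e` are in `S`, so
`z e = Z e = P e + A e = 0` (`P e = 0` by `hP`, `A e = 0`).  At `e` with `C e ≠ 0`: an odd number of faces of
`S` contain `e`, and some face `i₀` at `v` contains `e` (`outer`), `i₀ ∉ S`, `i₀ ∉ R`; so exactly the faces
`i ∈ S` and `i₀` contain `e`, and `z e = 1` iff `i ∈ R` iff `Z e = 1`; `Z e = P e + A e = A e` (`hP`).  So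
`z = A`, but `z ∈ cyc G` has boundary `0` and `bd A c = 1`.  Contradiction.

out_edge: suppose that neither `a` nor `b` is reachable from `v` in `av G (VC C)`.
Case `a, b ∈ VC C`: `P = sing s(a,b)` contradicts `out_path` (`v ≠ a, b`).
Case `a ∉ VC C` (the case `b ∉ VC C` is the same): let `K` be the set of vertices reachable from `a` in
`av G (VC C)`; all are outside `VC C`, `v ∉ K`.  By induction along walks, no face at a vertex of `K` is
in `S`: true at `a` (`no_in`), and if it is true at `u` and `u u'` is an edge, it is in a face, not in `S`, so by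
`same_class` it is true at `u'`.  So all edges of `G` with an end in `K` are outer (`C e = 0` as one end
is not in `VC C`).  Let `N` = the vertices of `VC C` with a neighbour in `K`.  `N` has two different
elements: otherwise there is `c₀ ∈ VC C` with `N ⊆ {c₀}` (`VC C` is not empty), `a ≠ c₀`, `v ≠ c₀`, and a walk
from `a` to `v` in `av G {c₀}` (`TwoConn`) leaves `K` by an edge `u u'` with `u ∈ K`, `u' ∉ K`, so `u' ∈ VC C`,
`u' ∈ N`, `u' = c₀`, impossible.  Let `c ≠ c'` in `N`, with neighbours `u`, `u'` in `K`; `u` and `u'` are joined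
inside `K` (in the graph `av G Kᶜ` of the edges of `G` with both ends in `K`), chain `k` by
`chain_of_reachable`; `P = k + sing s(u,c) + sing s(u',c')` contradicts `out_path`.
-/

set_option autoImplicit false

namespace Pool.Agent.Work.MP_3035da_co.K

open Finset

section
variable {V ι : Type} [Fintype V] [Fintype ι] {G : SimpleGraph V} {f : ι → Chain V} {v : V}
  {C : Chain V} {S : Finset ι}

theorem Sep.v_not (h : Sep G f v C S) : v ∉ VC C := by
  rintro ⟨d, hd⟩
  apply hd
  rw [← h.sum, Finset.sum_apply]
  exact sum_eq_zero fun i hi => h.inside i hi d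

private theorem Sep.inner_all (h : Sep G f v C S) {e : Sym2 V} (hC : C e = 0) {i : ι} (hi : i ∈ S)
    (hie : f i e = 1) : ∀ j, f j e = 1 → j ∈ S := by
  classical
  intro j hj
  by_contra hjS
  obtain ⟨j', hj'i, hj'e, hall⟩ := h.fs.pair hie
  have hjj : j = j' := by
    rcases hall j hj with h1 | h1
    · exact absurd (h1 ▸ hi) hjS
    · exact h1
  have hs : S.filter (fun k => f k e = 1) = {i} := by
    ext k
    simp only [mem_filter, mem_singleton]
    constructor
    · rintro ⟨hk, hke⟩
      rcases hall k hke with h1 | h1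
      · exact h1
      · exact absurd (by rw [hjj, ← h1]; exact hk) hjS
    · rintro rfl
      exact ⟨hi, hie⟩
  have := sum_apply_card f S e
  rw [h.sum, hC, hs, card_singleton] at this
  exact absurd this (by decide)

private theorem Sep.face_ne (h : Sep G f v C S) : ∃ i, f i ≠ 0 := by
  by_contra hcon
  push Not at hcon
  apply h.circ.2.1
  rw [← h.sum]
  exact sum_eq_zero fun i _ => hcon i

private theorem Sep.face_of_adj (h : Sep G f v C S) {a b : V} (hab : G.Adj a b) :
    ∃ i, f i s(a, b) = 1 := by
  obtain ⟨i, hi⟩ := h.face_ne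
  obtain ⟨d, hd, hda, hdb⟩ := third h.fs hi a b
  exact no_bridge h.conn h.fs hab hd hda hdb

private theorem Sep.class_at (h : Sep G f v C S) {u : V} (hu : u ∉ VC C) :
    (∀ i c, f i s(u, c) = 1 → i ∈ S) ∨ (∀ i c, f i s(u, c) = 1 → i ∉ S) := by
  refine same_class h.conn h.fs S u fun c => ?_
  rw [h.sum]
  by_contra hc
  exact hu ⟨c, hc⟩

/-- at a vertex outside `C` that is joined to a vertex outside `C` with no face in `S`, no face is in `S` -/
theorem Sep.no_in (h : Sep G f v C S) {u u' : V} (hu : u ∉ VC C) (huu : G.Adj u u')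
    (ho : ∀ i ∈ S, f i s(u, u') = 0) : ∀ i ∈ S, ∀ d, f i s(u, d) = 0 := by
  rcases h.class_at hu with h1 | h1
  · obtain ⟨i, hi⟩ := h.face_of_adj huu
    have := ho i (h1 i u' hi)
    rw [this] at hi
    exact absurd hi (by decide)
  · intro i hi d
    rcases zo (f i s(u, d)) with h2 | h2
    · exact h2
    · exact absurd hi (h1 i d h2)

private theorem Sep.normal (h : Sep G f v C S) {Z : Chain V} (hZ : Z ∈ cyc G)
    (hv : ∀ d, Z s(v, d) = 0) :
    ∃ R : Finset ι, Z = ∑ i ∈ R, f i ∧ ∀ i ∈ R, ∀ d, f i s(v, d) = 0 := by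
  classical
  obtain ⟨R, hR⟩ := h.fs.span Z hZ
  rcases same_class h.conn h.fs R v (fun c => by rw [← hR]; exact hv c) with h1 | h1
  · refine ⟨Rᶜ, by rw [h.fs.compl R]; exact hR, fun i hi d => ?_⟩
    rcases zo (f i s(v, d)) with h2 | h2
    · exact h2
    · exact absurd (h1 i d h2) (by simpa using hi)
  · refine ⟨R, hR, fun i hi d => ?_⟩
    rcases zo (f i s(v, d)) with h2 | h2
    · exact h2
    · exact absurd hi (h1 i d h2)

open Classical in
theorem Sep.out_path (h : Sep G f v C S) {P : Chain V} {c c' : V} (hcc : c ≠ c') (hc : c ∈ VC C)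
    (hc' : c' ∈ VC C)
    (hP : ∀ e, P e ≠ 0 → e ∈ G.edgeSet ∧ C e = 0 ∧ ∀ i ∈ S, f i e = 0)
    (hPv : ∀ d, P s(v, d) = 0)
    (hb : ∀ w, bd P w = (if w = c then 1 else 0) + (if w = c' then 1 else 0)) : False := by
  obtain ⟨A, hA, hbA⟩ := circ_arc h.circ hc hc'
  have hZ : P + A ∈ cyc G := by
    refine ⟨fun e he => ?_, fun w => ?_⟩
    · by_cases h1 : P e = 0
      · exact h.mem.1 e (hA e (fun h2 => he (by simp [h1, h2])))
      · exact (hP e h1).1
    · rw [bd_add, hb, hbA]
      exact CharTwo.add_self_eq_zero _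
  have hAv : ∀ d, A s(v, d) = 0 := by
    intro d
    by_contra hd
    exact h.v_not ⟨d, hA _ hd⟩
  obtain ⟨R, hR, hRv⟩ := h.normal hZ (fun d => by
    rw [Pi.add_apply, hPv d, hAv d, add_zero])
  have hz : A = ∑ i ∈ R ∩ S, f i := by
    funext e
    by_cases hCe : C e = 0
    · have hAe : A e = 0 := by
        by_contra h1
        exact hA e h1 hCe
      rw [hAe, Finset.sum_apply]
      by_cases hin : ∃ i ∈ S, f i e = 1
      · obtain ⟨i, hi, hie⟩ := hin
        have hPe : P e = 0 := by
          by_contra h1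
          have := (hP e h1).2.2 i hi
          rw [this] at hie
          exact absurd hie (by decide)
        have h2 : (∑ i ∈ R, f i) e = 0 := by
          rw [← hR, Pi.add_apply, hPe, hAe, add_zero]
        rw [Finset.sum_apply] at h2
        rw [← h2]
        symm
        refine sum_subset inter_subset_left fun j hj hjn => ?_
        rcases zo (f j e) with h3 | h3
        · exact h3
        · exact absurd (mem_inter.mpr ⟨hj, h.inner_all hCe hi hie j h3⟩) hjn
      · push Not at hin
        symm
        refine sum_eq_zero fun j hj => ?_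
        rcases zo (f j e) with h3 | h3
        · exact h3
        · exact absurd h3 (hin j (mem_inter.mp hj).2)
    · have hPe : P e = 0 := by
        by_contra h1
        exact hCe (hP e h1).2.1
      have h2 : A e = (∑ i ∈ R, f i) e := by
        rw [← hR, Pi.add_apply, hPe, zero_add]
      rw [h2, Finset.sum_apply, Finset.sum_apply]
      obtain ⟨i₀, hi₀, d, hd⟩ := h.outer e hCe
      have hi₀S : i₀ ∉ S := fun h1 => by
        rw [h.inside i₀ h1 d] at hd
        exact absurd hd (by decide)
      have hi₀R : i₀ ∉ R := fun h1 => by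
        rw [hRv i₀ h1 d] at hd
        exact absurd hd (by decide)
      have hex : ∃ i ∈ S, f i e = 1 := by
        by_contra hcon
        push Not at hcon
        apply hCe
        rw [← h.sum, Finset.sum_apply]
        refine sum_eq_zero fun j hj => ?_
        rcases zo (f j e) with h3 | h3
        · exact h3
        · exact absurd h3 (hcon j hj)
      obtain ⟨i, hi, hie⟩ := hex
      obtain ⟨j', hj'i, hj'e, hall⟩ := h.fs.pair hie
      have hij : i₀ = j' := by
        rcases hall i₀ hi₀ with h1 | h1
        · exact absurd (h1 ▸ hi) hi₀S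
        · exact h1
      symm
      refine sum_subset inter_subset_left fun j hj hjn => ?_
      rcases zo (f j e) with h3 | h3
      · exact h3
      · rcases hall j h3 with h1 | h1
        · exact absurd (mem_inter.mpr ⟨hj, h1 ▸ hi⟩) hjn
        · exact absurd (by rw [hij, ← h1]; exact hj) hi₀R
  have hAc : A ∈ cyc G := by
    rw [hz]
    exact (cyc G).sum_mem fun i _ => h.fs.mem i
  have := hAc.2 c
  rw [hbA c, if_pos rfl, if_neg hcc] at this
  exact absurd this (by decide)

private theorem Sep.prop_in (h : Sep G f v C S) : ∀ {u w : V} (_ : (av G (VC C)).Walk u w),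
    (∀ i ∈ S, ∀ d, f i s(u, d) = 0) → ∀ i ∈ S, ∀ d, f i s(w, d) = 0 := by
  intro u w p
  induction p with
  | nil => exact fun h0 => h0
  | @cons u u' w huu' p ih =>
    intro h0
    refine ih (h.no_in huu'.2.2 huu'.1.symm fun i hi => ?_)
    rw [Sym2.eq_swap]
    exact h0 i hi u'

private theorem Sep.out_aux (h : Sep G f v C S) {a b : V} (hab : G.Adj a b) (ha : a ∉ VC C)
    (hS : ∀ i ∈ S, f i s(a, b) = 0) (hna : ¬ (av G (VC C)).Reachable v a) : False := by
  classical
  set H := av G (VC C) with hH
  have hKv : ¬ H.Reachable a v := fun h1 => hna h1.symm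
  have hKn : ∀ u, H.Reachable a u → u ∉ VC C := by
    intro u hu
    obtain ⟨p⟩ := hu.symm
    cases p with
    | nil => exact ha
    | cons h1 _ => exact h1.2.1
  have hKin : ∀ u, H.Reachable a u → ∀ i ∈ S, ∀ d, f i s(u, d) = 0 := by
    rintro u ⟨p⟩
    exact h.prop_in p (h.no_in ha hab hS)
  have hN : ∃ c c' u u' : V, c ≠ c' ∧ c ∈ VC C ∧ c' ∈ VC C ∧ H.Reachable a u ∧
      H.Reachable a u' ∧ G.Adj u c ∧ G.Adj u' c' := by
    by_contra hcon
    have hc₀ : ∃ c₀ ∈ VC C, ∀ c ∈ VC C, ∀ u, H.Reachable a u → G.Adj u c → c = c₀ := by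
      by_cases hex : ∃ c ∈ VC C, ∃ u, H.Reachable a u ∧ G.Adj u c
      · obtain ⟨c₀, hc₀, u₀, hu₀, hadj₀⟩ := hex
        refine ⟨c₀, hc₀, fun c hc u hu hadj => ?_⟩
        by_contra hne
        exact hcon ⟨c, c₀, u, u₀, hne, hc, hc₀, hu, hu₀, hadj, hadj₀⟩
      · have hne : ∃ e, C e ≠ 0 := by
          by_contra h0
          push Not at h0
          exact h.circ.2.1 (funext h0)
        obtain ⟨e, he⟩ := hne
        induction e using Sym2.ind with
        | _ p q =>
          exact ⟨p, ⟨q, he⟩, fun c hc u hu hadj => absurd ⟨c, hc, u, hu, hadj⟩ hex⟩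
    obtain ⟨c₀, hc₀, huniq⟩ := hc₀
    have hreach := h.conn c₀ a v ⟨b, hab⟩ h.hv (fun h1 => ha (h1 ▸ hc₀))
      (fun h1 => h.v_not (h1 ▸ hc₀))
    obtain ⟨p⟩ := hreach
    have key : ∀ {u w : V} (_ : (av G {c₀}).Walk u w), H.Reachable a u → H.Reachable a w := by
      intro u w p
      induction p with
      | nil => exact fun h0 => h0
      | @cons u u' w huu' p ih =>
        intro hu
        by_cases hu' : u' ∈ VC C
        · exact absurd (huniq u' hu' u hu huu'.1) huu'.2.2
        · have : H.Adj u u' := ⟨huu'.1, hKn u hu, hu'⟩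
          exact ih (hu.trans this.reachable)
    exact hKv (key p (SimpleGraph.Reachable.refl a))
  obtain ⟨c, c', u, u', hcc, hc, hc', hu, hu', huc, huc'⟩ := hN
  set H' := av G {w | ¬ H.Reachable a w} with hH'
  have hreach' : ∀ {u w : V} (_ : H.Walk u w), H.Reachable a u → H'.Reachable u w := by
    intro u w p
    induction p with
    | nil => exact fun _ => SimpleGraph.Reachable.refl _
    | @cons u u' w huu' p ih =>
      intro hu
      have hu' : H.Reachable a u' := hu.trans huu'.reachable
      have : H'.Adj u u' := ⟨huu'.1, fun h1 => h1 hu, fun h1 => h1 hu'⟩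
      exact this.reachable.trans (ih hu')
  have huu' : H'.Reachable u u' := by
    obtain ⟨p⟩ := hu.symm.trans hu'
    exact hreach' p hu
  obtain ⟨k, hk, hbk⟩ := chain_of_reachable huu'
  have hucne : u ≠ c := fun h1 => hKn u hu (h1 ▸ hc)
  have huc'ne : u' ≠ c' := fun h1 => hKn u' hu' (h1 ▸ hc')
  have hsupp : ∀ e, (k + sing s(u, c) + sing s(u', c')) e ≠ 0 →
      k e ≠ 0 ∨ e = s(u, c) ∨ e = s(u', c') := by
    intro e he
    by_contra hcon
    push Not at hcon
    apply he
    simp only [Pi.add_apply]
    rw [hcon.1, sing_ne hcon.2.1, sing_ne hcon.2.2]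
    rfl
  have hend : ∀ e, (k + sing s(u, c) + sing s(u', c')) e ≠ 0 →
      ∃ q r, e = s(q, r) ∧ H.Reachable a q ∧ G.Adj q r ∧ (H.Reachable a r ∨ r ∈ VC C) := by
    intro e he
    rcases hsupp e he with h1 | h1 | h1
    · have h2 := hk e h1
      induction e using Sym2.ind with
      | _ q r =>
        have h3 : H'.Adj q r := h2
        refine ⟨q, r, rfl, ?_, h3.1, Or.inl ?_⟩
        · by_contra h4; exact h3.2.1 h4
        · by_contra h4; exact h3.2.2 h4
    · exact ⟨u, c, h1, hu, huc, Or.inr hc⟩
    · exact ⟨u', c', h1, hu', huc', Or.inr hc'⟩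
  refine h.out_path (P := k + sing s(u, c) + sing s(u', c')) hcc hc hc' ?_ ?_ ?_
  · intro e he
    obtain ⟨q, r, rfl, hq, hqr, -⟩ := hend e he
    refine ⟨hqr, ?_, fun i hi => hKin q hq i hi r⟩
    by_contra h1
    exact hKn q hq ⟨r, h1⟩
  · intro d
    by_contra hd
    obtain ⟨q, r, hqr, hq, -, hr⟩ := hend _ hd
    rcases Sym2.eq_iff.mp hqr with ⟨h1, h2⟩ | ⟨h1, h2⟩
    · exact hKv (h1 ▸ hq)
    · rcases hr with hr | hr
      · exact hKv (h1 ▸ hr)
      · exact h.v_not (h1 ▸ hr)
  · intro w
    rw [bd_add, bd_add, hbk, bd_sing hucne, bd_sing huc'ne]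
    generalize (if w = u then (1 : ZMod 2) else 0) = x1
    generalize (if w = u' then (1 : ZMod 2) else 0) = x2
    generalize (if w = c then (1 : ZMod 2) else 0) = x3
    generalize (if w = c' then (1 : ZMod 2) else 0) = x4
    revert x1 x2 x3 x4
    decide

theorem Sep.out_edge (h : Sep G f v C S) {a b : V} (hab : G.Adj a b) (hC : C s(a, b) = 0)
    (hS : ∀ i ∈ S, f i s(a, b) = 0) :
    (av G (VC C)).Reachable v a ∨ (av G (VC C)).Reachable v b := by
  classical
  by_contra hcon
  push Not at hcon
  by_cases ha : a ∈ VC C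
  · by_cases hb : b ∈ VC C
    · refine h.out_path (P := sing s(a, b)) hab.ne ha hb ?_ ?_ ?_
      · intro e he
        have : e = s(a, b) := by
          by_contra h1
          exact he (sing_ne h1)
        rw [this]
        exact ⟨hab, hC, hS⟩
      · intro d
        refine sing_ne fun h1 => ?_
        rcases Sym2.eq_iff.mp h1 with ⟨h2, -⟩ | ⟨h2, -⟩
        · exact h.v_not (h2 ▸ ha)
        · exact h.v_not (h2 ▸ hb)
      · intro w
        exact bd_sing hab.ne w
    · exact h.out_aux hab.symm hb (fun i hi => by rw [Sym2.eq_swap]; exact hS i hi) hcon.2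
  · exact h.out_aux hab ha hS hcon.1

end

end Pool.Agent.Work.MP_3035da_co.K
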