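import Pool.Agent.Work.MP_3035da_co.K.Basic

set_option autoImplicit false

namespace Pool.Agent.Work.MP_3035da_co.K

/-- `p 0, …, p m` is a path of `H` -/
structure IsSeq {V : Type} (H : SimpleGraph V) (m : ℕ) (p : ℕ → V) : Prop where
  inj : ∀ i j, i ≤ m → j ≤ m → p i = p j → i = j
  adj : ∀ i < m, H.Adj (p i) (p (i + 1))

/-- `p 0, …, p m` is a longest path of `H` -/
structure IsLong {V : Type} (H : SimpleGraph V) (m : ℕ) (p : ℕ → V) : Prop where
  seq : IsSeq H m p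
  max : ∀ (m' : ℕ) (p' : ℕ → V), IsSeq H m' p' → m' ≤ m

/-- `p 0, …, p k` is a cycle of `H`; the vertices `p 0`, `p 1` (and `p (k-1)` if `3 ≤ k`) have no
neighbour in `H` except on this cycle -/
structure EndCyc {V : Type} (H : SimpleGraph V) (k : ℕ) (p : ℕ → V) : Prop where
  hk : 2 ≤ k
  seq : IsSeq H k p
  last : H.Adj (p k) (p 0)
  d0 : ∀ w, H.Adj (p 0) w → w = p 1 ∨ w = p k
  d1 : ∀ w, H.Adj (p 1) w → w = p 0 ∨ w = p 2
  dl : 3 ≤ k → ∀ w, H.Adj (p (k - 1)) w → w = p (k - 2) ∨ w = p k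

/-- minimum degree two, for the vertices that are not isolated -/
def Deg2 {V : Type} (H : SimpleGraph V) : Prop :=
  ∀ v u, H.Adj v u → ∃ u', u' ≠ u ∧ H.Adj v u'

/-- the closed rim `c 0, …, c (n-1)`, periodically continued, and the hub vertices `x`, `y` -/
structure Rim {V : Type} (G : SimpleGraph V) (x y : V) (n : ℕ) (c : ℕ → V) : Prop where
  hn : 3 ≤ n
  per : ∀ i, c (i + n) = c i
  inj : ∀ i j, i < n → j < n → c i = c j → i = j
  adj : ∀ i, G.Adj (c i) (c (i + 1))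
  nx : ∀ i, c i ≠ x
  ny : ∀ i, c i ≠ y
  nb : ∀ i w, G.Adj (c i) w → w = x ∨ w = y ∨ w = c (i + 1) ∨ w = c (i + n - 1)

end Pool.Agent.Work.MP_3035da_co.K
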