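import Pool.Agent.Work.MP_3035da_co.K.CaseOne
import Pool.Agent.Work.MP_3035da_co.K.CaseTwo

/-!
Theta: assembly (done).
-/

set_option autoImplicit false

namespace Pool.Agent.Work.MP_3035da_co.K

open Finset

theorem theta {V : Type} [Fintype V] {G : SimpleGraph V} (hG : MinCE G) {x y : V}
    (hxy : G.Adj x y) : ThetaFree (av G {x, y}) := by
  obtain ⟨n, f, hf⟩ := hG.ctr_plane hxy
  rw [← av_ctr]
  refine case_two (ctr_twoConn hG hxy) hf (x_mem hG hxy) ?_
  intro C S h i hi e he hC
  exact case_one hG hxy h hi he hC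

end Pool.Agent.Work.MP_3035da_co.K
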