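import Pool.Agent.Work.MP_3035da_co.K.SeqCirc
import Pool.Agent.Work.MP_3035da_co.K.SeqDefs
import Pool.Agent.Work.MP_3035da_co.K.NoTri
import Pool.Agent.Work.MP_3035da_co.K.Theta

/-!
Module TWOENDS.

arc_theta: the circuit of `q 0, …, q k` and that of `y, q a, q (a+1), …, q b` (a sequence with last index
`b - a + 1 ≥ 2`, `seq_circ`) share the edge `s(q a, q (a+1))`; the second contains `s(y, q a)`, the first
does not.  So `H` is not theta-free.

nbr_xy: `v ∈ U G`, `v ≠ x, y` with at most two neighbours in `av G {x,y}` (both in `{a, b}`) is adjacent to `x`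
or `y`: `deg_ge`.

end_nbr: both `x` and `y` have a neighbour in `{p 0, p 1}`: suppose `x` has none.  `p 0` and `p 1` have at most two
neighbours in `av G {x,y}` each (`d0`, `d1`), so with `deg_ge` both are adjacent to `y`, and `p 0` has exactly
3 neighbours; but `p 0, p 1, y` is a triangle: `no_tri`.  The same with `x` and `y` exchanged
(`av G {x,y} = av G {y,x}`, `Set.pair_comm`).

two_ends: `y` has at most one neighbour on the cycle `p' 0, …, p' k'`: let `x` be adjacent to `p s`,
`s = 0` or `1` (`end_nbr`); `av G {x, p s}` is theta-free (`theta` for the edge `x (p s)`), contains the cycle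
(its edges avoid `x`, `y`, and its vertices differ from `p s`), and the edges from `y` (`≠ x, p s`) to the
cycle; use `arc_theta`.  The same for `x`.  `p' 0` and `p' 1` are each adjacent to `x` or `y`; so one of them
is adjacent to exactly `x`, the other to exactly `y`, and no other vertex of the cycle is adjacent to `x`
or `y`.  If `3 ≤ k'` then `p' (k'-1)` (`dl`) is adjacent to `x` or `y`: contradiction.  If `k' = 2` then `p' 0` has
exactly the neighbours `p' 1`, `p' 2` and one of `x`, `y`, and is in the triangle `p' 0, p' 1, p' 2`: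
`no_tri`.
-/

set_option autoImplicit false

namespace Pool.Agent.Work.MP_3035da_co.K

theorem arc_theta {V : Type} [Fintype V] {H : SimpleGraph V} {k : ℕ} {q : ℕ → V} (hk : 2 ≤ k)
    (hq : IsSeq H k q) (hlast : H.Adj (q k) (q 0)) {y : V} (hy : ∀ i ≤ k, q i ≠ y) {a b : ℕ}
    (hab : a < b) (hbk : b ≤ k) (ha : H.Adj y (q a)) (hb : H.Adj y (q b)) : ¬ ThetaFree H := by
  intro hT
  obtain ⟨z₁, hz₁, c₁, m₁⟩ := seq_circ H k hk q hq.inj hq.adj hlast
  set r : ℕ → V := fun n => match n with
    | 0 => y
    | (i + 1) => q (a + i) with hr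
  have r0 : r 0 = y := rfl
  have rs : ∀ i, r (i + 1) = q (a + i) := fun i => rfl
  have rinj : ∀ i j, i ≤ b - a + 1 → j ≤ b - a + 1 → r i = r j → i = j := by
    intro i j hi hj hij
    rcases i with _ | i <;> rcases j with _ | j
    · rfl
    · rw [r0, rs] at hij
      exact absurd hij.symm (hy _ (by omega))
    · rw [r0, rs] at hij
      exact absurd hij (hy _ (by omega))
    · rw [rs, rs] at hij
      have := hq.inj _ _ (by omega) (by omega) hij
      omega
  have radj : ∀ i < b - a + 1, H.Adj (r i) (r (i + 1)) := by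
    intro i hi
    rcases i with _ | i
    · rw [r0, rs]; exact ha
    · rw [rs, rs]
      exact hq.adj (a + i) (by omega)
  have rlast : H.Adj (r (b - a + 1)) (r 0) := by
    rw [rs, r0, show a + (b - a) = b by omega]
    exact hb.symm
  obtain ⟨z₂, hz₂, c₂, m₂⟩ := seq_circ H (b - a + 1) (by omega) r rinj radj rlast
  have h12 : z₁ = z₂ := by
    refine hT z₁ z₂ hz₁ hz₂ c₁ c₂ ⟨s(q a, q (a + 1)), ?_, ?_⟩
    · exact (m₁ _).mpr (Or.inr ⟨a, by omega, rfl⟩)
    · exact (m₂ _).mpr (Or.inr ⟨1, by omega, rfl⟩)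
  have h2 : z₁ s(y, q a) ≠ 0 := by
    rw [h12]
    exact (m₂ _).mpr (Or.inr ⟨0, by omega, rfl⟩)
  have hmem : ∀ c d : V, s(y, q a) = s(c, d) → y = c ∨ y = d := by
    intro c d h
    have : y ∈ s(c, d) := h ▸ Sym2.mem_mk_left y (q a)
    exact Sym2.mem_iff.mp this
  rcases (m₁ _).mp h2 with h | ⟨i, hi, h⟩
  · rcases hmem _ _ h with h | h
    · exact hy k le_rfl h.symm
    · exact hy 0 (by omega) h.symm
  · rcases hmem _ _ h with h | h
    · exact hy i (by omega) h.symm
    · exact hy (i + 1) (by omega) h.symm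

private theorem nbr_xy {V : Type} [Fintype V] {G : SimpleGraph V} (hG : MinCE G) {x y v a b : V}
    (hv : (av G {x, y}).Adj v a) (h : ∀ w, (av G {x, y}).Adj v w → w = a ∨ w = b) :
    G.Adj v x ∨ G.Adj v y := by
  classical
  by_contra hcon
  push Not at hcon
  have h3 := deg_ge hG (v := v) ⟨a, hv.1⟩
  have hsub : G.neighborSet v ⊆ (({a, b} : Finset V) : Set V) := by
    intro w hw
    have hw' : G.Adj v w := hw
    have : (av G {x, y}).Adj v w := by
      refine ⟨hw', hv.2.1, ?_⟩
      rintro (rfl | rfl)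
      · exact hcon.1 hw'
      · exact hcon.2 hw'
    simpa using h w this
  have h4 := Set.ncard_le_ncard hsub (Set.toFinite _)
  rw [Set.ncard_coe_finset] at h4
  have h5 := Finset.card_le_two (a := a) (b := b)
  omega

private theorem tri_three {V : Type} [Fintype V] {G : SimpleGraph V} (hG : MinCE G) {u a b c : V}
    (hua : G.Adj u a) (hub : G.Adj u b) (hab : G.Adj a b)
    (h : ∀ w, G.Adj u w → w = a ∨ w = b ∨ w = c) : False := by
  classical
  have h4 := no_tri hG hua hub hab
  have hsub : G.neighborSet u ⊆ (({a, b, c} : Finset V) : Set V) := by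
    intro w hw
    have := h w hw
    simpa using this
  have h5 := Set.ncard_le_ncard hsub (Set.toFinite _)
  rw [Set.ncard_coe_finset] at h5
  have h6 := Finset.card_le_three (a := a) (b := b) (c := c)
  omega

private theorem end_one {V : Type} [Fintype V] {G : SimpleGraph V} (hG : MinCE G) {x y : V}
    {k : ℕ} {p : ℕ → V} (h : EndCyc (av G {x, y}) k p) :
    (G.Adj x (p 0) ∨ G.Adj x (p 1)) := by
  by_contra hcon
  push Not at hcon
  have hk := h.hk
  have a01 : (av G {x, y}).Adj (p 0) (p 1) := h.seq.adj 0 (by omega)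
  have e0 : G.Adj (p 0) y := by
    rcases nbr_xy hG a01 h.d0 with h' | h'
    · exact absurd h'.symm hcon.1
    · exact h'
  have e1 : G.Adj (p 1) y := by
    rcases nbr_xy hG a01.symm h.d1 with h' | h'
    · exact absurd h'.symm hcon.2
    · exact h'
  refine tri_three hG (u := p 0) (a := p 1) (b := y) (c := p k) a01.1 e0 e1 fun w hw => ?_
  by_cases hwy : w = y
  · exact Or.inr (Or.inl hwy)
  · have : (av G {x, y}).Adj (p 0) w := by
      refine ⟨hw, a01.2.1, ?_⟩
      rintro (rfl | rfl)
      · exact hcon.1 hw.symm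
      · exact hwy rfl
    rcases h.d0 w this with h' | h'
    · exact Or.inl h'
    · exact Or.inr (Or.inr h')

theorem end_nbr {V : Type} [Fintype V] {G : SimpleGraph V} (hG : MinCE G) {x y : V}
    (hxy : G.Adj x y) {k : ℕ} {p : ℕ → V} (h : EndCyc (av G {x, y}) k p) :
    (G.Adj x (p 0) ∨ G.Adj x (p 1)) ∧ (G.Adj y (p 0) ∨ G.Adj y (p 1)) := by
  have _ := hxy
  refine ⟨end_one hG h, end_one hG (x := y) (y := x) (k := k) ?_⟩
  rw [Set.pair_comm]
  exact h

private theorem one_nbr {V : Type} [Fintype V] {G : SimpleGraph V} (hG : MinCE G) {x y c : V}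
    (hxy : G.Adj x y) (hxc : G.Adj x c) (hcy : c ≠ y) {k' : ℕ} {p' : ℕ → V}
    (h' : EndCyc (av G {x, y}) k' p') (hd : ∀ i ≤ k', p' i ≠ c) {i j : ℕ} (hi : i ≤ k')
    (hj : j ≤ k') (hyi : G.Adj y (p' i)) (hyj : G.Adj y (p' j)) : i = j := by
  have hk := h'.hk
  have nx : ∀ i ≤ k', p' i ≠ x ∧ p' i ≠ y := by
    intro i hi
    have : p' i ∉ ({x, y} : Set V) := by
      rcases Nat.lt_or_ge i k' with h | h
      · exact (h'.seq.adj i h).2.1
      · have : i = k' := by omega
        subst this
        exact h'.last.2.1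
    simpa using this
  have tr : ∀ i j, i ≤ k' → j ≤ k' → (av G {x, y}).Adj (p' i) (p' j) →
      (av G {x, c}).Adj (p' i) (p' j) := by
    intro i j hi hj h
    refine ⟨h.1, ?_, ?_⟩
    · rintro (h1 | h1)
      · exact (nx i hi).1 h1
      · exact hd i hi h1
    · rintro (h1 | h1)
      · exact (nx j hj).1 h1
      · exact hd j hj h1
  have hyc : y ∉ ({x, c} : Set V) := by
    rintro (h1 | h1)
    · exact hxy.ne' h1
    · exact hcy h1.symm
  have key : ∀ i j, i < j → j ≤ k' → G.Adj y (p' i) → G.Adj y (p' j) → False := by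
    intro i j hij hj h1 h2
    have hn : ∀ i ≤ k', p' i ∉ ({x, c} : Set V) := by
      rintro i hi (h1 | h1)
      · exact (nx i hi).1 h1
      · exact hd i hi h1
    refine arc_theta (H := av G {x, c}) h'.hk
      ⟨h'.seq.inj, fun i hi => tr _ _ (by omega) (by omega) (h'.seq.adj i hi)⟩
      (tr _ _ le_rfl (by omega) h'.last) (y := y) (fun i hi => (nx i hi).2) hij hj
      ⟨h1, hyc, hn _ (by omega)⟩ ⟨h2, hyc, hn _ hj⟩ (theta hG hxc)
  rcases lt_trichotomy i j with h | h | h
  · exact (key i j h hj hyi hyj).elim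
  · exact h
  · exact (key j i h hi hyj hyi).elim

theorem two_ends {V : Type} [Fintype V] {G : SimpleGraph V} (hG : MinCE G) {x y : V}
    (hxy : G.Adj x y) {k k' : ℕ} {p p' : ℕ → V} (h : EndCyc (av G {x, y}) k p)
    (h' : EndCyc (av G {x, y}) k' p') (hd : ∀ i ≤ k', p' i ≠ p 0 ∧ p' i ≠ p 1) : False := by
  have hk := h.hk
  have hk' := h'.hk
  have a01 : (av G {x, y}).Adj (p 0) (p 1) := h.seq.adj 0 (by omega)
  have n0 : p 0 ≠ x ∧ p 0 ≠ y := by simpa using a01.2.1
  have n1 : p 1 ≠ x ∧ p 1 ≠ y := by simpa using a01.2.2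
  obtain ⟨ex, ey⟩ := end_nbr hG hxy h
  -- `y` has at most one neighbour on the second cycle
  have oy : ∀ i j, i ≤ k' → j ≤ k' → G.Adj y (p' i) → G.Adj y (p' j) → i = j := by
    intro i j hi hj h1 h2
    rcases ex with e | e
    · exact one_nbr hG hxy e n0.2 h' (fun i hi => (hd i hi).1) hi hj h1 h2
    · exact one_nbr hG hxy e n1.2 h' (fun i hi => (hd i hi).2) hi hj h1 h2
  have h'' : EndCyc (av G {y, x}) k' p' := by rw [Set.pair_comm]; exact h'
  have ox : ∀ i j, i ≤ k' → j ≤ k' → G.Adj x (p' i) → G.Adj x (p' j) → i = j := by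
    intro i j hi hj h1 h2
    rcases ey with e | e
    · exact one_nbr hG hxy.symm e n0.1 h'' (fun i hi => (hd i hi).1) hi hj h1 h2
    · exact one_nbr hG hxy.symm e n1.1 h'' (fun i hi => (hd i hi).2) hi hj h1 h2
  obtain ⟨fx, fy⟩ := end_nbr hG hxy h'
  have b01 : (av G {x, y}).Adj (p' 0) (p' 1) := h'.seq.adj 0 (by omega)
  have far : ∀ j, 2 ≤ j → j ≤ k' → ¬ G.Adj x (p' j) ∧ ¬ G.Adj y (p' j) := by
    intro j hj hjk
    constructor
    · intro hadj
      rcases fx with e | e
      · have := ox 0 j (by omega) hjk e hadj; omega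
      · have := ox 1 j (by omega) hjk e hadj; omega
    · intro hadj
      rcases fy with e | e
      · have := oy 0 j (by omega) hjk e hadj; omega
      · have := oy 1 j (by omega) hjk e hadj; omega
  have nb1 : G.Adj (p' 1) x ∨ G.Adj (p' 1) y := nbr_xy hG b01.symm h'.d1
  rcases Nat.lt_or_ge 2 k' with h3 | h3
  · have hdl := h'.dl (by omega)
    have hadj : (av G {x, y}).Adj (p' (k' - 1)) (p' (k' - 2)) := by
      have := h'.seq.adj (k' - 2) (by omega)
      rw [show k' - 2 + 1 = k' - 1 by omega] at this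
      exact this.symm
    have hf := far (k' - 1) (by omega) (by omega)
    rcases nbr_xy hG hadj hdl with e | e
    · exact hf.1 e.symm
    · exact hf.2 e.symm
  · have e2 : k' = 2 := by omega
    subst e2
    have b12 : (av G {x, y}).Adj (p' 1) (p' 2) := h'.seq.adj 1 (by omega)
    have b20 : (av G {x, y}).Adj (p' 2) (p' 0) := h'.last
    have notboth : ¬ (G.Adj (p' 0) x ∧ G.Adj (p' 0) y) := by
      rintro ⟨u1, u2⟩
      rcases nb1 with e | e
      · have := ox 0 1 (by omega) (by omega) u1.symm e.symm; omega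
      · have := oy 0 1 (by omega) (by omega) u2.symm e.symm; omega
    have nbs : ∀ w, G.Adj (p' 0) w → w = p' 1 ∨ w = p' 2 ∨ w = x ∨ w = y := by
      intro w hw
      by_cases hx : w = x
      · exact Or.inr (Or.inr (Or.inl hx))
      · by_cases hy : w = y
        · exact Or.inr (Or.inr (Or.inr hy))
        · have : (av G {x, y}).Adj (p' 0) w := by
            refine ⟨hw, b01.2.1, ?_⟩
            rintro (h1 | h1)
            · exact hx h1
            · exact hy h1
          rcases h'.d0 w this with e | e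
          · exact Or.inl e
          · exact Or.inr (Or.inl e)
    by_cases hx : G.Adj (p' 0) x
    · refine tri_three hG (u := p' 0) (a := p' 1) (b := p' 2) (c := x) b01.1 b20.1.symm b12.1
        fun w hw => ?_
      rcases nbs w hw with e | e | e | e
      · exact Or.inl e
      · exact Or.inr (Or.inl e)
      · exact Or.inr (Or.inr e)
      · subst e; exact absurd ⟨hx, hw⟩ notboth
    · refine tri_three hG (u := p' 0) (a := p' 1) (b := p' 2) (c := y) b01.1 b20.1.symm b12.1
        fun w hw => ?_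
      rcases nbs w hw with e | e | e | e
      · exact Or.inl e
      · exact Or.inr (Or.inl e)
      · subst e; exact absurd hw hx
      · exact Or.inr (Or.inr e)

end Pool.Agent.Work.MP_3035da_co.K
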